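import Pool.Agent.H844.Car.Lef
import Pool.Graph.R_pool_sql_team_seeded_3997aac3.Q55.Ke.Uni

/-!
# Bases adapted to a Lefschetz structure and a form
-/

set_option linter.unusedSectionVars false

open scoped ComplexOrder

namespace Pool.Agent.H844.Car

open Pool.Agent.H914 Pool.Agent.W552 Matrix

variable {V : Type*} [AddCommGroup V] [Module ℂ V] [Module.Finite ℂ V]
  {gr : ℕ → Submodule ℂ V} {n : ℕ} {L Lam : Module.End ℂ V}

/-- The forms considered. -/
structure IsF (gr : ℕ → Submodule ℂ V) (L Lam : Module.End ℂ V)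
    (β : V →ₗ[ℂ] V →ₗ[ℂ] ℂ) : Prop where
  adj1 : ∀ a b, β (L a) b = β a (Lam b)
  adj2 : ∀ a b, β (Lam a) b = β a (L b)
  deg : ∀ i j, ∀ a ∈ gr i, ∀ b ∈ gr j, i ≠ j → β a b = 0
  sym : ∀ i, ∀ a ∈ gr i, ∀ b ∈ gr i, β b a = (-1) ^ i * β a b
  nd : ∀ a, (∀ b, β a b = 0) → a = 0

variable {β : V →ₗ[ℂ] V →ₗ[ℂ] ℂ} (F : IsF gr L Lam β)
  (h : DirectSum.IsInternal gr) (t : LefStr h n L Lam)

include t F in
/-- The form is nondegenerate on the primitive vectors. -/
lemma prim_nd {i : ℕ} {a : V} (ha : a ∈ gr i) (h0 : Lam a = 0)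
    (hp : ∀ b ∈ gr i, Lam b = 0 → β a b = 0) : a = 0 := by
  apply F.nd
  intro b
  refine lef_induction' (n := n) h t.hL t.hbd t.hHL (p := fun b => β a b = 0) ?_ ?_ b
  · intro b b' hb hb'
    rw [map_add, hb, hb', add_zero]
  · intro i' hi' u hu hpu j
    by_cases hd : i = i' + 2 * j
    · cases j with
      | zero =>
        obtain rfl : i = i' := by omega
        rw [pow_zero, Module.End.one_apply]
        exact hp u hu ((prim_iff h t hi' hu).1 hpu)
      | succ j =>
        rw [pow_succ', Module.End.mul_apply, ← F.adj2, h0, map_zero, LinearMap.zero_apply]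
    · exact F.deg _ _ _ ha _ (pow_L_mem t.hL hu j) hd

include t F in
/-- Unitary bases of the spaces of primitive vectors. -/
lemma exists_prim (i : ℕ) : ∃ (r : ℕ) (p : Fin r → V), (∀ s, p s ∈ gr i ∧ Lam (p s) = 0) ∧
    (∀ a ∈ gr i, Lam a = 0 → a ∈ Submodule.span ℂ (Set.range p)) ∧
    (Matrix.of fun s s' => β (p s) (p s'))ᴴ * (Matrix.of fun s s' => β (p s) (p s')) = 1 := by
  classical
  set P : Submodule ℂ V := gr i ⊓ LinearMap.ker Lam with hP
  set b := Module.finBasis ℂ P with hb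
  set r := Module.finrank ℂ P with hr
  set G : Matrix (Fin r) (Fin r) ℂ := Matrix.of fun s s' => β (b s : V) (b s' : V) with hG
  set ε : Matrix (Fin r) (Fin r) ℂ := ((-1 : ℂ) ^ i) • 1 with hε
  have hbm : ∀ s, (b s : V) ∈ gr i ∧ Lam (b s : V) = 0 := fun s => (b s).2
  have hGu : IsUnit G := by
    rw [Matrix.isUnit_iff_isUnit_det, isUnit_iff_ne_zero]
    intro h0
    obtain ⟨c, hc0, hc⟩ := Matrix.exists_vecMul_eq_zero_iff.2 h0
    set a : P := ∑ s, c s • b s with ha
    have ha0 : (a : V) = 0 := by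
      refine prim_nd F h t a.2.1 a.2.2 fun x hx hx0 => ?_
      have hx' : (⟨x, hx, hx0⟩ : P) ∈ Submodule.span ℂ (Set.range b) := by
        rw [b.span_eq]
        exact Submodule.mem_top
      have h1 : ∀ s', β (a : V) (b s' : V) = 0 := by
        intro s'
        have h2 := congrFun hc s'
        rw [Matrix.vecMul, dotProduct] at h2
        rw [ha, Submodule.coe_sum, map_sum, LinearMap.sum_apply]
        refine Eq.trans (Finset.sum_congr rfl fun s _ => ?_) h2
        rw [Submodule.coe_smul, map_smul, LinearMap.smul_apply, smul_eq_mul]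
        rfl
      have h3 : ∀ y ∈ Submodule.span ℂ (Set.range b), β (a : V) (y : V) = 0 := by
        intro y hy
        induction hy using Submodule.span_induction with
        | mem y hy =>
          obtain ⟨s, rfl⟩ := hy
          exact h1 s
        | zero => rw [Submodule.coe_zero, map_zero]
        | add y y' _ _ hy hy' => rw [Submodule.coe_add, map_add, hy, hy', add_zero]
        | smul c y _ hy => rw [Submodule.coe_smul, map_smul, hy, smul_zero]
      exact h3 _ hx'
    apply hc0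
    have h4 : a = 0 := Subtype.ext ha0
    funext s
    exact Fintype.linearIndependent_iff.1 b.linearIndependent c h4 s
  have hε2 : ε * ε = 1 := by
    rw [hε, smul_mul_smul_comm, Matrix.mul_one, ← mul_pow]
    simp
  have hεr : cj ε = ε := by
    ext s s'
    rw [cj, Matrix.map_apply, hε, Matrix.smul_apply, smul_eq_mul, map_mul, map_pow, map_neg,
      map_one, Matrix.one_apply]
    split_ifs <;> simp
  have hGT : Gᵀ = G * ε := by
    ext s s'
    rw [hε, mul_smul_comm, Matrix.mul_one, Matrix.transpose_apply, Matrix.smul_apply,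
      smul_eq_mul]
    exact F.sym i _ (hbm s).1 _ (hbm s').1
  have hεG : ε * G = G * ε := by
    rw [hε, mul_smul_comm, smul_mul_assoc, Matrix.mul_one, Matrix.one_mul]
  obtain ⟨Q, hQ, -, hQu⟩ := Pool.Agent.Q55.Ke.exists_unitary hGu hε2 hεr hGT hεG
  refine ⟨r, fun s => ∑ j, Q j s • (b j : V), fun s => ⟨?_, ?_⟩, ?_, ?_⟩
  · exact Submodule.sum_mem _ fun j _ => Submodule.smul_mem _ _ (hbm j).1
  · rw [map_sum]
    refine Finset.sum_eq_zero fun j _ => ?_
    rw [map_smul, (hbm j).2, smul_zero]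
  · intro a ha ha0
    set x : P := ⟨a, ha, ha0⟩ with hx
    obtain ⟨Qi, hQi⟩ := hQ.exists_right_inv
    have h1 : a = ∑ s, (Qi.mulVec (b.repr x)) s • ∑ j, Q j s • (b j : V) := by
      have h2 : ∑ s, (Qi.mulVec (b.repr x)) s • ∑ j, Q j s • (b j : V) =
          ∑ j, (Q.mulVec (Qi.mulVec (b.repr x))) j • (b j : V) := by
        simp only [Matrix.mulVec, dotProduct, Finset.smul_sum, Finset.sum_smul, smul_smul]
        rw [Finset.sum_comm]
        refine Finset.sum_congr rfl fun j _ => Finset.sum_congr rfl fun s _ => ?_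
        rw [mul_comm]
      rw [h2, Matrix.mulVec_mulVec, hQi, Matrix.one_mulVec]
      have h3 := congrArg (fun y : P => (y : V)) (b.sum_repr x)
      beta_reduce at h3
      rw [Submodule.coe_sum] at h3
      exact h3.symm
    rw [h1]
    exact Submodule.sum_mem _ fun s _ => Submodule.smul_mem _ _ (Submodule.subset_span ⟨s, rfl⟩)
  · have h1 : (Matrix.of fun s s' => β (∑ j, Q j s • (b j : V)) (∑ j, Q j s' • (b j : V))) =
        Qᵀ * G * Q := by
      ext s s'
      rw [Matrix.of_apply, Matrix.mul_apply]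
      simp only [Matrix.mul_apply, map_sum, LinearMap.sum_apply, map_smul, LinearMap.smul_apply,
        smul_eq_mul, Matrix.transpose_apply, Finset.sum_mul, Finset.mul_sum, hG, Matrix.of_apply]
      refine Finset.sum_congr rfl fun j _ => Finset.sum_congr rfl fun j' _ => ?_
      ring
    rw [h1]
    exact hQu

include t F in
/-- **Adapted bases.** -/
theorem exists_adapted : ∃ (ι : Type) (_ : Fintype ι) (_ : DecidableEq ι)
    (e : Module.Basis ι ℂ V) (a : ι → ℕ) (c : Matrix ι ι ℝ), (∀ x, e x ∈ gr (a x)) ∧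
    (Matrix.of fun x y => β (e x) (e y))ᴴ * (Matrix.of fun x y => β (e x) (e y)) = 1 ∧
    (∀ y, L (e y) = ∑ x, (c x y : ℂ) • e x) ∧ ∀ y, Lam (e y) = ∑ x, (c y x : ℂ) • e x := by
  classical
  choose r p hp hspan hun using fun i => exists_prim F h t i
  let ι : Type := Σ i : Fin (n + 1), Fin (r i) × Fin (n - i + 1)
  have hle : ∀ x : ι, (x.1 : ℕ) ≤ n := fun x => Nat.lt_succ_iff.1 x.1.2
  let e : ι → V := fun x => nv L (n - x.1) (p x.1 x.2.1) x.2.2
  let a : ι → ℕ := fun x => x.1 + 2 * x.2.2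
  have hea : ∀ x, e x ∈ gr (a x) := fun x => nv_mem h t (hp _ _).1 _
  let c : Matrix ι ι ℝ := Matrix.of fun x y =>
    if (x.1 : ℕ) = y.1 ∧ (x.2.1 : ℕ) = y.2.1 ∧ (x.2.2 : ℕ) = y.2.2 + 1 then
      sq (n - y.1) y.2.2 else 0
  -- the form
  have hzero : ∀ (i i' : ℕ), i ≤ n → i' ≤ n → ∀ u ∈ gr i, Lam u = 0 → ∀ u' ∈ gr i', Lam u' = 0 →
      ∀ k k', k ≠ k' → β (nv L (n - i) u k) (nv L (n - i') u' k') = 0 := by
    intro i i' hi hi' u hu hu0 u' hu' hu0' k
    induction k with
    | zero =>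
      intro k' hk
      obtain ⟨k', rfl⟩ : ∃ j, k' = j + 1 := ⟨k' - 1, by omega⟩
      change β u (((sq (n - i') k' : ℂ))⁻¹ • L (nv L (n - i') u' k')) = 0
      rw [map_smul, ← F.adj2, hu0, map_zero, LinearMap.zero_apply, smul_zero]
    | succ k ih =>
      intro k' hk
      change β (((sq (n - i) k : ℂ))⁻¹ • L (nv L (n - i) u k)) _ = 0
      rw [map_smul, LinearMap.smul_apply, F.adj1]
      cases k' with
      | zero =>
        have h1 : Lam (nv L (n - i') u' 0) = 0 := hu0'
        rw [h1, map_zero, smul_zero]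
      | succ k' =>
        rw [Lam_nv h t hi' hu' hu0', map_smul, ih k' (by omega), smul_zero, smul_zero]
  have hsame : ∀ (i : ℕ), i ≤ n → ∀ u ∈ gr i, Lam u = 0 → ∀ u' ∈ gr i, Lam u' = 0 →
      ∀ k ≤ n - i, β (nv L (n - i) u k) (nv L (n - i) u' k) = β u u' := by
    intro i hi u hu hu0 u' hu' hu0' k
    induction k with
    | zero => intro _; rfl
    | succ k ih =>
      intro hk
      change β (((sq (n - i) k : ℂ))⁻¹ • L (nv L (n - i) u k)) _ = _
      rw [map_smul, LinearMap.smul_apply, F.adj1, Lam_nv h t hi hu' hu0', map_smul,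
        ih (by omega), smul_smul, inv_mul_cancel₀ (sq_ne (by omega)), one_smul]
  let g : ℕ → ℕ → ℕ → ℂ := fun i s s' =>
    if hs : s < r i ∧ s' < r i then β (p i ⟨s, hs.1⟩) (p i ⟨s', hs.2⟩) else 0
  have hg : ∀ (i : ℕ) (s s' : Fin (r i)), g i s s' = β (p i s) (p i s') := by
    intro i s s'
    exact dif_pos ⟨s.2, s'.2⟩
  have hB : ∀ x y : ι, β (e x) (e y) = if (x.1 : ℕ) = y.1 ∧ (x.2.2 : ℕ) = y.2.2 then
      g x.1 x.2.1 y.2.1 else 0 := by
    rintro ⟨i, s, k⟩ ⟨i', s', k'⟩
    by_cases hk : (k : ℕ) = k'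
    · by_cases hi : i = i'
      · subst hi
        rw [if_pos ⟨rfl, hk⟩, hg]
        change β (nv L (n - i) (p i s) k) (nv L (n - i) (p i s') k') = _
        rw [← hk]
        exact hsame i (Nat.lt_succ_iff.1 i.2) _ (hp _ _).1 (hp _ _).2 _ (hp _ _).1 (hp _ _).2 k
          (Nat.lt_succ_iff.1 k.2)
      · rw [if_neg (fun h' => hi (Fin.ext h'.1))]
        refine F.deg _ _ _ (hea _) _ (hea _) ?_
        intro h'
        apply hi
        apply Fin.ext
        change (i : ℕ) + 2 * k = i' + 2 * k' at h'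
        omega
    · rw [if_neg (fun h' => hk h'.2)]
      exact hzero i i' (Nat.lt_succ_iff.1 i.2) (Nat.lt_succ_iff.1 i'.2) _ (hp _ _).1 (hp _ _).2 _
        (hp _ _).1 (hp _ _).2 k k' hk
  set B : Matrix ι ι ℂ := Matrix.of fun x y => β (e x) (e y) with hBdef
  have hBB : Bᴴ * B = 1 := by
    ext ⟨i, s, k⟩ y
    rw [Matrix.mul_apply, Fintype.sum_sigma, Finset.sum_eq_single i]
    · rw [Fintype.sum_prod_type]
      have h1 : ∀ s₀ : Fin (r i), ∑ k₀ : Fin (n - i + 1), Bᴴ ⟨i, s, k⟩ ⟨i, s₀, k₀⟩ *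
          B ⟨i, s₀, k₀⟩ y = starRingEnd ℂ (g i s₀ s) * B ⟨i, s₀, k⟩ y := by
        intro s₀
        rw [Finset.sum_eq_single k]
        · rw [conjTranspose_apply, hBdef, Matrix.of_apply, hB, if_pos ⟨rfl, rfl⟩]
          rfl
        · intro k₀ _ hk₀
          rw [conjTranspose_apply, hBdef, Matrix.of_apply, hB,
            if_neg (fun h' => hk₀ (Fin.ext h'.2)), star_zero, zero_mul]
        · intro h'; exact absurd (Finset.mem_univ _) h'
      rw [Finset.sum_congr rfl fun s₀ _ => h1 s₀]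
      obtain ⟨i', s', k'⟩ := y
      by_cases hc : (i : ℕ) = i' ∧ (k : ℕ) = k'
      · obtain ⟨h2, h3⟩ := hc
        obtain rfl : i = i' := Fin.ext h2
        obtain rfl : k = k' := Fin.ext h3
        have h4 := congrFun (congrFun (hun i) s) s'
        rw [Matrix.mul_apply] at h4
        have h5 : ∑ s₀ : Fin (r i), starRingEnd ℂ (g i s₀ s) * B ⟨i, s₀, k⟩ ⟨i, s', k⟩ =
            (1 : Matrix (Fin (r i)) (Fin (r i)) ℂ) s s' := by
          rw [← h4]
          refine Finset.sum_congr rfl fun s₀ _ => ?_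
          rw [hBdef, Matrix.of_apply, hB, if_pos ⟨rfl, rfl⟩, hg, hg]
          rfl
        rw [h5, Matrix.one_apply, Matrix.one_apply]
        by_cases hs : s = s'
        · subst hs
          rw [if_pos rfl, if_pos rfl]
        · rw [if_neg hs, if_neg]
          intro h6
          apply hs
          have h7 := eq_of_heq (Sigma.mk.inj_iff.1 h6).2
          exact congrArg Prod.fst h7
      · rw [Matrix.one_apply, if_neg]
        · refine Finset.sum_eq_zero fun s₀ _ => ?_
          rw [hBdef, Matrix.of_apply, hB, if_neg hc, mul_zero]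
        · intro h6
          apply hc
          have h8 := (Sigma.mk.inj_iff.1 h6).1
          subst h8
          have h7 := eq_of_heq (Sigma.mk.inj_iff.1 h6).2
          have h9 := congrArg Prod.snd h7
          exact ⟨rfl, congrArg Fin.val h9⟩
    · intro i₀ _ hi₀
      refine Finset.sum_eq_zero fun z _ => ?_
      rw [conjTranspose_apply, hBdef, Matrix.of_apply, hB,
        if_neg (fun h' => hi₀ (Fin.ext h'.1)), star_zero, zero_mul]
    · intro h'; exact absurd (Finset.mem_univ _) h'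
  have hBB' : B * Bᴴ = 1 := mul_eq_one_comm.1 hBB
  have hli : LinearIndependent ℂ e := by
    rw [Fintype.linearIndependent_iff]
    intro w hw x
    have h1 : Matrix.vecMul w B = 0 := by
      funext y
      rw [Matrix.vecMul, dotProduct, Pi.zero_apply]
      have h2 : β (∑ x, w x • e x) (e y) = 0 := by
        rw [hw, map_zero, LinearMap.zero_apply]
      rw [map_sum, LinearMap.sum_apply] at h2
      rw [← h2]
      refine Finset.sum_congr rfl fun x _ => ?_
      rw [map_smul, LinearMap.smul_apply, smul_eq_mul]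
      rfl
    have h2 : Matrix.vecMul (Matrix.vecMul w B) Bᴴ = w := by
      rw [Matrix.vecMul_vecMul, hBB', Matrix.vecMul_one]
    rw [h1, Matrix.zero_vecMul] at h2
    exact (congrFun h2 x).symm
  have htop : ⊤ ≤ Submodule.span ℂ (Set.range e) := by
    intro v _
    refine lef_induction' (n := n) h t.hL t.hbd t.hHL
      (p := fun v => v ∈ Submodule.span ℂ (Set.range e)) ?_ ?_ v
    · intro b b' hb hb'
      exact Submodule.add_mem _ hb hb'
    · intro i hi u hu hpu j
      by_cases hj : n - i < j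
      · rw [L_pow_gt hpu hj]
        exact Submodule.zero_mem _
      push Not at hj
      have h1 := hspan i u hu ((prim_iff h t hi hu).1 hpu)
      have h2 : (L ^ j) u ∈ (Submodule.span ℂ (Set.range (p i))).map (L ^ j) := ⟨u, h1, rfl⟩
      rw [Submodule.map_span] at h2
      refine Submodule.span_le.2 ?_ h2
      rintro _ ⟨_, ⟨s, rfl⟩, rfl⟩
      obtain ⟨w, hw, hw0⟩ := nv_eq (L := L) (n - i) (p i s) j
      have h3 : (L ^ j) (p i s) = w⁻¹ • e ⟨⟨i, by omega⟩, s, ⟨j, by
          change j < n - i + 1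
          omega⟩⟩ := by
        change _ = w⁻¹ • nv L (n - i) (p i s) j
        rw [hw, smul_smul, inv_mul_cancel₀ (hw0 hj), one_smul]
      rw [h3]
      exact Submodule.smul_mem _ _ (Submodule.subset_span ⟨_, rfl⟩)
  refine ⟨ι, inferInstance, inferInstance, Module.Basis.mk hli htop, a, c, ?_, ?_, ?_, ?_⟩
  · intro x
    rw [Module.Basis.mk_apply]
    exact hea x
  · simp only [Module.Basis.mk_apply]
    exact hBB
  · rintro ⟨i, s, k⟩
    simp only [Module.Basis.mk_apply]
    have h1 : L (e ⟨i, s, k⟩) = (sq (n - i) k : ℂ) • nv L (n - i) (p i s) (k + 1) :=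
      L_nv h t (Nat.lt_succ_iff.1 i.2) (hp _ _).1 (hp _ _).2 k
    rw [h1]
    by_cases hk : (k : ℕ) + 1 < n - i + 1
    · rw [Finset.sum_eq_single (⟨i, s, ⟨k + 1, hk⟩⟩ : ι)]
      · change _ = (((if (i : ℕ) = i ∧ (s : ℕ) = s ∧ (k : ℕ) + 1 = k + 1 then
          sq (n - i) k else 0 : ℝ)) : ℂ) • nv L (n - i) (p i s) (k + 1)
        rw [if_pos ⟨rfl, rfl, rfl⟩]
      · rintro ⟨i', s', k'⟩ _ hne
        change (((if (i' : ℕ) = i ∧ (s' : ℕ) = s ∧ (k' : ℕ) = k + 1 then
          sq (n - i) k else 0 : ℝ)) : ℂ) • _ = 0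
        rw [if_neg, Complex.ofReal_zero, zero_smul]
        rintro ⟨h2, h3, h4⟩
        apply hne
        obtain rfl : i' = i := Fin.ext h2
        obtain rfl : s' = s := Fin.ext h3
        obtain rfl : k' = ⟨k + 1, hk⟩ := Fin.ext h4
        rfl
      · intro h'; exact absurd (Finset.mem_univ _) h'
    · rw [nv_gt _ (by omega), smul_zero]
      symm
      refine Finset.sum_eq_zero ?_
      rintro ⟨i', s', k'⟩ _
      change (((if (i' : ℕ) = i ∧ (s' : ℕ) = s ∧ (k' : ℕ) = k + 1 then
          sq (n - i) k else 0 : ℝ)) : ℂ) • _ = 0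
      rw [if_neg, Complex.ofReal_zero, zero_smul]
      rintro ⟨h2, h3, h4⟩
      have h5 := k'.2
      change (k' : ℕ) < n - i' + 1 at h5
      omega
  · rintro ⟨i, s, k⟩
    simp only [Module.Basis.mk_apply]
    rcases Nat.eq_zero_or_pos (k : ℕ) with hk | hk
    · have h1 : Lam (e ⟨i, s, k⟩) = 0 := by
        change Lam (nv L (n - i) (p i s) k) = 0
        rw [hk]
        exact (hp _ _).2
      rw [h1]
      symm
      refine Finset.sum_eq_zero ?_
      rintro ⟨i', s', k'⟩ _
      change (((if (i : ℕ) = i' ∧ (s : ℕ) = s' ∧ (k : ℕ) = k' + 1 then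
          sq (n - i') k' else 0 : ℝ)) : ℂ) • _ = 0
      rw [if_neg, Complex.ofReal_zero, zero_smul]
      rintro ⟨h2, h3, h4⟩
      omega
    · obtain ⟨k₀, hk₀⟩ : ∃ k₀, (k : ℕ) = k₀ + 1 := ⟨k - 1, by omega⟩
      have h1 : Lam (e ⟨i, s, k⟩) = (sq (n - i) k₀ : ℂ) • nv L (n - i) (p i s) k₀ := by
        change Lam (nv L (n - i) (p i s) k) = _
        rw [hk₀]
        exact Lam_nv h t (Nat.lt_succ_iff.1 i.2) (hp _ _).1 (hp _ _).2 k₀
      rw [h1]
      have hk2 := k.2
      change (k : ℕ) < n - i + 1 at hk2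
      rw [Finset.sum_eq_single (⟨i, s, ⟨k₀, by
        change k₀ < n - i + 1
        omega⟩⟩ : ι)]
      · change _ = (((if (i : ℕ) = i ∧ (s : ℕ) = s ∧ (k : ℕ) = k₀ + 1 then
          sq (n - i) k₀ else 0 : ℝ)) : ℂ) • nv L (n - i) (p i s) k₀
        rw [if_pos ⟨rfl, rfl, hk₀⟩]
      · rintro ⟨i', s', k'⟩ _ hne
        change (((if (i : ℕ) = i' ∧ (s : ℕ) = s' ∧ (k : ℕ) = k' + 1 then
          sq (n - i') k' else 0 : ℝ)) : ℂ) • _ = 0
        rw [if_neg, Complex.ofReal_zero, zero_smul]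
        rintro ⟨h2, h3, h4⟩
        apply hne
        obtain rfl : i = i' := Fin.ext h2
        obtain rfl : s = s' := Fin.ext h3
        have h5 : (k' : ℕ) = k₀ := by omega
        subst h5
        rfl
      · intro h'; exact absurd (Finset.mem_univ _) h'

end Pool.Agent.H844.Car
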