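import Pool.Agent.H844.Car.Eqv

/-!
# Cartan involutions on the powers of a variety
-/

open CategoryTheory AlgebraicGeometry

set_option linter.unusedSectionVars false

universe u v

namespace Pool.Agent.H844.Car

open Module Matrix
open Pool.Agent.H914 Pool.Agent.H914.VarClass Pool.Agent.H914.VarClass.Obj
  Pool.Agent.H914.WeilCohomology
open Pool.Agent.Y133.Half Pool.Agent.Q60.ED Pool.Agent.Q60.TD Pool.Agent.H281R3.HT
  Pool.Agent.H447 Pool.Agent.Q55 Pool.Agent.Q55.Hs Pool.Agent.Q60.NP Pool.Agent.Q55.Ke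
open Pool.Agent.W552 (AS AOp RatSub Fr Sy st sg_add)
open Pool.Agent.Q60.HD (wd wd_zero wd_succ wd_map wd_prj wd_append wd_PH wb_PH sum_append' wb_xp)

section Mat

variable {K : Type} [Field K] [CharZero K] {ι : Type} [Fintype ι] [DecidableEq ι]
  {B κ : Matrix ι ι K} {σ : ℂ ≃+* K}

/-- If the form is positive on the rational tensors then they are fixed by the involution. -/
theorem fix_of_pos (R : RS B) {n : ℕ}
    (h1 : ∀ v ∈ R.span.S n, tpow κ n (tpow κ n v) = v)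
    (h2 : ∀ x ∈ RSK σ {r | R.R n r}, tpow κ n x ∈ RSK σ {r | R.R n r})
    (h3 : ∀ x ∈ RSK σ {r | R.R n r}, x ≠ 0 → ∃ q : ℝ, 0 < q ∧
      bf (TP B n) (tpow κ n x) x = σ q)
    (hpos : ∀ r, R.R n r → r ≠ 0 → ∃ q : ℚ, 0 < q ∧ bf (TP B n) r r = q) :
    ∀ v ∈ R.span.S n, tpow κ n v = v := by
  classical
  let β : ((Fin n → ι) → K) →ₗ[K] ((Fin n → ι) → K) →ₗ[K] K :=
    LinearMap.mk₂ K (bf (TP B n)) (bf_add_left _) (fun c v w => bf_smul_left _ c v w)
      (bf_add_right _) fun c v w => bf_smul_right _ c v w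
  have hβ : ∀ v w, β v w = bf (TP B n) v w := fun v w => rfl
  have hnn : ∀ x ∈ RSK σ {r | R.R n r}, ∃ s : ℝ, 0 ≤ s ∧ bf (TP B n) x x = σ (s : ℂ) :=
    fun x hx => real_nonneg (R.rat n) β (fun x y hx hy => R.bf_rat hx hy)
      (fun x y hx hy => R.symm hx hy) hpos hx
  have hfix : ∀ x ∈ RSK σ {r | R.R n r}, tpow κ n x = x := by
    intro x hx
    by_contra hne
    have hxs : x ∈ R.span.S n := RSK.span hx
    have hy : x - tpow κ n x ∈ RSK σ {r | R.R n r} := AddSubgroup.sub_mem _ hx (h2 x hx)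
    have hy0 : x - tpow κ n x ≠ 0 := fun h => hne (sub_eq_zero.1 h).symm
    have hκy : tpow κ n (x - tpow κ n x) = -(x - tpow κ n x) := by
      rw [map_sub, h1 x hxs, neg_sub]
    obtain ⟨q, hq, hq'⟩ := h3 _ hy hy0
    obtain ⟨s, hs, hs'⟩ := hnn _ hy
    have hneg : bf (TP B n) (-(x - tpow κ n x)) (x - tpow κ n x) =
        -bf (TP B n) (x - tpow κ n x) (x - tpow κ n x) := by
      rw [← hβ, ← hβ, map_neg, LinearMap.neg_apply]
    rw [hκy, hneg, hs', ← map_neg, ← Complex.ofReal_neg] at hq'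
    have h4 : ((-s : ℝ) : ℂ) = (q : ℂ) := σ.injective hq'
    have h5 : -s = q := by exact_mod_cast h4
    linarith
  intro v hv
  rw [RS.span_S] at hv
  induction hv using Submodule.span_induction with
  | mem r hr => exact hfix r (RSK.of hr)
  | zero => exact map_zero _
  | add x y _ _ hx hy => rw [map_add, hx, hy]
  | smul c x _ hx => rw [map_smul, hx]

end Mat

variable {k : Type u} [Field k] {𝒱 : VarClass k} {ops : CycleOps 𝒱}
  {W : WeilCohomology.{u, 0} ops} {X : 𝒱.Obj} {D : X.Cycles} {ι : Type} [Fintype ι]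
  [DecidableEq ι] {e : Basis ι W.K (W.H X)} {a : ι → ℕ} {f : Module.End W.K (W.H X)}
  {σ : ℂ ≃+* W.K}

lemma tn_add (n : ℕ) (x y : W.H (pw X n)) : tn e n (x + y) = tn e n x + tn e n y :=
  map_add _ _ _

lemma tn_smul (n : ℕ) (c : W.K) (x : W.H (pw X n)) : tn e n (c • x) = c • tn e n x :=
  map_smul _ _ _

lemma tn_zero (n : ℕ) : tn e n (0 : W.H (pw X n)) = 0 := map_zero _

lemma RealAlg.tn {n j : ℕ} {x : W.H (pw X n)} (hx : x ∈ RealAlg W σ (pw X n) j) :
    tn e n x ∈ RSK σ {r | RT e (n + 1) r} := by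
  refine RealAlg.ind (p := fun x => Pool.Agent.Q60.TD.tn e n x ∈ RSK σ {r | RT e (n + 1) r})
    ?_ ?_ ?_ hx
  · rw [tn_zero]; exact AddSubgroup.zero_mem _
  · intro x y hx hy
    rw [tn_add]
    exact AddSubgroup.add_mem _ hx hy
  · intro c z hz
    rw [tn_smul]
    refine RSK.smul c (RSK.of ?_)
    change RT e (n + 1) _
    rw [RT_succ, clsK_tn]
    exact AS.of ⟨z, hz, rfl⟩

lemma RealAlg.mk {n j : ℕ} {x : W.H (pw X n)} (hx : Pool.Agent.Q60.TD.tn e n x ∈
    RSK σ {r | RT e (n + 1) r}) (hj : x ∈ W.gr (pw X n) (2 * j)) :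
    x ∈ RealAlg W σ (pw X n) j := by
  have key : ∀ v ∈ RSK σ {r | RT e (n + 1) r},
      proj (W.isInternal (pw X n)) (2 * j) (clsK e (prj X n) v) ∈ RealAlg W σ (pw X n) j := by
    intro v hv
    refine RSK.ind (p := fun v => proj (W.isInternal (pw X n)) (2 * j)
      (clsK e (prj X n) v) ∈ RealAlg W σ (pw X n) j) ?_ ?_ ?_ hv
    · rw [clsK_zero, map_zero]; exact AddSubgroup.zero_mem _
    · intro x y hx hy
      rw [clsK_add, map_add]
      exact AddSubgroup.add_mem _ hx hy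
    · intro c r hr
      rw [clsK_smul, map_smul]
      obtain ⟨z, hz, hz'⟩ := AS.proj (RT_succ.1 hr) j
      rw [← hz']
      exact AddSubgroup.subset_closure ⟨c, z, hz, rfl⟩
  have h1 := key _ hx
  rwa [clsK_tn, proj_same _ hj] at h1

/-- **Cartan involutions exist.** -/
theorem exists_cartan (σ : ℂ ≃+* W.K) (hD : X.IsCyc 1 D)
    (hdeg : 0 < X.V.degCycle (divPow ops D X.dim X.V.fundCycle))
    (hHL : HardLefschetz W X D) (hnum : ∀ n, HomEqNum W (pw X n)) :
    (∃ t, IsCartan W σ X D t) ∧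
      (∀ t, IsCartan W σ X D t → ∀ n, (HodgeType W (pw X n) (pwDiv ops D n) ↔
        TrivialOnReal W σ (pw X n) (t n))) ∧
      ∃ N, HodgeType W (pw X N) (pwDiv ops D N) → ∀ n, HodgeType W (pw X n) (pwDiv ops D n) := by
  classical
  have : IsAlgClosed W.K := IsAlgClosed.of_ringEquiv ℂ W.K σ
  have hsq : HomEqNum W (X.prod X) := hnum 1
  have hB : LefschetzB W X D := lefschetzB_of_square hD hHL hsq
  have hpa := Pool.Agent.W552.proj_aop hD hHL hB
  have hpar := Pool.Agent.W552.par_aop hpa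
  obtain ⟨f, G⟩ := exists_pz hD hHL hB
  have h1 := posOne G.fr hdeg
  have hst := Pool.Agent.W552.st_aop G.fr hpa
  obtain ⟨e, a, he₀⟩ := exists_grbasis W X
  have he : ∀ j, e j ∈ PH W X (a j) := fun j => PH.of (he₀ j)
  set B := gramB e D f with hBdef
  have hBd : B.det ≠ 0 :=
    isUnit_iff_ne_zero.1 ((Matrix.isUnit_iff_isUnit_det _).1 (RT.inv_mem he G hst).2)
  set R : RS B := rsys he G h1 hpar hst with hR
  have hRT : ∀ {n : ℕ} {t : (Fin n → Fin (finrank W.K (W.H X))) → W.K}, R.R n t ↔ RT e n t :=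
    Iff.rfl
  have hCS : ∀ n, R.span.S n = crdK e (algSys W) n := fun n => (crdK_span e n).symm
  have hnd : ∀ n, ∀ v ∈ R.span.S n, (∀ w ∈ R.span.S n, bf (TP B n) v w = 0) → v = 0 := by
    intro n v hv h
    rw [hCS] at hv h
    exact gramB_nd (exists_pc G h1) (fun m _ => hnum m) v hv h
  obtain ⟨κ, hκA, hκL, hκf, hk1, hk2, hk3⟩ := (ld_geo he₀ G hst).exists_kappaK σ R
    (RT_omc he G hst G.fr.Lop) (RT_omc he G hst G.fr.aop) hnd
  set τ : Module.End W.K (W.H X) := Matrix.toLin e e κ with hτdef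
  have hτ : ∀ y, τ (e y) = ∑ x, κ x y • e x := fun y => Matrix.toLin_self e e κ y
  have hcomm : ∀ F : Module.End W.K (W.H X),
      κ * LinearMap.toMatrix e e F = LinearMap.toMatrix e e F * κ → τ * F = F * τ := by
    intro F hF
    apply (LinearMap.toMatrix e e).injective
    rw [LinearMap.toMatrix_mul, LinearMap.toMatrix_mul, hτdef, LinearMap.toMatrix_toLin, hF]
  have hτL := hcomm _ hκL
  have hτf := hcomm _ hκf
  have hpc := exists_pcT (e := e) G h1 hτL hτf
  -- the form and the involution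
  have hform : ∀ n g, Pc e D B n g → ∀ x ∈ RSK σ {r | R.R (n + 1) r}, ∀ x' : W.H (pw X n),
      tn e n x' = x → x' ≠ 0 → ∃ q : ℝ, 0 < q ∧
        Pool.Agent.W552.bf W (pw X n) (pwDiv ops D n) g (tp τ n x') x' = σ (q : ℂ) := by
    intro n g G' x hx x' hx' hx0
    obtain ⟨q, hq, hq'⟩ := hk3 (n + 1) x hx fun h0 => hx0 (by
      have h2 := clsK_tn e n x'
      rw [hx', h0, clsK_zero] at h2
      exact h2.symm)
    refine ⟨q, hq, ?_⟩
    rw [← hq', ← G'.bf, ← tp_clsK hτ, ← hx', clsK_tn]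
  have hiff : ∀ t, IsCartan W σ X D t → ∀ n, (HodgeType W (pw X n) (pwDiv ops D n) ↔
      TrivialOnReal W σ (pw X n) (t n)) := by
    intro t ht n
    obtain ⟨g, G', -, -⟩ := hpc n
    exact hodge_iff G'.pz (ht.preserves n).lefschetz (ht.involution n) (ht.positive n)
  -- positivity on one power
  have hpos : ∀ N, HodgeType W (pw X N) (pwDiv ops D N) → ∀ n ≤ N + 1, ∀ r, R.R n r → r ≠ 0 →
      ∃ q : ℚ, 0 < q ∧ bf (TP B n) r r = q := by
    intro N hH
    have hposL : ∀ r, R.R (N + 1) r → r ≠ 0 → ∃ q : ℚ, 0 < q ∧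
        bf (TP B (N + 1)) r r = q := by
      intro r hr hr0
      obtain ⟨g, G', -, -⟩ := hpc N
      have hr' : AS W (pw X N) (clsK e (prj X N) r) := RT_succ.1 hr
      obtain ⟨q, hq, hq'⟩ := G'.pz.fr.bf_pos hH hr' fun h0 => hr0 (by
        apply clsK_inj e N
        rw [h0, clsK_zero])
      exact ⟨q, hq, (G'.bf r r).symm.trans hq'⟩
    obtain ⟨g, G', -, -⟩ := hpc 0
    obtain ⟨p, hp, hp'⟩ := G'.one
    have ho : RT e 1 (tn e 0 1) := by
      rw [RT_succ, clsK_tn]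
      exact AS.one
    refine R.pos_low (o := tn e 0 1) ho hp ?_ hposL
    have h2 := G'.bf (tn e 0 1) (tn e 0 1)
    rw [clsK_tn] at h2
    exact h2.symm.trans hp'
  have hfixN : ∀ n, (∀ v ∈ R.span.S (n + 1), tpow κ (n + 1) v = v) →
      ∀ j, ∀ x ∈ RealAlg W σ (pw X n) j, tp τ n x = x := by
    intro n h j x hx
    have h2 : tn e n (tp τ n x) = tn e n x := by
      rw [tn_tp hτ]
      exact h _ (RSK.span (RealAlg.tn hx))
    have h3 := congrArg (clsK e (prj X n)) h2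
    rwa [clsK_tn, clsK_tn] at h3
  have hcar : IsCartan W σ X D (tp τ) := by
    refine ⟨fun n x y => tp_ext τ n x y, fun n => ?_, fun n j x hx => ?_, ?_⟩
    · obtain ⟨g, G', hg, hgL⟩ := hpc n
      refine ⟨fun i x hx => comm_gr G'.pz.fr hgL hg hx, fun x => congrArg (fun F => F x) hgL,
        fun x y => comm_tr G'.pz hgL hg (fun x y => ?_) x y⟩
      rw [← clsK_tn e n x, ← clsK_tn e n y, tp_clsK hτ, tp_clsK hτ, G'.bf, G'.bf,
        bf_tpowK hκA]
    · obtain ⟨g, G', hg, hgL⟩ := hpc n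
      constructor
      · refine RealAlg.mk (e := e) ?_ (comm_gr G'.pz.fr hgL hg (RealAlg.gr hx))
        rw [tn_tp hτ]
        exact hk2 _ _ (RealAlg.tn hx)
      · have h2 : tn e n (tp τ n (tp τ n x)) = tn e n x := by
          rw [tn_tp hτ, tn_tp hτ]
          exact hk1 _ _ (RSK.span (RealAlg.tn hx))
        have h3 := congrArg (clsK e (prj X n)) h2
        rwa [clsK_tn, clsK_tn] at h3
    · intro n j hj x hx hp hx0
      obtain ⟨g, G', hg, hgL⟩ := hpc n
      obtain ⟨q, hq, hq'⟩ := hform n g G' _ (RealAlg.tn hx) _ rfl hx0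
      have hxg : x ∈ W.gr (pw X n) (2 * j) := RealAlg.gr hx
      have hp' : (LinearMap.mulLeft W.K (W.cl (pw X n) (pwDiv ops D n)) ^
          ((pw X n).dim - 2 * j + 1)) x = 0 := by
        rw [LinearMap.pow_mulLeft, LinearMap.mulLeft_apply]
        exact hp
      rw [bf_prim G'.pz hj hxg hp', LinearMap.pow_mulLeft, LinearMap.mulLeft_apply] at hq'
      refine ⟨((pw X n).dim - 2 * j).factorial * q,
        mul_pos (by exact_mod_cast Nat.factorial_pos _) hq, ?_⟩
      have h2 : (((pw X n).dim - 2 * j).factorial : W.K) ≠ 0 := by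
        exact_mod_cast Nat.factorial_ne_zero _
      have h3 : W.cl (pw X n) (pwDiv ops D n) ^ ((pw X n).dim - 2 * j) * x =
          x * W.cl (pw X n) (pwDiv ops D n) ^ ((pw X n).dim - 2 * j) :=
        (W.even_comm hxg _).symm
      rw [h3, ← mul_assoc] at hq'
      rw [Complex.ofReal_mul, map_mul σ, ← hq', Complex.ofReal_natCast, map_natCast σ]
      field_simp
  refine ⟨⟨tp τ, hcar⟩, hiff, ?_⟩
  obtain ⟨M, T, hT1, hT2⟩ := exists_fg R.span hBd hnd
  refine ⟨M, fun hH n => (hiff _ hcar n).2 (hfixN n fun v hv => ?_)⟩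
  have h2 : ∀ m ≤ M, ∀ s ∈ R.span.S m, tpow κ m s = s := fun m hm =>
    fix_of_pos R (hk1 _) (hk2 _) (hk3 _) (hpos M hH m (by omega))
  refine fix_genS hBd hκA h2 ?_
  rw [← hT1, hT2]
  exact hv

end Pool.Agent.H844.Car
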