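import Pool.Agent.H844.Car.Stm
import Pool.Agent.H844.Car.Thm

/-!
# Cartan involutions on the powers of a variety: the statement
-/

open CategoryTheory AlgebraicGeometry

universe u v

namespace Pool.Agent.H844.Cartan

open Pool.Agent.H914 Pool.Agent.H914.VarClass Pool.Agent.H914.VarClass.Obj
  Pool.Agent.H914.WeilCohomology Pool.Agent.Y133.Half Pool.Agent.Q55

variable {k : Type u} [Field k] {𝒱 : VarClass k} {ops : CycleOps 𝒱}
  {W : WeilCohomology.{u, 0} ops} {σ : ℂ ≃+* W.K} {X Y : 𝒱.Obj} {D : X.Cycles} {E : Y.Cycles}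

lemma isRealAlg_iff {j : ℕ} {x : W.H Y} : IsRealAlg W σ Y j x ↔ x ∈ Car.RealAlg W σ Y j := by
  constructor
  · intro h
    induction h with
    | cycle c z hz => exact AddSubgroup.subset_closure ⟨c, z, hz, rfl⟩
    | add _ _ hx hy => exact AddSubgroup.add_mem _ hx hy
  · intro h
    refine Car.RealAlg.ind (p := fun x => IsRealAlg W σ Y j x) ?_ ?_ ?_ h
    · have h1 := IsRealAlg.cycle (W := W) (σ := σ) (Y := Y) (j := j) 0 0
        (SmVar.IsCyc.zero _ _)
      rwa [map_zero, smul_zero] at h1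
    · intro x y hx hy
      exact IsRealAlg.add hx hy
    · intro c z hz
      exact IsRealAlg.cycle c z hz

/-- The linear map of an endomorphism. -/
def Preserves.lin {t : W.H Y → W.H Y} (h : Preserves W Y E t) : W.H Y →ₗ[W.K] W.H Y where
  toFun := t
  map_add' := h.add
  map_smul' := h.smul

lemma sign_aux (j : ℕ) (r : ℝ) (z : W.K) :
    (-1) ^ j * z = σ (r : ℂ) ↔ z = σ ((-1) ^ j * (r : ℂ)) := by
  have h1 : ((-1 : W.K) ^ j) * (-1) ^ j = 1 := by rw [← mul_pow]; simp
  rw [map_mul, map_pow, map_neg, map_one]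
  constructor
  · intro h
    rw [← h, ← mul_assoc, h1, one_mul]
  · intro h
    rw [h, ← mul_assoc, h1, one_mul]

lemma inter_aux {j : ℕ} {x : W.H Y} (hx : x ∈ W.gr Y (2 * j)) (y : W.H Y) (i : ℕ) :
    inter W y (timesDiv W E i x) = W.tr Y (y * x * W.cl Y E ^ i) := by
  rw [inter, timesDiv, ← W.even_comm hx, mul_assoc]

theorem main (σ : ℂ ≃+* W.K) (hD : X.IsCyc 1 D)
    (hdeg : 0 < X.V.degCycle (divPow ops D X.dim X.V.fundCycle))
    (hHL : HardLefschetz W X D) (hnum : ∀ n, HomEqNum W (pw X n)) :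
    (∃ t, IsCartan W σ X D t) ∧
      (∀ t, IsCartan W σ X D t → ∀ n, (HodgeType W (pw X n) (pwDiv ops D n) ↔
        ∀ j x, IsRealAlg W σ (pw X n) j x → t n x = x)) ∧
      ∃ N, HodgeType W (pw X N) (pwDiv ops D N) → ∀ n, HodgeType W (pw X n) (pwDiv ops D n) := by
  obtain ⟨⟨t, ht⟩, h2, h3⟩ := Car.exists_cartan σ hD hdeg hHL hnum
  refine ⟨⟨fun n => t n, fun n x y => ht.product n x y, fun n => ?_, fun n => ?_⟩, ?_, h3⟩
  · refine ⟨map_add _, map_smul _, fun i x hx => (ht.preserves n).degree i x hx, fun x => ?_,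
      fun x y => (ht.preserves n).trace x y⟩
    rw [timesDiv, timesDiv, pow_one]
    exact (ht.preserves n).lefschetz x
  · refine ⟨fun j x hx => ?_, fun j x hx => ?_, fun j x hj hx hp hx0 => ?_⟩
    · rw [isRealAlg_iff] at hx ⊢
      exact (ht.involution n j x hx).1
    · rw [isRealAlg_iff] at hx
      exact (ht.involution n j x hx).2
    · rw [isRealAlg_iff] at hx
      obtain ⟨r, hr, hr'⟩ := ht.positive n j hj x hx hp hx0
      refine ⟨r, hr, ?_⟩
      rw [inter_aux (Car.RealAlg.gr hx), ← sign_aux]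
      exact hr'
  · intro s hs n
    have h4 : Car.IsCartan W σ X D fun n => (hs.preserves n).lin := by
      refine ⟨fun n x y => hs.tensor n x y, fun n => ?_, fun n j x hx => ?_,
        fun n j hj x hx hp hx0 => ?_⟩
      · refine ⟨fun i x hx => (hs.preserves n).degree i x hx, fun x => ?_,
          fun x y => (hs.preserves n).duality x y⟩
        have h5 := (hs.preserves n).divisor x
        rw [timesDiv, timesDiv, pow_one] at h5
        exact h5
      · rw [← isRealAlg_iff] at hx
        exact ⟨isRealAlg_iff.1 ((hs.polarizes n).real j x hx),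
          (hs.polarizes n).involution j x hx⟩
      · obtain ⟨r, hr, hr'⟩ := (hs.polarizes n).positive j x hj (isRealAlg_iff.2 hx) hp hx0
        refine ⟨r, hr, ?_⟩
        rw [inter_aux (Car.RealAlg.gr hx), ← sign_aux] at hr'
        exact hr'
    rw [h2 _ h4 n]
    constructor
    · intro h j x hx
      exact h j x (isRealAlg_iff.1 hx)
    · intro h j x hx
      exact h j x (isRealAlg_iff.2 hx)

end Pool.Agent.H844.Cartan
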