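import Pool.Agent.H844.Car.Inv

/-!
# Change of basis, change of coefficients and finite generation
-/

set_option linter.unusedSectionVars false

namespace Pool.Agent.H844.Car

open Module Matrix Pool.Agent.Q60.ED Pool.Agent.Q60.NP Pool.Agent.Q55.Ke
open Pool.Agent.W552 (RatSub)

section Conj

variable {K : Type} [Field K] {ι : Type} [Fintype ι] [DecidableEq ι] {B P : Matrix ι ι K}

lemma bf_conj (B P : Matrix ι ι K) (n : ℕ) (v w : (Fin n → ι) → K) :
    bf (TP (Pᵀ * B * P) n) v w = bf (TP B n) (tpow P n v) (tpow P n w) := by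
  have h1 : TP (Pᵀ * B * P) n = (TP P n).transpose * TP B n * TP P n := by
    rw [← TP_transpose, ← TP_mul, ← TP_mul]
  rw [bf_eq, bf_eq, tpow_eq, tpow_eq, h1, ← Matrix.mulVec_mulVec, ← Matrix.mulVec_mulVec,
    Matrix.dotProduct_mulVec v, Matrix.vecMul_transpose]

lemma conj_inv (hP : P.det ≠ 0) (B : Matrix ι ι K) :
    (P⁻¹)ᵀ * (Pᵀ * B * P) * P⁻¹ = B := by
  have hu := isUnit_iff_ne_zero.2 hP
  calc (P⁻¹)ᵀ * (Pᵀ * B * P) * P⁻¹ = ((P⁻¹)ᵀ * Pᵀ) * B * (P * P⁻¹) := by
        simp only [Matrix.mul_assoc]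
    _ = B := by
      rw [← transpose_mul, mul_nonsing_inv _ hu, transpose_one, Matrix.one_mul, Matrix.mul_one]

lemma tpow_ctr' (hP : P.det ≠ 0) (B : Matrix ι ι K) {m n : ℕ} (s : (Fin m → ι) → K)
    (t : (Fin (m + n) → ι) → K) :
    tpow P n (ctr (Pᵀ * B * P) s t) = ctr B (tpow P m s) (tpow P (m + n) t) := by
  funext L
  have h1 := tpow_contr hP (Pᵀ * B * P) s t L
  rw [conj_inv hP] at h1
  exact h1

lemma tpow_om (hP : P.det ≠ 0) (B : Matrix ι ι K) :
    tpow P 2 (om (Pᵀ * B * P)) = om B := by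
  have hu := isUnit_iff_ne_zero.2 hP
  have hut : IsUnit (Pᵀ).det := by rwa [det_transpose]
  apply mat2_inj
  rw [tpow_two, mat2_om, mat2_om, Matrix.mul_inv_rev, Matrix.mul_inv_rev]
  calc P * (P⁻¹ * (B⁻¹ * (Pᵀ)⁻¹)) * Pᵀ = (P * P⁻¹) * B⁻¹ * ((Pᵀ)⁻¹ * Pᵀ) := by
        simp only [Matrix.mul_assoc]
    _ = B⁻¹ := by
      rw [mul_nonsing_inv _ hu, nonsing_inv_mul _ hut, Matrix.one_mul, Matrix.mul_one]

/-- The system in another basis. -/
noncomputable def conjRS (R : RS B) (hP : P.det ≠ 0) : RS (Pᵀ * B * P) where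
  R n t := R.R n (tpow P n t)
  rat n :=
    { zero := by rw [map_zero]; exact (R.rat n).zero
      add := fun hx hy => by rw [map_add]; exact (R.rat n).add hx hy
      smul := fun q _ hx => by rw [map_smul]; exact (R.rat n).smul q hx }
  one := by rw [Pool.Agent.Q55.Ke.tpow_zero]; exact R.one
  mul hs ht := by rw [tpow_tmul]; exact R.mul hs ht
  perm σ _ ht := by rw [tpow_perm]; exact R.perm σ ht
  contr hs ht := by rw [tpow_ctr' hP]; exact R.contr hs ht
  om := by rw [tpow_om hP]; exact R.om
  zero t ht := by rw [Pool.Agent.Q55.Ke.tpow_zero] at ht; exact R.zero t ht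
  symm hs ht := by rw [bf_conj, bf_conj]; exact R.symm hs ht

lemma conjRS_R (R : RS B) (hP : P.det ≠ 0) {n : ℕ} {t : (Fin n → ι) → K} :
    (conjRS R hP).R n t ↔ R.R n (tpow P n t) := Iff.rfl

lemma tpow_inv_cancel (hP : P.det ≠ 0) {n : ℕ} (v : (Fin n → ι) → K) :
    tpow P⁻¹ n (tpow P n v) = v := by
  rw [← tpow_mul, nonsing_inv_mul _ (isUnit_iff_ne_zero.2 hP), tpow_one]

lemma tpow_cancel_inv (hP : P.det ≠ 0) {n : ℕ} (v : (Fin n → ι) → K) :
    tpow P n (tpow P⁻¹ n v) = v := by
  rw [← tpow_mul, mul_nonsing_inv _ (isUnit_iff_ne_zero.2 hP), tpow_one]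

lemma mem_conj_span (R : RS B) (hP : P.det ≠ 0) {n : ℕ} {v : (Fin n → ι) → K} :
    v ∈ (conjRS R hP).span.S n ↔ tpow P n v ∈ R.span.S n := by
  constructor
  · intro hv
    rw [RS.span_S] at hv
    induction hv using Submodule.span_induction with
    | mem x hx => exact Submodule.subset_span hx
    | zero => rw [map_zero]; exact Submodule.zero_mem _
    | add x y _ _ hx hy => rw [map_add]; exact Submodule.add_mem _ hx hy
    | smul c x _ hx => rw [map_smul]; exact Submodule.smul_mem _ _ hx
  · intro hv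
    have key : ∀ w ∈ R.span.S n, tpow P⁻¹ n w ∈ (conjRS R hP).span.S n := by
      intro w hw
      rw [RS.span_S] at hw
      induction hw using Submodule.span_induction with
      | mem x hx =>
        refine Submodule.subset_span ?_
        change R.R n (tpow P n (tpow P⁻¹ n x))
        rw [tpow_cancel_inv hP]
        exact hx
      | zero => rw [map_zero]; exact Submodule.zero_mem _
      | add x y _ _ hx hy => rw [map_add]; exact Submodule.add_mem _ hx hy
      | smul c x _ hx => rw [map_smul]; exact Submodule.smul_mem _ _ hx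
    have h1 := key _ hv
    rwa [tpow_inv_cancel hP] at h1

end Conj

section Fg

variable {K : Type} [Field K] [CharZero K] {ι : Type} [Fintype ι] [DecidableEq ι]
  {B : Matrix ι ι K}

/-- **Finite generation.** -/
theorem exists_fg [IsAlgClosed K] (C : CSys B) (hB : B.det ≠ 0)
    (hnd : ∀ n, ∀ v ∈ C.S n, (∀ w ∈ C.S n, bf (TP B n) v w = 0) → v = 0) :
    ∃ (M : ℕ) (T : TSys K ι), T.S = (C.genS M).S ∧ T.S = C.S := by
  classical
  -- the ideals of the stabilisers of the tensors of low degree
  let tr : ℕ → ∀ n : ℕ, Submodule K ((Fin n → ι) → K) := fun M n => if n ≤ M then C.S n else ⊥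
  have hmono : ∀ M M', M ≤ M' → IS (tr M) ≤ IS (tr M') := by
    intro M M' hM
    apply Ideal.span_mono
    rintro _ ⟨n, s, I, hs, rfl⟩
    refine ⟨n, s, I, ?_, rfl⟩
    change s ∈ (if n ≤ M then C.S n else ⊥ : Submodule K ((Fin n → ι) → K)) at hs
    change s ∈ (if n ≤ M' then C.S n else ⊥ : Submodule K ((Fin n → ι) → K))
    by_cases hn : n ≤ M
    · rw [if_pos hn] at hs
      rwa [if_pos (hn.trans hM)]
    · rw [if_neg hn, Submodule.mem_bot] at hs
      rw [hs]
      exact Submodule.zero_mem _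
  have h1 := monotone_stabilizes_iff_noetherian.2
    (inferInstance : IsNoetherian (MvPolynomial (ι × ι) K) (MvPolynomial (ι × ι) K))
  obtain ⟨M₀, hM₀⟩ := h1 ⟨fun M => IS (tr M), fun M M' h => hmono M M' h⟩
  have hIS : IS C.S ≤ IS (tr M₀) := by
    apply Ideal.span_le.2
    rintro _ ⟨n, s, I, hs, rfl⟩
    have h2 : ft s I ∈ IS (tr (max M₀ n)) := by
      refine ft_mem ?_ I
      change s ∈ (if n ≤ max M₀ n then C.S n else ⊥ : Submodule K ((Fin n → ι) → K))
      rwa [if_pos (le_max_right _ _)]
    have h3 : IS (tr M₀) = IS (tr (max M₀ n)) := hM₀ _ (le_max_left _ _)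
    rw [SetLike.mem_coe, h3]
    exact h2
  obtain ⟨M', hM1, -, hstab⟩ := C.exists_stable (max M₀ 2)
  obtain ⟨T, hT⟩ := C.exists_tsys hB (le_trans (le_max_right _ _) hM1)
    (fun n _ => hnd n) hstab
  refine ⟨M' + 2, T, hT, ?_⟩
  funext n
  apply le_antisymm
  · rw [hT]
    exact CSys.genS_le _ _
  · intro t ht
    have hom : (om B : (Fin 2 → ι) → K) ∈ T.S 2 := by
      rw [hT]
      exact (C.genS (M' + 2)).om
    have homd : (mat2 (om B)).det ≠ 0 := by
      rw [mat2_om]
      exact (Matrix.isUnit_nonsing_inv_det _ (isUnit_iff_ne_zero.2 hB)).ne_zero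
    refine T.mem_of_fixed hom homd fun h hh => ?_
    have h2 : Fix (tr M₀) h := by
      intro m s hs
      change s ∈ (if m ≤ M₀ then C.S m else ⊥ : Submodule K ((Fin m → ι) → K)) at hs
      by_cases hm : m ≤ M₀
      · rw [if_pos hm] at hs
        refine hh m s ?_
        rw [hT]
        refine CSys.le_genS ?_ hs
        have := le_max_left M₀ 2
        omega
      · rw [if_neg hm, Submodule.mem_bot] at hs
        rw [hs, map_zero]
    have h3 : Fix C.S h := fix_iff.2 fun f hf => fix_iff.1 h2 f (hIS hf)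
    exact h3 n t ht

end Fg

section Coef

variable {K F : Type} [Field K] [Field F] {ι : Type} [Fintype ι] [DecidableEq ι]
  {B : Matrix ι ι K}

lemma map_bf (σ : K →+* F) (G : Matrix ι ι K) (v w : ι → K) :
    bf (G.map σ) (fun i => σ (v i)) (fun i => σ (w i)) = σ (bf G v w) := by
  simp only [bf, map_sum, map_mul, Matrix.map_apply]

lemma map_TP (σ : K →+* F) (G : Matrix ι ι K) (n : ℕ) : TP (G.map σ) n = (TP G n).map σ := by
  ext I J
  rw [TP_apply, Matrix.map_apply, TP_apply, map_prod]
  rfl

lemma map_tpow (σ : K →+* F) (G : Matrix ι ι K) (n : ℕ) (v : (Fin n → ι) → K) :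
    tpow (G.map σ) n (fun I => σ (v I)) = fun I => σ (tpow G n v I) := by
  funext I
  simp only [tpow_apply, map_sum, map_mul, map_prod, Matrix.map_apply]

lemma map_inv' (σ : K →+* F) (G : Matrix ι ι K) : (G.map σ)⁻¹ = G⁻¹.map σ := by
  by_cases h : G.det = 0
  · have h1 : (G.map σ).det = 0 := by
      have h2 := σ.map_det G
      rw [RingHom.mapMatrix_apply, h, map_zero] at h2
      exact h2.symm
    rw [Matrix.nonsing_inv_apply_not_isUnit _ (by rw [h1]; exact not_isUnit_zero),
      Matrix.nonsing_inv_apply_not_isUnit _ (by rw [h]; exact not_isUnit_zero)]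
    ext i j
    simp
  · apply Matrix.inv_eq_left_inv
    rw [← Matrix.map_mul, Matrix.nonsing_inv_mul _ (isUnit_iff_ne_zero.2 h),
      Matrix.map_one _ (map_zero σ) (map_one σ)]

lemma map_ctr (σ : K →+* F) (B : Matrix ι ι K) {m n : ℕ} (s : (Fin m → ι) → K)
    (t : (Fin (m + n) → ι) → K) :
    ctr (B.map σ) (fun I => σ (s I)) (fun I => σ (t I)) = fun J => σ (ctr B s t J) := by
  funext J
  simp only [ctr, map_sum, map_mul, map_TP, Matrix.map_apply]

/-- The system with other coefficients. -/
noncomputable def mapRS (σ : K ≃+* F) (R : RS B) : RS (B.map σ) where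
  R n t := R.R n fun I => σ.symm (t I)
  rat n :=
    { zero := by
        have h1 : (fun I : Fin n → ι => σ.symm ((0 : (Fin n → ι) → F) I)) = 0 := by
          funext I
          exact map_zero _
        rw [h1]
        exact (R.rat n).zero
      add := fun {x y} hx hy => by
        have h1 : (fun I : Fin n → ι => σ.symm ((x + y) I)) =
            (fun I => σ.symm (x I)) + fun I => σ.symm (y I) := by
          funext I
          exact map_add _ _ _
        rw [h1]
        exact (R.rat n).add hx hy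
      smul := fun q x hx => by
        have h1 : (fun I : Fin n → ι => σ.symm (((q : F) • x) I)) =
            (q : K) • fun I => σ.symm (x I) := by
          funext I
          change σ.symm ((q : F) * x I) = (q : K) * σ.symm (x I)
          rw [map_mul, map_ratCast]
        rw [h1]
        exact (R.rat n).smul q hx }
  one := by
    have h1 : (fun _ : Fin 0 → ι => σ.symm (1 : F)) = fun _ => 1 := by
      funext I
      exact map_one _
    rw [h1]
    exact R.one
  mul {m n s t} hs ht := by
    have h1 : (fun I => σ.symm (tmul s t I)) =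
        tmul (fun I => σ.symm (s I)) fun I => σ.symm (t I) := by
      funext I
      exact map_mul _ _ _
    rw [h1]
    exact R.mul hs ht
  perm τ _ ht := R.perm τ ht
  contr {m n s t} hs ht := by
    have h1 : (fun I => σ.symm (ctr (B.map σ) s t I)) =
        ctr B (fun I => σ.symm (s I)) fun I => σ.symm (t I) := by
      have h2 := map_ctr (σ : K →+* F) B (fun I => σ.symm (s I)) fun I => σ.symm (t I)
      simp only [RingHom.coe_coe, RingEquiv.apply_symm_apply] at h2
      funext J
      rw [h2, RingEquiv.symm_apply_apply]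
    rw [h1]
    exact R.contr hs ht
  om := by
    have h1 : (fun w : Fin 2 → ι => σ.symm (om (B.map σ) w)) = om B := by
      funext w
      change σ.symm ((B.map (σ : K →+* F))⁻¹ (w 0) (w 1)) = B⁻¹ (w 0) (w 1)
      rw [map_inv', Matrix.map_apply]
      exact σ.symm_apply_apply _
    rw [h1]
    exact R.om
  zero t ht := by
    obtain ⟨q, hq⟩ := R.zero _ ht
    refine ⟨q, ?_⟩
    have h1 := congrArg σ hq
    rwa [RingEquiv.apply_symm_apply, map_ratCast] at h1
  symm {n s t} hs ht := by
    have h1 := R.symm hs ht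
    have h2 := map_bf (σ : K →+* F) (TP B n) (fun I => σ.symm (s I)) fun I => σ.symm (t I)
    have h3 := map_bf (σ : K →+* F) (TP B n) (fun I => σ.symm (t I)) fun I => σ.symm (s I)
    simp only [RingHom.coe_coe, RingEquiv.apply_symm_apply] at h2 h3
    have h4 : TP (B.map σ) n = (TP B n).map σ := map_TP (σ : K →+* F) B n
    rw [h4]
    rw [h1] at h2
    exact h2.trans h3.symm

end Coef

end Pool.Agent.H844.Car
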