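import Pool.Graph.R_pool_sql_team_seeded_3997aac3.Q55.Ke.Pos

/-!
# Vectors of minimal length for the centraliser of a set of matrices
-/

set_option linter.unusedSectionVars false

open scoped ComplexOrder
open Filter Topology

namespace Pool.Agent.H844.Car

open Module Matrix Pool.Agent.Q60.ED Pool.Agent.Q60.NP Pool.Agent.Q55.Ke
open Pool.Agent.W552 (RatSub)

variable {ι : Type} [Fintype ι] [DecidableEq ι] {B : Matrix ι ι ℂ} {𝒞 : Set (Matrix ι ι ℂ)}
  {g h : Matrix ι ι ℂ}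

/-- The matrices which preserve the form and commute with the matrices of a set. -/
def Zt (B : Matrix ι ι ℂ) (𝒞 : Set (Matrix ι ι ℂ)) : Set (Matrix ι ι ℂ) :=
  {g | g ∈ Aut B ∧ ∀ c ∈ 𝒞, g * c = c * g}

lemma one_mem_Zt : (1 : Matrix ι ι ℂ) ∈ Zt B 𝒞 :=
  ⟨one_mem_Aut, fun c _ => by rw [Matrix.one_mul, Matrix.mul_one]⟩

lemma mul_mem_Zt (hg : g ∈ Zt B 𝒞) (hh : h ∈ Zt B 𝒞) : g * h ∈ Zt B 𝒞 :=
  ⟨mul_mem_Aut hg.1 hh.1, fun c hc => by
    rw [Matrix.mul_assoc, hh.2 c hc, ← Matrix.mul_assoc, hg.2 c hc, Matrix.mul_assoc]⟩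

lemma comm_inv {c : Matrix ι ι ℂ} (hg : g.det ≠ 0) (h : g * c = c * g) : g⁻¹ * c = c * g⁻¹ := by
  have hu := isUnit_iff_ne_zero.2 hg
  calc g⁻¹ * c = g⁻¹ * (c * (g * g⁻¹)) := by rw [mul_nonsing_inv _ hu, Matrix.mul_one]
    _ = g⁻¹ * (c * g) * g⁻¹ := by simp only [Matrix.mul_assoc]
    _ = g⁻¹ * (g * c) * g⁻¹ := by rw [h]
    _ = (g⁻¹ * g) * c * g⁻¹ := by simp only [Matrix.mul_assoc]
    _ = c * g⁻¹ := by rw [nonsing_inv_mul _ hu, Matrix.one_mul]

lemma inv_mem_Zt (hB : B.det ≠ 0) (hg : g ∈ Zt B 𝒞) : g⁻¹ ∈ Zt B 𝒞 :=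
  ⟨inv_mem_Aut hB hg.1, fun c hc => comm_inv (det_Aut hB hg.1) (hg.2 c hc)⟩

lemma star_mem_Zt (hB : Bᴴ * B = 1) (hC : ∀ c ∈ 𝒞, cᴴ ∈ 𝒞) (hg : g ∈ Zt B 𝒞) :
    gᴴ ∈ Zt B 𝒞 :=
  ⟨Aut_star hB hg.1, fun c hc => by
    have h1 := congrArg conjTranspose (hg.2 _ (hC c hc))
    rw [conjTranspose_mul, conjTranspose_mul, conjTranspose_conjTranspose] at h1
    exact h1.symm⟩

lemma Zt_sqrt (hB : Bᴴ * B = 1) (hg : g ∈ Zt B 𝒞) (hp : g.PosDef) :
    ∃ R ∈ Zt B 𝒞, R.PosDef ∧ R * R = g := by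
  obtain ⟨R, hR, hRp, hRR⟩ := Aut_sqrt hB hg.1 hp
  refine ⟨R, ⟨hR, fun c hc => ?_⟩, hRp, hRR⟩
  obtain ⟨p, hN, hNN⟩ := Pool.Agent.W552.exists_invSqrt hp
  have hcN : c * Polynomial.aeval g p = Polynomial.aeval g p * c :=
    Pool.Agent.W552.aeval_comm (hg.2 c hc).symm p
  set N := Polynomial.aeval g p with hNdef
  have hNu : IsUnit N.det := (Matrix.isUnit_iff_isUnit_det _).1 hN.isUnit
  have h1 : N⁻¹ * N⁻¹ = g := by
    calc N⁻¹ * N⁻¹ = N⁻¹ * N⁻¹ * (N * N * g) := by rw [hNN, Matrix.mul_one]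
      _ = N⁻¹ * (N⁻¹ * N) * (N * g) := by simp only [Matrix.mul_assoc]
      _ = (N⁻¹ * N) * g := by
          rw [nonsing_inv_mul _ hNu, Matrix.mul_one, ← Matrix.mul_assoc,
            nonsing_inv_mul _ hNu]
      _ = g := by rw [nonsing_inv_mul _ hNu, Matrix.one_mul]
  have h2 : R = N⁻¹ := sq_unique hRp.posSemidef hN.inv.posSemidef (by rw [hRR, h1])
  rw [h2]
  exact comm_inv (isUnit_iff_ne_zero.1 hNu) hcN.symm

/-- The tensor of a matrix. -/
noncomputable def omc {K : Type} [Field K] (B c : Matrix ι ι K) : (Fin 2 → ι) → K :=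
  fun w => (c * B⁻¹) (w 0) (w 1)

lemma mat2_omc (B c : Matrix ι ι ℂ) : mat2 (omc B c) = c * B⁻¹ := by
  ext i j
  rfl

lemma fix_omc (hB : B.det ≠ 0) (hg : g ∈ Aut B) (c : Matrix ι ι ℂ) :
    g * c = c * g ↔ tpow g 2 (omc B c) = omc B c := by
  have hBu := isUnit_iff_ne_zero.2 hB
  have hgu := isUnit_iff_ne_zero.2 (det_Aut hB hg)
  have h1 := (Aut_dual hB).1 hg
  have h2 : g * (c * B⁻¹) * gᵀ = g * c * g⁻¹ * B⁻¹ := by
    calc g * (c * B⁻¹) * gᵀ = g * c * (g⁻¹ * g) * B⁻¹ * gᵀ := by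
          rw [nonsing_inv_mul _ hgu, Matrix.mul_one]
          simp only [Matrix.mul_assoc]
      _ = g * c * g⁻¹ * (g * B⁻¹ * gᵀ) := by simp only [Matrix.mul_assoc]
      _ = _ := by rw [h1]
  constructor
  · intro h
    apply mat2_inj
    rw [tpow_two, mat2_omc, h2, h, Matrix.mul_assoc c, mul_nonsing_inv _ hgu, Matrix.mul_one]
  · intro h
    have h3 := tpow_two g (omc B c)
    rw [h, mat2_omc, h2] at h3
    have h4 := congrArg (fun M => M * B * g) h3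
    beta_reduce at h4
    have h5 : c * B⁻¹ * B * g = c * g := by
      rw [Matrix.mul_assoc c, nonsing_inv_mul _ hBu, Matrix.mul_one]
    have h6 : g * c * g⁻¹ * B⁻¹ * B * g = g * c := by
      rw [Matrix.mul_assoc (g * c * g⁻¹), nonsing_inv_mul _ hBu, Matrix.mul_one,
        Matrix.mul_assoc (g * c), nonsing_inv_mul _ hgu, Matrix.mul_one]
    rw [h5, h6] at h4
    exact h4.symm

/-- **Translates of minimal length.** -/
theorem exists_minZ (hB : B.det ≠ 0) {C : CSys B} {M : ℕ} {T : TSys ℂ ι}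
    (hT : T.S = (C.genS M).S) (hCT : ∀ c ∈ 𝒞, omc B c ∈ T.S 2)
    {κ : Type} [Fintype κ] {d : κ → ℕ}
    (x : ∀ k, (Fin (d k) → ι) → ℂ) (hx : ∀ k, x k ∈ T.S (d k))
    (hspan : ∀ m ≤ M, ∀ D : CSys B, (∀ k, x k ∈ D.S (d k)) → C.S m ≤ D.S m) :
    ∃ h ∈ Zt B 𝒞, ∀ g ∈ Zt B 𝒞, len x h ≤ len x g := by
  have hnn : ∀ g : Matrix ι ι ℂ, 0 ≤ len x g := fun g =>
    Finset.sum_nonneg fun _ _ => nsq_nonneg _
  set A : Set ℝ := (fun g => len x g) '' Zt B 𝒞 with hA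
  have hne : A.Nonempty := ⟨_, 1, one_mem_Zt, rfl⟩
  have hbb : BddBelow A := ⟨0, by rintro _ ⟨g, -, rfl⟩; exact hnn g⟩
  obtain ⟨u, hu1, hu2, hu3⟩ := exists_seq_tendsto_sInf hne hbb
  choose g hg hgu using hu3
  -- bounded lengths
  obtain ⟨c, hc⟩ : ∃ c : ℝ, ∀ j, len x (g j) ≤ c := by
    refine ⟨u 0, fun j => ?_⟩
    have h1 : len x (g j) = u j := hgu j
    rw [h1]
    exact hu1 (Nat.zero_le j)
  have hb0 : ∀ k I, Bd fun j => tpow (g j) (d k) (x k) I := by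
    intro k I
    refine ⟨Real.sqrt c, fun j => ?_⟩
    rw [← Real.sqrt_sq (norm_nonneg _)]
    refine Real.sqrt_le_sqrt ?_
    rw [← Complex.normSq_eq_norm_sq]
    calc Complex.normSq (tpow (g j) (d k) (x k) I) ≤ nsq (tpow (g j) (d k) (x k)) :=
          Finset.single_le_sum (f := fun I => Complex.normSq (tpow (g j) (d k) (x k) I))
            (fun _ _ => Complex.normSq_nonneg _) (Finset.mem_univ I)
      _ ≤ len x (g j) := Finset.single_le_sum (f := fun k => nsq (tpow (g j) (d k) (x k)))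
            (fun _ _ => nsq_nonneg _) (Finset.mem_univ k)
      _ ≤ c := hc j
  obtain ⟨h, hh, hlim⟩ := exists_lim hB hT (fun j => (hg j).1) fun m hm s hs =>
    hspan m hm (bddSys hB fun j => (hg j).1) (fun k I => hb0 k I) hs
  have hlen : Tendsto (fun j => len x (g j)) ul (𝓝 (len x h)) := by
    refine tendsto_finsetSum _ fun k _ => tendsto_finsetSum _ fun I _ => ?_
    exact (Complex.continuous_normSq.tendsto _).comp (hlim (d k) (x k) (hx k) I)
  have hlen2 : Tendsto (fun j => len x (g j)) ul (𝓝 (sInf A)) := by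
    have h1 : (fun j => len x (g j)) = u := funext hgu
    rw [h1]
    refine hu2.mono_left ?_
    have h2 : (ul : Filter ℕ) ≤ Filter.cofinite := Filter.hyperfilter_le_cofinite
    rwa [Nat.cofinite_eq_atTop] at h2
  have heq : len x h = sInf A := tendsto_nhds_unique hlen hlen2
  refine ⟨h, ⟨hh, fun c hc => ?_⟩, fun g' hg' => ?_⟩
  · rw [fix_omc hB hh]
    funext I
    have h1 := hlim 2 _ (hCT c hc) I
    have h2 : (fun j => tpow (g j) 2 (omc B c) I) = fun _ => omc B c I := by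
      funext j
      rw [(fix_omc hB (hg j).1 c).1 ((hg j).2 c hc)]
    rw [h2] at h1
    exact tendsto_nhds_unique h1 tendsto_const_nhds
  · rw [heq]
    exact csInf_le hbb ⟨g', hg', rfl⟩

/-- The unitary matrix which realises the antilinear structure on the rational tensors of the
system. -/
theorem exists_k0Z (hB : Bᴴ * B = 1) (R : RS B) {M : ℕ} {T : TSys ℂ ι}
    (hT : T.S = (R.span.genS M).S)
    (hnd : ∀ n, ∀ v ∈ T.S n, (∀ w ∈ T.S n, bf (TP B n) v w = 0) → v = 0)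
    (hC : ∀ c ∈ 𝒞, cᴴ ∈ 𝒞) (hCR : ∀ c ∈ 𝒞, R.R 2 (omc B c)) (hCT : ∀ c ∈ 𝒞, omc B c ∈ T.S 2)
    (hCJ : ∀ c ∈ 𝒞, J0 B 2 (omc B c) = omc B c) :
    ∃ g ∈ Zt B 𝒞, ∃ k ∈ Zt B 𝒞, kᴴ * k = 1 ∧
      (∀ n r, R.R n r → r ∈ T.S n → tpow k n (tpow g n r) = J0 B n (tpow g n r)) ∧
      ∀ n, ∀ t ∈ T.S n, tpow g⁻¹ n (tpow k n (tpow g n t)) ∈ T.S n := by
  classical
  have hBd := det_of_unitary hB
  have hfg : ∀ m, ∃ s : Finset ((Fin m → ι) → ℂ), (∀ x ∈ s, R.R m x) ∧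
      Submodule.span ℂ {t | R.R m t} = Submodule.span ℂ (s : Set ((Fin m → ι) → ℂ)) := by
    intro m
    have h0 : (Submodule.span ℂ {t : (Fin m → ι) → ℂ | R.R m t}).FG :=
      IsNoetherian.noetherian _
    obtain ⟨s, h1, h2⟩ := (Submodule.fg_span_iff_fg_span_finset_subset
      {t : (Fin m → ι) → ℂ | R.R m t}).1 h0
    exact ⟨s, fun x hx => h1 hx, h2⟩
  choose s hsR hspan using hfg
  let κ : Type := Σ m : Fin (M + 1), {x // x ∈ s m}
  let d : κ → ℕ := fun k => k.1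
  let x : ∀ k : κ, (Fin (d k) → ι) → ℂ := fun k => k.2.1
  have hxR : ∀ k, R.R (d k) (x k) := fun k => hsR _ _ k.2.2
  have hxT : ∀ k, x k ∈ T.S (d k) := by
    intro k
    rw [hT]
    exact CSys.le_genS (Nat.lt_succ_iff.1 k.1.2) (Submodule.subset_span (hxR k))
  have hxspan : ∀ m ≤ M, ∀ D : CSys B, (∀ k, x k ∈ D.S (d k)) → R.span.S m ≤ D.S m := by
    intro m hm D hD
    rw [RS.span_S, hspan]
    refine Submodule.span_le.2 fun y hy => ?_
    exact hD ⟨⟨m, Nat.lt_succ_iff.2 hm⟩, ⟨y, hy⟩⟩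
  obtain ⟨g, hg, hmin⟩ := exists_minZ (𝒞 := 𝒞) hBd hT hCT x hxT hxspan
  have hgd := det_Aut hBd hg.1
  obtain ⟨u, hu, hur⟩ := exists_u hB R hT hnd hg.1
  have huZ : u ∈ Zt B 𝒞 := by
    refine ⟨hu, fun c hc => ?_⟩
    rw [fix_omc hBd hu]
    have h1 := hur 2 _ (hCR c hc) (hCT c hc)
    rw [(fix_omc hBd hg.1 c).1 (hg.2 c hc), hCJ c hc] at h1
    exact h1
  let y : ∀ k : κ, (Fin (d k) → ι) → ℂ := fun k => tpow g (d k) (x k)
  -- the consequence of minimality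
  have key : ∀ v ∈ Zt B 𝒞, (∀ k, nsq (tpow v (d k) (y k)) = nsq (y k)) →
      ∃ P ∈ Zt B 𝒞, P.PosDef ∧ P * P = vᴴ * v ∧ ∀ k, tpow P (d k) (y k) = y k := by
    intro v hv hvy
    have hvd := det_Aut hBd hv.1
    have hvu : IsUnit v := (Matrix.isUnit_iff_isUnit_det _).2 (isUnit_iff_ne_zero.2 hvd)
    have hinj : Function.Injective v.mulVec := by
      intro a b hab
      have h1 := congrArg (v⁻¹.mulVec) hab
      simpa [mulVec_mulVec, nonsing_inv_mul _ (isUnit_iff_ne_zero.2 hvd)] using h1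
    have hpd : (vᴴ * v).PosDef := by
      have h1 := (PosDef.one (n := ι) (R := ℂ)).conjTranspose_mul_mul_same hinj
      rwa [Matrix.mul_one] at h1
    obtain ⟨P, hP, hPp, hPP⟩ := Zt_sqrt hB (mul_mem_Zt (star_mem_Zt hB hC hv) hv) hpd
    obtain ⟨Q, hQ, hQp, hQQ⟩ := Zt_sqrt hB hP hPp
    refine ⟨P, hP, hPp, hPP, ?_⟩
    have hPn : ∀ k, nsq (tpow P (d k) (y k)) = nsq (y k) := by
      intro k
      rw [← hvy k]
      have h1 : ((nsq (tpow P (d k) (y k)) : ℝ) : ℂ) = (nsq (tpow v (d k) (y k)) : ℂ) := by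
        rw [← ip_self, ← ip_self, ip_tpow, hPp.isHermitian.eq, ← tpow_mul, hPP, tpow_mul]
        exact (ip_tpow v _ _).symm
      exact_mod_cast h1
    have h2 : ∑ k, nsq (y k) ≤ ∑ k, nsq (tpow Q (d k) (y k)) := by
      have h3 := hmin (Q * g) (mul_mem_Zt hQ hg)
      simp only [len, tpow_mul] at h3
      exact h3
    have h3 := kempf_ness Finset.univ y hQp.isHermitian.eq (by
      rw [hQQ]
      exact Finset.sum_congr rfl fun k _ => hPn k) h2
    rw [hQQ] at h3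
    exact fun k => h3 k (Finset.mem_univ _)
  -- from the family to the system
  have ext : ∀ v ∈ Aut B, (∀ k, tpow v (d k) (y k) = y k) →
      ∀ n, ∀ t ∈ T.S n, tpow v n (tpow g n t) = tpow g n t := by
    intro v hv hvy n t ht
    have hw : g⁻¹ * v * g ∈ Aut B :=
      mul_mem_Aut (mul_mem_Aut (inv_mem_Aut hBd hg.1) hv) hg.1
    have h1 : tpow (g⁻¹ * v * g) n t = t := by
      rw [hT] at ht
      refine fix_genS hBd hw (fun m hm s hs => ?_) ht
      refine (mem_fixSys hBd hw).1 (hxspan m hm (fixSys hBd hw) (fun k => ?_) hs)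
      rw [mem_fixSys, tpow_mul, tpow_mul]
      change tpow g⁻¹ _ (tpow v (d k) (y k)) = _
      rw [hvy k, tpow_inv_tpow hgd]
    rw [tpow_mul, tpow_mul] at h1
    have h2 := congrArg (tpow g n) h1
    rwa [tpow_tpow_inv hgd] at h2
  obtain ⟨P, hP, hPp, hPP, hPy⟩ := key u huZ fun k => by
    change nsq (tpow u (d k) (tpow g (d k) (x k))) = nsq (tpow g (d k) (x k))
    rw [hur _ _ (hxR k) (hxT k), nsq_J0 hB]
  have hPT := ext P hP.1 hPy
  have hPd := det_Aut hBd hP.1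
  have hPu := isUnit_iff_ne_zero.2 hPd
  have hPh : Pᴴ = P := hPp.isHermitian.eq
  have hPih : (P⁻¹)ᴴ = P⁻¹ := by rw [conjTranspose_nonsing_inv, hPh]
  have hkr : ∀ n r, R.R n r → r ∈ T.S n →
      tpow (u * P⁻¹) n (tpow g n r) = J0 B n (tpow g n r) := by
    intro n r hr hrT
    have h1 : tpow P⁻¹ n (tpow g n r) = tpow g n r := by
      conv_lhs => rw [← hPT n r hrT]
      rw [tpow_inv_tpow hPd]
    rw [tpow_mul, h1, hur n r hr hrT]
  refine ⟨g, hg, u * P⁻¹, mul_mem_Zt huZ (inv_mem_Zt hBd hP), ?_, hkr, ?_⟩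
  · rw [conjTranspose_mul, hPih]
    calc P⁻¹ * uᴴ * (u * P⁻¹) = P⁻¹ * (uᴴ * u) * P⁻¹ := by simp only [Matrix.mul_assoc]
      _ = (P⁻¹ * P) * (P * P⁻¹) := by rw [← hPP]; simp only [Matrix.mul_assoc]
      _ = 1 := by rw [nonsing_inv_mul _ hPu, mul_nonsing_inv _ hPu, Matrix.mul_one]
  · intro n t ht
    have hom : (om B : (Fin 2 → ι) → ℂ) ∈ T.S 2 := by
      rw [hT]
      exact (R.span.genS M).om
    have homd : (mat2 (om B)).det ≠ 0 := by
      rw [mat2_om]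
      exact (Matrix.isUnit_nonsing_inv_det _ (isUnit_iff_ne_zero.2 hBd)).ne_zero
    refine T.mem_of_fixed hom homd fun m hm => ?_
    have hmA : m ∈ Aut B := (Aut_om hBd).2 (hm 2 _ hom)
    have hmZ : m ∈ Zt B 𝒞 := ⟨hmA, fun c hc => (fix_omc hBd hmA c).2 (hm 2 _ (hCT c hc))⟩
    set m' := g * m * g⁻¹ with hm'
    have hm'Z : m' ∈ Zt B 𝒞 := mul_mem_Zt (mul_mem_Zt hg hmZ) (inv_mem_Zt hBd hg)
    have hm'A : m' ∈ Aut B := hm'Z.1
    have hm'T : ∀ n, ∀ t ∈ T.S n, tpow m' n (tpow g n t) = tpow g n t := by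
      intro n t ht
      rw [hm', tpow_mul, tpow_inv_tpow hgd, tpow_mul, hm n t ht]
    obtain ⟨P', hP'A, -, hPP', hP'y⟩ := key m' hm'Z fun k => by
      change nsq (tpow m' (d k) (tpow g (d k) (x k))) = nsq (tpow g (d k) (x k))
      rw [hm'T _ _ (hxT k)]
    have hsy : ∀ k, tpow m'ᴴ (d k) (y k) = y k := by
      intro k
      have h1 : tpow (m'ᴴ * m') (d k) (y k) = y k := by
        rw [← hPP', tpow_mul, hP'y, hP'y]
      rw [tpow_mul] at h1
      have h2 : tpow m' (d k) (y k) = y k := hm'T _ _ (hxT k)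
      rwa [h2] at h1
    have hsT := ext m'ᴴ (Aut_star hB hm'A) hsy
    -- the conjugate matrix fixes the images of the rational tensors
    have hfix : ∀ t ∈ T.S n, tpow m' n (tpow (u * P⁻¹) n (tpow g n t)) =
        tpow (u * P⁻¹) n (tpow g n t) := by
      intro t ht
      have hTS : T.S n = Submodule.span ℂ {t | (R.inter (R.span.genS M)).R n t} := by
        rw [hT, R.genS_span M n]
        rfl
      rw [hTS] at ht
      induction ht using Submodule.span_induction with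
      | mem r hr =>
        have hrT : r ∈ T.S n := by
          rw [hT]
          exact hr.2
        rw [hkr n r hr.1 hrT]
        have h1 := J0_tpow (n := n) (Aut_star hB hm'A) (tpow g n r)
        rw [conjTranspose_conjTranspose, hsT n r hrT] at h1
        exact h1
      | zero => simp only [map_zero]
      | add a b _ _ ha hb => simp only [map_add, ha, hb]
      | smul c a _ ha => simp only [map_smul, ha]
    have h1 := hfix t ht
    rw [hm', tpow_mul, tpow_mul] at h1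
    have h2 := congrArg (tpow g⁻¹ n) h1
    rwa [tpow_inv_tpow hgd] at h2

end Pool.Agent.H844.Car
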