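import Pool.Graph.R_pool_sql_team_seeded_3997aac3.Q55.ZeroOneDefs

/-!
# Real algebraic classes and Cartan involutions on the powers of a variety
-/

open CategoryTheory AlgebraicGeometry

universe u v

namespace Pool.Agent.H844.Car

open Pool.Agent.H914 Pool.Agent.H914.VarClass Pool.Agent.H914.VarClass.Obj
  Pool.Agent.H914.WeilCohomology Pool.Agent.Y133.Half Pool.Agent.Q55

variable {k : Type u} [Field k] {𝒱 : VarClass k} {ops : CycleOps 𝒱}

/-- The *real algebraic classes* of codimension `j` on `Y`: the linear combinations of the classes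
of the algebraic cycles of codimension `j` with real coefficients, where the complex numbers are
identified with the coefficient field of the cohomology by means of `σ`. -/
def RealAlg (W : WeilCohomology.{u, v} ops) (σ : ℂ ≃+* W.K) (Y : 𝒱.Obj) (j : ℕ) :
    AddSubgroup (W.H Y) :=
  AddSubgroup.closure {x | ∃ (c : ℝ) (z : Y.Cycles), Y.IsCyc j z ∧ x = σ (c : ℂ) • W.cl Y z}

/-- The real algebraic classes on `Y` on which the endomorphism `t` of `H (Y)` is an involution:
`t` maps real algebraic classes to real algebraic classes, and `t (t x) = x` for them. -/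
def InvolutionOnReal (W : WeilCohomology.{u, v} ops) (σ : ℂ ≃+* W.K) (Y : 𝒱.Obj)
    (t : W.H Y →ₗ[W.K] W.H Y) : Prop :=
  ∀ j, ∀ x ∈ RealAlg W σ Y j, t x ∈ RealAlg W σ Y j ∧ t (t x) = x

/-- The endomorphism `t` of `H (Y)` is the identity on the real algebraic classes. -/
def TrivialOnReal (W : WeilCohomology.{u, v} ops) (σ : ℂ ≃+* W.K) (Y : 𝒱.Obj)
    (t : W.H Y →ₗ[W.K] W.H Y) : Prop :=
  ∀ j, ∀ x ∈ RealAlg W σ Y j, t x = x

/-- The relations of Hodge and Riemann, twisted by the endomorphism `t` of `H (Y)`: for a real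
algebraic class `x ≠ 0` of codimension `j`, `2 j ≤ d = dim Y`, which is primitive for the divisor
`E`, the number `(-1) ^ j tr (t(x) · x · E ^ (d - 2 j))` is real and positive. -/
def TwistedHodgeRiemann (W : WeilCohomology.{u, v} ops) (σ : ℂ ≃+* W.K) (Y : 𝒱.Obj)
    (E : Y.Cycles) (t : W.H Y →ₗ[W.K] W.H Y) : Prop :=
  ∀ j, 2 * j ≤ Y.dim → ∀ x ∈ RealAlg W σ Y j, W.cl Y E ^ (Y.dim - 2 * j + 1) * x = 0 → x ≠ 0 →
    ∃ r : ℝ, 0 < r ∧ (-1) ^ j * W.tr Y (t x * x * W.cl Y E ^ (Y.dim - 2 * j)) = σ (r : ℂ)

/-- The endomorphism `t` of `H (Y)` preserves the degrees of the classes, the multiplication by the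
class of the divisor `E` and the Poincare duality. -/
structure Preserves (W : WeilCohomology.{u, v} ops) (Y : 𝒱.Obj) (E : Y.Cycles)
    (t : W.H Y →ₗ[W.K] W.H Y) : Prop where
  degree : ∀ i, ∀ x ∈ W.gr Y i, t x ∈ W.gr Y i
  lefschetz : ∀ x, t (W.cl Y E * x) = W.cl Y E * t x
  trace : ∀ x y, W.tr Y (t x * t y) = W.tr Y (x * y)

/-- The endomorphism `u` of `H (Y × Z)` is the tensor product of the endomorphisms `s` of `H (Y)`
and `t` of `H (Z)`. -/
def IsTensor (W : WeilCohomology.{u, v} ops) (Y Z : 𝒱.Obj) (s : W.H Y →ₗ[W.K] W.H Y)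
    (t : W.H Z →ₗ[W.K] W.H Z) (u : W.H (Y.prod Z) →ₗ[W.K] W.H (Y.prod Z)) : Prop :=
  ∀ (x : W.H Y) (y : W.H Z), u (W.map (fst Y Z) x * W.map (snd Y Z) y) =
    W.map (fst Y Z) (s x) * W.map (snd Y Z) (t y)

/-- A *Cartan involution* of the real algebraic classes on the powers `X ^ (n + 1)` of `X`
(`pw X n`), which carry the sums of the pull-backs of the divisor `D` (`pwDiv ops D n`). It is a
linear automorphism `t 0` of `H (X)` and its tensor powers `t n` on `H (X ^ (n + 1))`
(`product`), which preserve the degrees of the classes, the multiplication by the class of the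
divisor and the Poincare duality (`preserves`), are involutions on the real algebraic classes
(`involution`), and change the form of the standard conjecture of Hodge type into a positive
definite form (`positive`). -/
structure IsCartan (W : WeilCohomology.{u, v} ops) (σ : ℂ ≃+* W.K) (X : 𝒱.Obj) (D : X.Cycles)
    (t : ∀ n, W.H (pw X n) →ₗ[W.K] W.H (pw X n)) : Prop where
  product : ∀ n, IsTensor W (pw X n) X (t n) (t 0) (t (n + 1))
  preserves : ∀ n, Preserves W (pw X n) (pwDiv ops D n) (t n)
  involution : ∀ n, InvolutionOnReal W σ (pw X n) (t n)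
  positive : ∀ n, TwistedHodgeRiemann W σ (pw X n) (pwDiv ops D n) (t n)

end Pool.Agent.H844.Car
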