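import Pool.Agent.H844.Car.Lev

/-!
# Tensor powers of an operator
-/

open CategoryTheory AlgebraicGeometry

set_option linter.unusedSectionVars false

universe u v

namespace Pool.Agent.H844.Car

open Module Matrix
open Pool.Agent.H914 Pool.Agent.H914.VarClass Pool.Agent.H914.VarClass.Obj
  Pool.Agent.H914.WeilCohomology
open Pool.Agent.Y133.Half Pool.Agent.Q60.ED Pool.Agent.Q60.TD Pool.Agent.H281R3.HT
  Pool.Agent.H447 Pool.Agent.Q55 Pool.Agent.Q55.Hs Pool.Agent.Q60.NP Pool.Agent.Q55.Ke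
open Pool.Agent.W552 (AS AOp RatSub Fr Sy st sg_add)
open Pool.Agent.Q60.HD (wd wd_zero wd_succ wd_map wd_prj wd_append wd_PH wb_PH sum_append' wb_xp)

variable {k : Type u} [Field k] {𝒱 : VarClass k} {ops : CycleOps 𝒱}
  {W : WeilCohomology.{u, 0} ops} {X : 𝒱.Obj} {D : X.Cycles} {ι : Type} [Fintype ι]
  [DecidableEq ι] {e : Basis ι W.K (W.H X)} {a : ι → ℕ} {f : Module.End W.K (W.H X)}

/-- The tensor powers of an operator. -/
noncomputable def tp (τ : Module.End W.K (W.H X)) : ∀ n, Module.End W.K (W.H (pw X n))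
  | 0 => τ
  | n + 1 => extOp W (tp τ n) τ

lemma tp_ext (τ : Module.End W.K (W.H X)) (n : ℕ) (x : W.H (pw X n)) (y : W.H X) :
    tp τ (n + 1) (W.map (fst (pw X n) X) x * W.map (snd (pw X n) X) y) =
      W.map (fst (pw X n) X) (tp τ n x) * W.map (snd (pw X n) X) (τ y) :=
  extOp_tmul (tp τ n) τ x y

lemma tp_wb {τ : Module.End W.K (W.H X)} {κ : Matrix ι ι W.K}
    (hτ : ∀ y, τ (e y) = ∑ x, κ x y • e x) : ∀ (n : ℕ) (w : Fin (n + 1) → ι),
    tp τ n (wb e n w) = ∑ I : Fin (n + 1) → ι, (∏ k, κ (I k) (w k)) • wb e n I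
  | 0, w => by
    rw [wb_zero]
    change τ (e (w 0)) = _
    rw [hτ, ← (Equiv.funUnique (Fin 1) ι).symm.sum_comp]
    refine Finset.sum_congr rfl fun x _ => ?_
    rw [Fin.prod_univ_one, wb_zero]
    rfl
  | n + 1, w => by
    rw [wb_xp]
    refine (tp_ext τ n _ _).trans ?_
    rw [tp_wb hτ n, hτ, map_sum, map_sum, Finset.sum_mul_sum, Finset.sum_comm,
      ← (Fin.snocEquiv fun _ : Fin (n + 2) => ι).sum_comp, Fintype.sum_prod_type]
    refine Finset.sum_congr rfl fun x _ => Finset.sum_congr rfl fun I _ => ?_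
    rw [map_smul, map_smul, smul_mul_smul_comm, wb_xp]
    conv_rhs => rw [Fin.prod_univ_castSucc]
    have h1 : ∀ k : Fin (n + 1), (Fin.snocEquiv fun _ : Fin (n + 2) => ι) (x, I) k.castSucc =
        I k := fun k => Fin.snoc_castSucc (α := fun _ => ι) _ _ _
    have h2 : (Fin.snocEquiv fun _ : Fin (n + 2) => ι) (x, I) (Fin.last (n + 1)) = x :=
      Fin.snoc_last (α := fun _ => ι) _ _
    simp only [h1, h2]
    rfl

lemma tp_clsK {τ : Module.End W.K (W.H X)} {κ : Matrix ι ι W.K}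
    (hτ : ∀ y, τ (e y) = ∑ x, κ x y • e x) (n : ℕ) (t : (Fin (n + 1) → ι) → W.K) :
    tp τ n (clsK e (prj X n) t) = clsK e (prj X n) (tpow κ (n + 1) t) := by
  rw [clsK, map_sum, clsK]
  have h1 : ∀ w : Fin (n + 1) → ι, tp τ n (t w • wd e (prj X n) w) =
      ∑ I : Fin (n + 1) → ι, (t w * ∏ k, κ (I k) (w k)) • wd e (prj X n) I := by
    intro w
    rw [map_smul, wd_prj, tp_wb hτ, Finset.smul_sum]
    refine Finset.sum_congr rfl fun I _ => ?_
    rw [smul_smul, wd_prj]
  rw [Finset.sum_congr rfl fun w _ => h1 w, Finset.sum_comm]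
  refine Finset.sum_congr rfl fun I _ => ?_
  rw [tpow_apply, Finset.sum_smul]
  exact Finset.sum_congr rfl fun w _ => by rw [mul_comm]

lemma tn_tp {τ : Module.End W.K (W.H X)} {κ : Matrix ι ι W.K}
    (hτ : ∀ y, τ (e y) = ∑ x, κ x y • e x) (n : ℕ) (x : W.H (pw X n)) :
    tn e n (tp τ n x) = tpow κ (n + 1) (tn e n x) := by
  apply clsK_inj e n
  rw [clsK_tn, ← tp_clsK hτ, clsK_tn]

/-- **The forms on the powers, and the tensor powers of an operator.** -/
theorem exists_pcT (G : Pz W X D f) (h1 : PosOne W X D f) {τ : Module.End W.K (W.H X)}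
    (hL : τ * LinearMap.mulLeft W.K (W.cl X D) = LinearMap.mulLeft W.K (W.cl X D) * τ)
    (hf : τ * f = f * τ) :
    ∀ n, ∃ g, Pc e D (gramB e D f) n g ∧ tp τ n * g = g * tp τ n ∧
      tp τ n * LinearMap.mulLeft W.K (W.cl (pw X n) (pwDiv ops D n)) =
        LinearMap.mulLeft W.K (W.cl (pw X n) (pwDiv ops D n)) * tp τ n
  | 0 => ⟨f, ⟨G, h1, fun I J => by
      rw [wb_zero, wb_zero, TP_apply, Fin.prod_univ_succ, Fin.prod_univ_zero, mul_one]
      rfl⟩, hf, hL⟩
  | n + 1 => by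
    obtain ⟨g, G', hg, hgL⟩ := exists_pcT G h1 hL hf n
    have key : ∀ (φ : Module.End W.K (W.H (pw X n))) (ψ : Module.End W.K (W.H X)),
        tp τ n * φ = φ * tp τ n → τ * ψ = ψ * τ →
        extOp W (tp τ n) τ * extSum W φ ψ = extSum W φ ψ * extOp W (tp τ n) τ := by
      intro φ ψ hφ hψ
      have e1 : ∀ x, tp τ n (φ x) = φ (tp τ n x) := fun x => congrArg (fun F => F x) hφ
      have e2 : ∀ x, τ (ψ x) = ψ (τ x) := fun x => congrArg (fun F => F x) hψ
      apply ext_kunneth_lin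
      intro x y
      rw [Module.End.mul_apply, Module.End.mul_apply, extSum_tmul, map_add, extOp_tmul,
        extOp_tmul, extOp_tmul, extSum_tmul, e1, e2]
    refine ⟨extSum W g f, ⟨G'.pz.prod G, G'.one.prod G'.pz.fr G.fr h1, fun I J => ?_⟩,
      key g f hg hf, ?_⟩
    · rw [wb_xp, wb_xp]
      refine (G'.pz.fr.bf_ext G.fr _ _ _ _).trans ?_
      rw [G'.co]
      change TP (gramB e D f) (n + 1) _ _ * gramB e D f _ _ = TP (gramB e D f) (n + 1 + 1) I J
      rw [TP_apply, TP_apply]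
      conv_rhs => rw [Fin.prod_univ_castSucc]
    · have h2 : LinearMap.mulLeft W.K (W.cl (pw X (n + 1)) (pwDiv ops D (n + 1))) =
          extSum W (LinearMap.mulLeft W.K (W.cl (pw X n) (pwDiv ops D n)))
            (LinearMap.mulLeft W.K (W.cl X D)) := mulLeft_prod G.fr.hD
      rw [h2]
      exact key _ _ hgL hL

section Comm

variable {t : Module.End W.K (W.H X)}

lemma comm_gr (F : Fr W X D f)
    (hL : t * LinearMap.mulLeft W.K (W.cl X D) = LinearMap.mulLeft W.K (W.cl X D) * t)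
    (hf : t * f = f * t) {i : ℕ} {x : W.H X} (hx : x ∈ W.gr X i) : t x ∈ W.gr X i := by
  have h1 : t * wt (W.isInternal X) X.dim = wt (W.isInternal X) X.dim * t := by
    rw [← F.sl2.ef, mul_sub, sub_mul, ← mul_assoc, hL, mul_assoc, hf, ← mul_assoc, ← mul_assoc t,
      hf, mul_assoc f, hL, ← mul_assoc]
  have h2 : wt (W.isInternal X) X.dim (t x) = ((i : W.K) - X.dim) • t x := by
    have h3 := congrArg (fun F => F x) h1
    simp only [Module.End.mul_apply] at h3
    rw [← h3, wt_apply' _ hx, map_smul]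
  exact (Pool.Agent.W552.mem_gr_of_wt (W.isInternal X) W_hbd h2).1 i rfl

lemma comm_pow {L : Module.End W.K (W.H X)} (hL : t * L = L * t) (j : ℕ) (x : W.H X) :
    t ((L ^ j) x) = (L ^ j) (t x) := by
  have h1 : Commute t L := hL
  exact congrArg (fun F => F x) (h1.pow_right j).eq

lemma comm_wey (G : Pz W X D f)
    (hL : t * LinearMap.mulLeft W.K (W.cl X D) = LinearMap.mulLeft W.K (W.cl X D) * t)
    (hf : t * f = f * t) (x : W.H X) :
    wey (LinearMap.mulLeft W.K (W.cl X D)) f (t x) =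
      t (wey (LinearMap.mulLeft W.K (W.cl X D)) f x) := by
  set L := LinearMap.mulLeft W.K (W.cl X D) with hLd
  refine lef_induction' (n := X.dim) (W.isInternal X) G.ls.hL G.ls.hbd G.ls.hHL
    (p := fun x => wey L f (t x) = t (wey L f x)) ?_ ?_ x
  · intro x y hx hy
    rw [map_add, map_add, map_add, map_add, hx, hy]
  · intro i hi u hu hp j
    by_cases hj : X.dim - i < j
    · rw [L_pow_gt hp hj, map_zero, map_zero, map_zero]
    · push Not at hj
      have h1 : t u ∈ W.gr X i := comm_gr G.fr hL hf hu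
      have h2 : (L ^ (X.dim - i + 1)) (t u) = 0 := by
        rw [← comm_pow hL, hp, map_zero]
      rw [comm_pow hL, G.ls.w_L_pow hi h1 h2 hj, G.ls.w_L_pow hi hu hp hj, map_smul,
        comm_pow hL]

lemma comm_st (G : Pz W X D f)
    (hL : t * LinearMap.mulLeft W.K (W.cl X D) = LinearMap.mulLeft W.K (W.cl X D) * t)
    (hf : t * f = f * t) (x : W.H X) : st W X D f (t x) = t (st W X D f x) := by
  refine gr_induction (W.isInternal X) (p := fun x => st W X D f (t x) = t (st W X D f x))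
    ?_ ?_ x
  · intro i x hx
    rw [Pool.Agent.W552.st_apply hx, Pool.Agent.W552.st_apply (comm_gr G.fr hL hf hx), map_smul]
    congr 1
    exact comm_wey G hL hf x
  · intro x y hx hy
    rw [map_add, map_add, map_add, map_add, hx, hy]

lemma comm_tr (G : Pz W X D f)
    (hL : t * LinearMap.mulLeft W.K (W.cl X D) = LinearMap.mulLeft W.K (W.cl X D) * t)
    (hf : t * f = f * t)
    (hbf : ∀ x y, Pool.Agent.W552.bf W X D f (t x) (t y) = Pool.Agent.W552.bf W X D f x y)
    (x y : W.H X) : W.tr X (t x * t y) = W.tr X (x * y) := by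
  have h1 := hbf x (st W X D f y)
  rw [Pool.Agent.W552.bf_apply, Pool.Agent.W552.bf_apply, comm_st G hL hf, G.st_st] at h1
  exact h1

end Comm

/-- The form on a primitive class. -/
lemma bf_prim (G : Pz W X D f) {j : ℕ} (hj : 2 * j ≤ X.dim) {x : W.H X}
    (hx : x ∈ W.gr X (2 * j))
    (hp : (LinearMap.mulLeft W.K (W.cl X D) ^ (X.dim - 2 * j + 1)) x = 0) (y : W.H X) :
    Pool.Agent.W552.bf W X D f y x = ((-1) ^ j * ((X.dim - 2 * j).factorial : W.K)⁻¹) *
      W.tr X (y * (LinearMap.mulLeft W.K (W.cl X D) ^ (X.dim - 2 * j)) x) := by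
  have h1 := G.ls.w_L_pow hj hx hp (j := 0) (Nat.zero_le _)
  rw [pow_zero, Module.End.one_apply, pow_zero, Nat.factorial_zero, Nat.cast_one, one_mul,
    one_mul, Nat.sub_zero] at h1
  rw [Pool.Agent.W552.bf_apply, Pool.Agent.W552.st_apply hx]
  have h2 : Pool.Agent.W552.sg (2 * j) = (-1) ^ j := Pool.Agent.W552.sg_two_mul j
  have h3 : wop W X D f x =
      ((X.dim - 2 * j).factorial : W.K)⁻¹ •
        (LinearMap.mulLeft W.K (W.cl X D) ^ (X.dim - 2 * j)) x := h1
  rw [h3, h2, smul_smul, mul_smul_comm, map_smul, smul_eq_mul]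
  push_cast
  ring

end Pool.Agent.H844.Car
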