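import Pool.Agent.H844.Car.Defs
import Pool.Agent.H844.Car.Top

/-!
# Cartan involutions and the standard conjecture of Hodge type
-/

open CategoryTheory AlgebraicGeometry

set_option linter.unusedSectionVars false

universe u v

namespace Pool.Agent.H844.Car

open Module Matrix
open Pool.Agent.H914 Pool.Agent.H914.VarClass Pool.Agent.H914.VarClass.Obj
  Pool.Agent.H914.WeilCohomology
open Pool.Agent.Y133.Half Pool.Agent.Q60.ED Pool.Agent.Q60.TD Pool.Agent.H281R3.HT
  Pool.Agent.H447 Pool.Agent.Q55 Pool.Agent.Q55.Hs Pool.Agent.Q60.NP Pool.Agent.Q55.Ke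
open Pool.Agent.W552 (AS AOp RatSub Fr Sy st sg_add)

section Abs

variable {K : Type} [Field K] [CharZero K] {V : Type*} [AddCommGroup V] [Module K V]
  [Module.Finite K V] {σ : ℂ ≃+* K}

/-- A positive definite rational form is positive definite on the real combinations. -/
theorem real_nonneg {M : V → Prop} (hM : RatSub K M) (β : V →ₗ[K] V →ₗ[K] K)
    (hrat : ∀ x y, M x → M y → ∃ q : ℚ, β x y = q) (hsymm : ∀ x y, M x → M y → β x y = β y x)
    (hpos : ∀ x, M x → x ≠ 0 → ∃ q : ℚ, 0 < q ∧ β x x = q) {x : V}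
    (hx : x ∈ RSK σ {v | M v}) : ∃ s : ℝ, 0 ≤ s ∧ β x x = σ (s : ℂ) := by
  classical
  obtain ⟨N, e, w, he1, he2, he3, he4⟩ :=
    Pool.Agent.W552.exists_ratBasis hM β hrat hsymm hpos
  have hcomb : ∃ c : Fin N → ℝ, x = ∑ l, σ (c l : ℂ) • e l := by
    refine RSK.ind (p := fun x => ∃ c : Fin N → ℝ, x = ∑ l, σ (c l : ℂ) • e l) ?_ ?_ ?_ hx
    · exact ⟨0, by simp⟩
    · rintro _ _ ⟨c, rfl⟩ ⟨d, rfl⟩
      refine ⟨c + d, ?_⟩
      rw [← Finset.sum_add_distrib]
      refine Finset.sum_congr rfl fun l _ => ?_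
      rw [Pi.add_apply, Complex.ofReal_add, map_add, add_smul]
    · intro c r hr
      obtain ⟨q, hq⟩ := he4 r (Submodule.subset_span hr) fun l => hrat r _ hr (he1 l)
      refine ⟨fun l => c * q l, ?_⟩
      rw [hq, Finset.smul_sum]
      refine Finset.sum_congr rfl fun l _ => ?_
      rw [smul_smul, Complex.ofReal_mul, map_mul]
      congr 2
      rw [Complex.ofReal_ratCast, map_ratCast]
  obtain ⟨c, rfl⟩ := hcomb
  refine ⟨∑ l, c l * c l * (w l : ℝ), Finset.sum_nonneg fun l _ =>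
    mul_nonneg (mul_self_nonneg _) (by exact_mod_cast (he2 l).le), ?_⟩
  rw [map_sum β, LinearMap.sum_apply, Complex.ofReal_sum, map_sum σ]
  refine Finset.sum_congr rfl fun l _ => ?_
  rw [map_smul, LinearMap.smul_apply, map_sum, Finset.sum_eq_single l]
  · rw [map_smul, he3, if_pos rfl, smul_eq_mul, smul_eq_mul, Complex.ofReal_mul,
      Complex.ofReal_mul, map_mul, map_mul, Complex.ofReal_ratCast, map_ratCast]
    ring
  · intro j _ hj
    rw [map_smul, he3, if_neg (Ne.symm hj), smul_zero]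
  · intro h; exact absurd (Finset.mem_univ _) h

end Abs

variable {k : Type u} [Field k] {𝒱 : VarClass k} {ops : CycleOps 𝒱}
  {W : WeilCohomology.{u, 0} ops} {X : 𝒱.Obj} {D : X.Cycles} {f : Module.End W.K (W.H X)}
  {σ : ℂ ≃+* W.K}

lemma RealAlg.ind {Y : 𝒱.Obj} {j : ℕ} {p : W.H Y → Prop} (h0 : p 0)
    (hadd : ∀ x y, p x → p y → p (x + y))
    (hr : ∀ (c : ℝ) (z : Y.Cycles), Y.IsCyc j z → p (σ (c : ℂ) • W.cl Y z)) {x : W.H Y}
    (hx : x ∈ RealAlg W σ Y j) : p x := by
  induction hx using AddSubgroup.closure_induction'' with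
  | mem x hx =>
    obtain ⟨c, z, hz, rfl⟩ := hx
    exact hr c z hz
  | neg_mem x hx =>
    obtain ⟨c, z, hz, rfl⟩ := hx
    have h1 := hr (-c) z hz
    rwa [Complex.ofReal_neg, map_neg, neg_smul] at h1
  | zero => exact h0
  | add x y _ _ hx hy => exact hadd x y hx hy

lemma RealAlg.gr {Y : 𝒱.Obj} {j : ℕ} {x : W.H Y} (hx : x ∈ RealAlg W σ Y j) :
    x ∈ W.gr Y (2 * j) :=
  RealAlg.ind (p := fun x => x ∈ W.gr Y (2 * j)) (Submodule.zero_mem _)
    (fun _ _ hx hy => Submodule.add_mem _ hx hy)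
    (fun _ _ hz => Submodule.smul_mem _ _ (W.cl_mem hz)) hx

lemma RealAlg.of {Y : 𝒱.Obj} {j : ℕ} {z : Y.Cycles} (hz : Y.IsCyc j z) :
    W.cl Y z ∈ RealAlg W σ Y j :=
  AddSubgroup.subset_closure ⟨1, z, hz, by rw [Complex.ofReal_one, map_one, one_smul]⟩

lemma RealAlg.rsk {Y : 𝒱.Obj} {j : ℕ} {x : W.H Y} (hx : x ∈ RealAlg W σ Y j) :
    x ∈ RSK σ {v | AS W Y v} :=
  RealAlg.ind (p := fun x => x ∈ RSK σ {v | AS W Y v}) (AddSubgroup.zero_mem _)
    (fun _ _ hx hy => AddSubgroup.add_mem _ hx hy)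
    (fun c z hz => RSK.smul c (RSK.of (AS.of ⟨z, hz, rfl⟩))) hx

/-- The powers of the divisor act on the real algebraic classes. -/
lemma RealAlg.pow (hD : X.IsCyc 1 D) {j : ℕ} (i : ℕ) {x : W.H X}
    (hx : x ∈ RealAlg W σ X j) :
    (LinearMap.mulLeft W.K (W.cl X D) ^ i) x ∈ RealAlg W σ X (j + i) := by
  refine RealAlg.ind (p := fun x => (LinearMap.mulLeft W.K (W.cl X D) ^ i) x ∈
    RealAlg W σ X (j + i)) ?_ ?_ ?_ hx
  · rw [map_zero]; exact AddSubgroup.zero_mem _
  · intro x y hx hy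
    rw [map_add]
    exact AddSubgroup.add_mem _ hx hy
  · intro c z hz
    rw [map_smul, ← cl_divPow]
    exact AddSubgroup.subset_closure ⟨c, _, divPow_mem (ops := ops) hD i hz, rfl⟩

/-- The theorem of Lefschetz type for the real algebraic classes. -/
lemma RealAlg.lefschetz (F : Fr W X D f) {j : ℕ} (hj : 2 * j ≤ X.dim) {x : W.H X}
    (hx : x ∈ RealAlg W σ X (X.dim - j)) :
    ∃ y ∈ RealAlg W σ X j, (LinearMap.mulLeft W.K (W.cl X D) ^ (X.dim - 2 * j)) y = x := by
  refine RealAlg.ind (p := fun x => ∃ y ∈ RealAlg W σ X j,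
    (LinearMap.mulLeft W.K (W.cl X D) ^ (X.dim - 2 * j)) y = x) ?_ ?_ ?_ hx
  · exact ⟨0, AddSubgroup.zero_mem _, map_zero _⟩
  · rintro _ _ ⟨y, hy, rfl⟩ ⟨y', hy', rfl⟩
    exact ⟨y + y', AddSubgroup.add_mem _ hy hy', map_add _ _ _⟩
  · intro c z hz
    obtain ⟨y, hy, hyz⟩ := F.lefschetzA j hj z hz
    rw [cl_divPow] at hyz
    refine ⟨σ (c : ℂ) • W.cl X y, AddSubgroup.subset_closure ⟨c, y, hy, rfl⟩, ?_⟩
    rw [map_smul, hyz]

/-- **An involution which makes the form positive is trivial if and only if the standard conjecture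
of Hodge type holds.** -/
theorem hodge_iff (G : Pz W X D f) {t : W.H X →ₗ[W.K] W.H X}
    (hL : ∀ x, t (W.cl X D * x) = W.cl X D * t x)
    (hinv : InvolutionOnReal W σ X t) (hpos : TwistedHodgeRiemann W σ X D t) :
    HodgeType W X D ↔ TrivialOnReal W σ X t := by
  have hreal : ∀ j, ∀ x ∈ RealAlg W σ X j, t x ∈ RealAlg W σ X j := fun j x hx => (hinv j x hx).1
  have hsq : ∀ j, ∀ x ∈ RealAlg W σ X j, t (t x) = x := fun j x hx => (hinv j x hx).2
  have F := G.fr
  have hpow : ∀ (i : ℕ) (x : W.H X),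
      t ((LinearMap.mulLeft W.K (W.cl X D) ^ i) x) =
        (LinearMap.mulLeft W.K (W.cl X D) ^ i) (t x) := by
    intro i
    induction i with
    | zero => intro x; rfl
    | succ i ih =>
      intro x
      rw [pow_succ', Module.End.mul_apply, Module.End.mul_apply, LinearMap.mulLeft_apply, hL, ih]
      rfl
  have hmul : ∀ (i : ℕ) (x : W.H X), (LinearMap.mulLeft W.K (W.cl X D) ^ i) x =
      W.cl X D ^ i * x := by
    intro i x
    rw [LinearMap.pow_mulLeft, LinearMap.mulLeft_apply]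
  constructor
  · intro hH
    have hnn : ∀ {j x}, x ∈ RealAlg W σ X j → ∃ s : ℝ, 0 ≤ s ∧
        Pool.Agent.W552.bf W X D f x x = σ (s : ℂ) := fun hx =>
      real_nonneg AS.ratSub _ (fun x y hx hy => F.bf_rat hx hy)
        (fun x y _ hy => bf_symm_AS G.sy hy) (fun x hx hx0 => F.bf_pos hH hx hx0) (RealAlg.rsk hx)
    -- primitive classes
    have hprim : ∀ j, 2 * j ≤ X.dim → ∀ x ∈ RealAlg W σ X j,
        (LinearMap.mulLeft W.K (W.cl X D) ^ (X.dim - 2 * j + 1)) x = 0 → t x = x := by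
      intro j hj x hx hp
      by_contra hne
      have hy : x - t x ∈ RealAlg W σ X j := AddSubgroup.sub_mem _ hx (hreal j x hx)
      have hy0 : x - t x ≠ 0 := fun h => hne (sub_eq_zero.1 h).symm
      have hty : t (x - t x) = -(x - t x) := by
        rw [map_sub, hsq j x hx, neg_sub]
      have hyp : (LinearMap.mulLeft W.K (W.cl X D) ^ (X.dim - 2 * j + 1)) (x - t x) = 0 := by
        rw [map_sub, ← hpow, hp, map_zero, sub_zero]
      obtain ⟨r, hr, hr'⟩ := hpos j hj _ hy (by rw [← hmul]; exact hyp) hy0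
      obtain ⟨s, hs, hs'⟩ := hnn hy
      have hyg := RealAlg.gr hy
      rw [bf_prim G hj hyg hyp, hmul, ← W.even_comm hyg, ← mul_assoc] at hs'
      rw [hty, neg_mul, neg_mul, map_neg] at hr'
      have h2 : (((X.dim - 2 * j).factorial : ℕ) : W.K) ≠ 0 := by
        exact_mod_cast Nat.factorial_ne_zero _
      have h3 : σ (r : ℂ) = σ (((-((X.dim - 2 * j).factorial * s) : ℝ)) : ℂ) := by
        rw [← hr', Complex.ofReal_neg, Complex.ofReal_mul, map_neg σ, map_mul σ, ← hs',
          Complex.ofReal_natCast, map_natCast σ]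
        field_simp
      have h4 : (r : ℂ) = ((-((X.dim - 2 * j).factorial * s) : ℝ) : ℂ) := σ.injective h3
      have h5 : r = -((X.dim - 2 * j).factorial * s) := by exact_mod_cast h4
      have h6 : 0 ≤ ((X.dim - 2 * j).factorial : ℝ) * s :=
        mul_nonneg (Nat.cast_nonneg _) hs
      linarith
    -- classes below the middle degree
    have hlow : ∀ j, 2 * j ≤ X.dim → ∀ x ∈ RealAlg W σ X j, t x = x := by
      intro j
      induction j with
      | zero =>
        intro hj x hx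
        refine hprim 0 hj x hx ?_
        have h1 := RealAlg.gr (RealAlg.pow F.hD (X.dim - 2 * 0 + 1) hx)
        rw [W.gr_eq_bot X _ (by omega)] at h1
        exact (Submodule.mem_bot _).1 h1
      | succ j ih =>
        intro hj x hx
        have h1 := RealAlg.pow F.hD (X.dim - 2 * (j + 1) + 1) hx
        rw [show j + 1 + (X.dim - 2 * (j + 1) + 1) = X.dim - j by omega] at h1
        obtain ⟨y, hy, hy'⟩ := RealAlg.lefschetz F (j := j) (by omega) h1
        have h2 := RealAlg.pow F.hD 1 hy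
        have h3 := hprim (j + 1) hj
          (x - (LinearMap.mulLeft W.K (W.cl X D) ^ 1) y) (AddSubgroup.sub_mem _ hx h2) (by
            rw [map_sub, ← hy', ← Module.End.mul_apply, ← pow_add,
              show X.dim - 2 * (j + 1) + 1 + 1 = X.dim - 2 * j by omega, sub_self])
        rw [map_sub, hpow, ih (by omega) y hy] at h3
        exact sub_left_injective h3
    intro j x hx
    rcases Nat.lt_or_ge X.dim j with hj | hj
    · have h1 := RealAlg.gr hx
      rw [W.gr_eq_bot X _ (by omega)] at h1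
      rw [(Submodule.mem_bot _).1 h1, map_zero]
    · by_cases hj2 : 2 * j ≤ X.dim
      · exact hlow j hj2 x hx
      · obtain ⟨i, rfl⟩ : ∃ i, j = X.dim - i := ⟨X.dim - j, by omega⟩
        have hi : 2 * i ≤ X.dim ∨ X.dim < i := by omega
        rcases hi with hi | hi
        · obtain ⟨y, hy, rfl⟩ := RealAlg.lefschetz F hi hx
          rw [hpow, hlow i hi y hy]
        · exfalso
          omega
  · intro hall j hj z hz hprim hz0
    have hza : W.cl X z ∈ RealAlg W σ X j := RealAlg.of hz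
    obtain ⟨r, hr, hr'⟩ := hpos j hj _ hza (by rw [← hmul, ← cl_divPow]; exact hprim) hz0
    have hzg := RealAlg.gr hza
    have h1 : W.tr X (W.cl X z * W.cl X z * W.cl X D ^ (X.dim - 2 * j)) =
        ((X.V.degCycle (ops.mul z (divPow ops D (X.dim - 2 * j) z)) : ℚ) : W.K) := by
      have hc := ops.mul_mem hz (divPow_mem (ops := ops) F.hD (X.dim - 2 * j) hz)
      rw [show j + (j + (X.dim - 2 * j)) = X.dim by omega] at hc
      rw [← W.tr_cl hc, W.cl_mul, cl_divPow, hmul, mul_assoc,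
        W.even_comm hzg (W.cl X D ^ (X.dim - 2 * j))]
    rw [hall j _ hza, h1] at hr'
    set s : ℚ := X.V.degCycle (ops.mul z (divPow ops D (X.dim - 2 * j) z)) with hs
    have h2 : σ (r : ℂ) = σ ((((-1) ^ j * s : ℚ)) : ℂ) := by
      rw [← hr', map_ratCast]
      push_cast
      rfl
    have h3 : (r : ℂ) = (((-1) ^ j * s : ℚ) : ℂ) := σ.injective h2
    have h4 : r = (((-1) ^ j * s : ℚ) : ℝ) := by exact_mod_cast h3
    have h5 : (0 : ℝ) < (((-1) ^ j * s : ℚ) : ℝ) := by rw [← h4]; exact hr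
    exact_mod_cast h5

end Pool.Agent.H844.Car
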