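import Pool.Agent.H844.Car.Ctr

/-!
# The Cartan involution of a rational system of tensors
-/

set_option linter.unusedSectionVars false

open scoped ComplexOrder

namespace Pool.Agent.H844.Car

open Module Matrix Pool.Agent.Q60.ED Pool.Agent.Q60.NP Pool.Agent.Q55.Ke
open Pool.Agent.W552 (RatSub)

section Real

variable {V : Type*} [AddCommGroup V] [Module ℂ V]

/-- The linear combinations with real coefficients. -/
def RSp (S : Set V) : AddSubgroup V :=
  AddSubgroup.closure {x | ∃ c : ℝ, ∃ r ∈ S, x = (c : ℂ) • r}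

variable {S : Set V}

lemma RSp.of {r : V} (hr : r ∈ S) : r ∈ RSp S :=
  AddSubgroup.subset_closure ⟨1, r, hr, by rw [Complex.ofReal_one, one_smul]⟩

lemma RSp.ind {p : V → Prop} (h0 : p 0) (hadd : ∀ x y, p x → p y → p (x + y))
    (hr : ∀ (c : ℝ), ∀ r ∈ S, p ((c : ℂ) • r)) {x : V} (hx : x ∈ RSp S) : p x := by
  induction hx using AddSubgroup.closure_induction'' with
  | mem x hx =>
    obtain ⟨c, r, hrS, rfl⟩ := hx
    exact hr c r hrS
  | neg_mem x hx =>
    obtain ⟨c, r, hrS, rfl⟩ := hx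
    have h1 := hr (-c) r hrS
    rwa [Complex.ofReal_neg, neg_smul] at h1
  | zero => exact h0
  | add x y _ _ hx hy => exact hadd x y hx hy

lemma RSp.smul (c : ℝ) {x : V} (hx : x ∈ RSp S) : (c : ℂ) • x ∈ RSp S := by
  refine RSp.ind (p := fun x => (c : ℂ) • x ∈ RSp S) ?_ ?_ ?_ hx
  · rw [smul_zero]; exact AddSubgroup.zero_mem _
  · intro x y hx hy
    rw [smul_add]
    exact AddSubgroup.add_mem _ hx hy
  · intro d r hr
    rw [smul_smul]
    exact AddSubgroup.subset_closure ⟨c * d, r, hr, by rw [Complex.ofReal_mul]⟩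

lemma RSp.span {x : V} (hx : x ∈ RSp S) : x ∈ Submodule.span ℂ S := by
  refine RSp.ind (p := fun x => x ∈ Submodule.span ℂ S) (Submodule.zero_mem _)
    (fun x y hx hy => Submodule.add_mem _ hx hy)
    (fun c r hr => Submodule.smul_mem _ _ (Submodule.subset_span hr)) hx

/-- Vectors of the complex span with real pairings are real. -/
theorem real_of_pair (b : V →ₗ[ℂ] V →ₗ[ℂ] ℂ)
    (hreal : ∀ r ∈ S, ∀ r' ∈ S, starRingEnd ℂ (b r r') = b r r')
    (hnd : ∀ v ∈ Submodule.span ℂ S, (∀ w ∈ S, b w v = 0) → v = 0)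
    {v : V} (hv : v ∈ Submodule.span ℂ S) (h : ∀ s ∈ S, starRingEnd ℂ (b s v) = b s v) :
    v ∈ RSp S := by
  have key : ∀ v ∈ Submodule.span ℂ S, ∃ v' ∈ Submodule.span ℂ S,
      (∀ s ∈ S, b s v' = starRingEnd ℂ (b s v)) ∧ v + v' ∈ RSp S ∧
        Complex.I • (v - v') ∈ RSp S := by
    intro v hv
    induction hv using Submodule.span_induction with
    | mem r hr =>
      refine ⟨r, Submodule.subset_span hr, fun s hs => (hreal s hs r hr).symm,
        AddSubgroup.add_mem _ (RSp.of hr) (RSp.of hr), ?_⟩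
      rw [sub_self, smul_zero]
      exact AddSubgroup.zero_mem _
    | zero =>
      refine ⟨0, Submodule.zero_mem _, fun s _ => by rw [map_zero, map_zero], ?_, ?_⟩
      · rw [add_zero]; exact AddSubgroup.zero_mem _
      · rw [sub_self, smul_zero]; exact AddSubgroup.zero_mem _
    | add x y _ _ hx hy =>
      obtain ⟨x', hx1, hx2, hx3, hx4⟩ := hx
      obtain ⟨y', hy1, hy2, hy3, hy4⟩ := hy
      refine ⟨x' + y', Submodule.add_mem _ hx1 hy1, fun s hs => ?_, ?_, ?_⟩
      · rw [map_add, map_add, map_add, hx2 s hs, hy2 s hs]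
      · rw [show x + y + (x' + y') = (x + x') + (y + y') by abel]
        exact AddSubgroup.add_mem _ hx3 hy3
      · rw [show x + y - (x' + y') = (x - x') + (y - y') by abel, smul_add]
        exact AddSubgroup.add_mem _ hx4 hy4
    | smul c x _ hx =>
      obtain ⟨x', hx1, hx2, hx3, hx4⟩ := hx
      refine ⟨starRingEnd ℂ c • x', Submodule.smul_mem _ _ hx1, fun s hs => ?_, ?_, ?_⟩
      · rw [map_smul, map_smul, smul_eq_mul, smul_eq_mul, map_mul, hx2 s hs]
      · have h1 : c • x + starRingEnd ℂ c • x' = ((c.re : ℝ) : ℂ) • (x + x') +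
            ((c.im : ℝ) : ℂ) • (Complex.I • (x - x')) := by
          have h2 : c = (c.re : ℂ) + (c.im : ℂ) * Complex.I := (Complex.re_add_im c).symm
          have h3 : starRingEnd ℂ c = (c.re : ℂ) - (c.im : ℂ) * Complex.I := by
            apply Complex.ext <;> simp
          rw [h3]
          conv_lhs => rw [h2]
          simp only [Complex.add_re, Complex.add_im, Complex.mul_re, Complex.mul_im,
            Complex.ofReal_re, Complex.ofReal_im, Complex.I_re, Complex.I_im]
          module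
        rw [h1]
        exact AddSubgroup.add_mem _ (RSp.smul _ hx3) (RSp.smul _ hx4)
      · have h1 : Complex.I • (c • x - starRingEnd ℂ c • x') =
            ((c.re : ℝ) : ℂ) • (Complex.I • (x - x')) + (((-c.im : ℝ)) : ℂ) • (x + x') := by
          have h2 : c = (c.re : ℂ) + (c.im : ℂ) * Complex.I := (Complex.re_add_im c).symm
          have h3 : starRingEnd ℂ c = (c.re : ℂ) - (c.im : ℂ) * Complex.I := by
            apply Complex.ext <;> simp
          have h4 : Complex.I * c = (c.re : ℂ) * Complex.I - c.im := by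
            conv_lhs => rw [h2]
            linear_combination (c.im : ℂ) * Complex.I_mul_I
          have h5 : Complex.I * starRingEnd ℂ c = (c.re : ℂ) * Complex.I + c.im := by
            rw [h3]
            linear_combination (-(c.im : ℂ)) * Complex.I_mul_I
          rw [smul_sub, smul_smul, smul_smul, h4, h5, Complex.ofReal_neg]
          module
        rw [h1]
        exact AddSubgroup.add_mem _ (RSp.smul _ hx4) (RSp.smul _ hx3)
  obtain ⟨v', hv1, hv2, hv3, -⟩ := key v hv
  have h1 : v' - v = 0 := by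
    refine hnd _ (Submodule.sub_mem _ hv1 hv) fun w hw => ?_
    rw [map_sub, hv2 w hw, h w hw, sub_self]
  have h2 : v' = v := sub_eq_zero.1 h1
  rw [h2] at hv3
  have h3 := RSp.smul (1 / 2) hv3
  have h4 : (((1 / 2 : ℝ)) : ℂ) • (v + v) = v := by
    rw [← two_smul ℂ v, smul_smul]
    push_cast
    rw [one_div, inv_mul_cancel₀ two_ne_zero, one_smul]
  rwa [h4] at h3

end Real

variable {ι : Type} [Fintype ι] [DecidableEq ι] {B : Matrix ι ι ℂ} {𝒞 : Set (Matrix ι ι ℂ)}

lemma bf_symm_span (R : RS B) {n : ℕ} {v w : (Fin n → ι) → ℂ} (hv : v ∈ R.span.S n)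
    (hw : w ∈ R.span.S n) : bf (TP B n) v w = bf (TP B n) w v := by
  rw [RS.span_S] at hv hw
  induction hv using Submodule.span_induction with
  | mem r hr =>
    induction hw using Submodule.span_induction with
    | mem r' hr' => exact R.symm hr hr'
    | zero => rw [bf_zero_right, bf_zero_left]
    | add x y _ _ hx hy => rw [bf_add_right, bf_add_left, hx, hy]
    | smul c x _ hx => rw [bf_smul_right, bf_smul_left, hx]
  | zero => rw [bf_zero_right, bf_zero_left]
  | add x y _ _ hx hy => rw [bf_add_right, bf_add_left, hx, hy]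
  | smul c x _ hx => rw [bf_smul_right, bf_smul_left, hx]

/-- **The involution, in a basis in which the form is unitary.** -/
theorem exists_kappa (hB : Bᴴ * B = 1) (R : RS B) {M : ℕ} {T : TSys ℂ ι}
    (hT : T.S = (R.span.genS M).S) (hTR : T.S = R.span.S)
    (hnd : ∀ n, ∀ v ∈ T.S n, (∀ w ∈ T.S n, bf (TP B n) v w = 0) → v = 0)
    (hC : ∀ c ∈ 𝒞, cᴴ ∈ 𝒞) (hCR : ∀ c ∈ 𝒞, R.R 2 (omc B c))
    (hCJ : ∀ c ∈ 𝒞, J0 B 2 (omc B c) = omc B c) :
    ∃ κ ∈ Zt B 𝒞, (∀ n, ∀ v ∈ R.span.S n, tpow κ n (tpow κ n v) = v) ∧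
      (∀ n, ∀ x ∈ RSp {r | R.R n r}, tpow κ n x ∈ RSp {r | R.R n r}) ∧
      ∀ n, ∀ x ∈ RSp {r | R.R n r}, x ≠ 0 → ∃ q : ℝ, 0 < q ∧
        bf (TP B n) (tpow κ n x) x = q := by
  have hBd := det_of_unitary hB
  have hRT : ∀ {n r}, R.R n r → r ∈ T.S n := by
    intro n r hr
    rw [hTR]
    exact Submodule.subset_span hr
  obtain ⟨g, hg, k, hk, hkk, hkr, hkT⟩ := exists_k0Z hB R hT hnd hC hCR
    (fun c hc => hRT (hCR c hc)) hCJ
  have hgd := det_Aut hBd hg.1
  set κ := g⁻¹ * k * g with hκ
  have hκZ : κ ∈ Zt B 𝒞 := mul_mem_Zt (mul_mem_Zt (inv_mem_Zt hBd hg) hk) hg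
  -- the hermitian form
  have hGκ : ∀ n (v : (Fin n → ι) → ℂ), tpow g n (tpow κ n v) = tpow k n (tpow g n v) := by
    intro n v
    rw [hκ, tpow_mul, tpow_mul, tpow_tpow_inv hgd]
  have hst : ∀ n, ∀ v ∈ R.span.S n, tpow κ n v ∈ R.span.S n := by
    intro n v hv
    have h1 := hkT n v (by rw [hTR]; exact hv)
    rw [hTR] at h1
    rw [hκ, tpow_mul, tpow_mul]
    exact h1
  have h1 : ∀ n r, R.R n r → ∀ w, ip (tpow k n (tpow g n r)) (tpow g n w) =
      bf (TP B n) r w := by
    intro n r hr w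
    rw [hkr n r hr (hRT hr), ip_J0, bf_tpow hg.1]
  have h1' : ∀ n, ∀ x ∈ RSp {r | R.R n r}, ∀ w, ip (tpow k n (tpow g n x)) (tpow g n w) =
      bf (TP B n) x w := by
    intro n x hx w
    refine RSp.ind (p := fun x => ip (tpow k n (tpow g n x)) (tpow g n w) =
      bf (TP B n) x w) ?_ ?_ ?_ hx
    · rw [map_zero, map_zero, ip_zero_left, bf_zero_left]
    · intro x y hx hy
      rw [map_add, map_add, ip_add_left, bf_add_left, hx, hy]
    · intro c r hr
      rw [map_smul, map_smul, ip_smul_left, bf_smul_left, Complex.conj_ofReal, h1 n r hr]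
  have h2 : ∀ n (v w : (Fin n → ι) → ℂ), ip (tpow k n v) (tpow k n w) = ip v w := by
    intro n v w
    rw [ip_tpow, ← tpow_mul, hkk, tpow_one]
  have h3 : ∀ n, ∀ v ∈ R.span.S n, ∀ w ∈ R.span.S n,
      ip (tpow k n (tpow g n v)) (tpow g n w) = ip (tpow g n v) (tpow k n (tpow g n w)) := by
    intro n v hv w hw
    rw [RS.span_S] at hv hw
    induction hv using Submodule.span_induction with
    | mem r hr =>
      induction hw using Submodule.span_induction with
      | mem r' hr' =>
        rw [h1 n r hr, ← conj_ip, h1 n r' hr', R.symm hr' hr, R.bf_real hr hr']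
      | zero => simp only [map_zero, ip_zero_right]
      | add x y _ _ hx hy => simp only [map_add, ip_add_right, hx, hy]
      | smul c x _ hx => simp only [map_smul, ip_smul_right, hx]
    | zero => simp only [map_zero, ip_zero_left]
    | add x y _ _ hx hy => simp only [map_add, ip_add_left, hx, hy]
    | smul c x _ hx => simp only [map_smul, ip_smul_left, hx]
  have h4 : ∀ n, ∀ v ∈ R.span.S n, tpow κ n (tpow κ n v) = v := by
    intro n v hv
    have h5 : tpow κ n (tpow κ n v) - v ∈ R.span.S n :=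
      Submodule.sub_mem _ (hst n _ (hst n v hv)) hv
    set y := tpow κ n (tpow κ n v) - v with hy
    have h60 : ∀ w ∈ R.span.S n, ip (tpow g n (tpow κ n (tpow κ n v) - v)) (tpow g n w) = 0 := by
      intro w hw
      rw [map_sub, ip_sub_left, hGκ, h3 n _ (hst n v hv) w hw, hGκ, h2, sub_self]
    have h6 : ip (tpow g n y) (tpow g n y) = 0 := h60 y h5
    rw [ip_self] at h6
    have h7 : nsq (tpow g n y) = 0 := by exact_mod_cast h6
    have h8 := congrArg (tpow g⁻¹ n) (eq_zero_of_nsq h7.le)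
    rw [tpow_inv_tpow hgd, map_zero] at h8
    exact sub_eq_zero.1 h8
  have hsym := fun {n : ℕ} {v w : (Fin n → ι) → ℂ} (hv : v ∈ R.span.S n)
    (hw : w ∈ R.span.S n) => bf_symm_span R hv hw
  have hspan : ∀ {n r}, R.R n r → r ∈ R.span.S n := fun hr => Submodule.subset_span hr
  have h5 : ∀ n r, R.R n r → tpow κ n r ∈ RSp {r | R.R n r} := by
    intro n r hr
    refine real_of_pair (bfB (TP B n)) (fun r hr r' hr' => R.bf_real hr hr') ?_
      (hst n r (hspan hr)) ?_
    · intro v hv h
      have hv' : v ∈ R.span.S n := hv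
      refine hnd n v (by rw [hTR]; exact hv') fun w hw => ?_
      rw [hTR] at hw
      rw [hsym hv' hw]
      rw [RS.span_S] at hw
      induction hw using Submodule.span_induction with
      | mem x hx => exact h x hx
      | zero => rw [bf_zero_left]
      | add x y _ _ hx hy => rw [bf_add_left, hx, hy, add_zero]
      | smul c x _ hx => rw [bf_smul_left, hx, mul_zero]
    · intro s hs
      rw [bfB_apply]
      have h6 : ∀ {s r}, R.R n s → bf (TP B n) s (tpow κ n r) =
          ip (tpow g n s) (tpow g n r) := by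
        intro s r hs
        rw [← h1 n s hs, hGκ, h2]
      rw [h6 hs, conj_ip, ← h6 hr, ← bf_tpow hκZ.1, h4 n s (hspan hs),
        hsym (hst n r (hspan hr)) (hspan hs), h6 hs]
  refine ⟨κ, hκZ, h4, ?_, ?_⟩
  · intro n x hx
    refine RSp.ind (p := fun x => tpow κ n x ∈ RSp {r | R.R n r}) ?_ ?_ ?_ hx
    · rw [map_zero]; exact AddSubgroup.zero_mem _
    · intro x y hx hy
      rw [map_add]
      exact AddSubgroup.add_mem _ hx hy
    · intro c r hr
      rw [map_smul]
      exact RSp.smul c (h5 n r hr)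
  · intro n x hx hx0
    have hxs : x ∈ R.span.S n := RSp.span hx
    have h6 : bf (TP B n) (tpow κ n x) x = ((nsq (tpow g n x) : ℝ) : ℂ) := by
      rw [hsym (hst n x hxs) hxs, ← h1' n x hx, hGκ, h2, ip_self]
    refine ⟨_, ?_, h6⟩
    refine nsq_pos fun h0 => hx0 ?_
    have h7 := congrArg (tpow g⁻¹ n) h0
    rwa [tpow_inv_tpow hgd, map_zero] at h7

end Pool.Agent.H844.Car
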