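import Pool.Graph.R_seed8.W552.Fr

/-!
# Hard Lefschetz from the relations of `sl(2)`, and normalised vectors
-/

set_option linter.unusedSectionVars false

namespace Pool.Agent.H844.Car

open Pool.Agent.H914 Pool.Agent.W552

section HL

variable {K : Type*} [Field K] [CharZero K] {V : Type*} [AddCommGroup V] [Module K V]
  [Module.Finite K V] {gr : ℕ → Submodule K V} {n : ℕ} {L Lam : Module.End K V}

lemma wt_apply' (h : DirectSum.IsInternal gr) {i : ℕ} {a : V} (ha : a ∈ gr i) :
    wt h n a = ((i : K) - n) • a := by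
  rw [wt, scal_apply _ _ ha, node]
  push_cast
  rfl

/-- Hard Lefschetz follows from the relations of `sl(2)`. -/
theorem hardLef_of_sl2 (h : DirectSum.IsInternal gr) (hbd : ∀ i, 2 * n + 1 ≤ i → gr i = ⊥)
    (t : Sl2 (wt h n) L Lam) : HardLef gr n L := by
  intro i hi
  constructor
  · intro a ha h0
    by_contra ha0
    refine Sl2.e_pow_inj t (x := a) (M := n - i) ?_ ha0 le_rfl h0
    rw [wt_apply' h ha]
    congr 1
    rw [Nat.cast_sub hi]
    ring
  · intro b hb
    obtain ⟨z, hz, hz'⟩ := exists_preimage' t (P := fun d x => wt h n x = (d : K) • x)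
      (fun d => by rw [map_zero, smul_zero])
      (fun {d x y} hx hy => by rw [map_add, hx, hy, smul_add])
      (fun q {d x} hx => by rw [map_smul, hx, smul_comm])
      (fun {d x} hx => by
        have h1 := congrArg (fun F => F x) t.he
        simp only [LinearMap.sub_apply, Module.End.mul_apply] at h1
        have h2 : ((2 : Module.End K V) * L) x = (2 : K) • L x := by
          rw [two_mul, LinearMap.add_apply, two_smul]
        rw [Module.End.mul_apply] at h2
        rw [h2, hx, map_smul, sub_eq_iff_eq_add] at h1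
        rw [h1, ← add_smul]
        congr 1
        push_cast
        ring)
      (fun {d x} hx => by
        have h1 := congrArg (fun F => F x) t.hf
        simp only [LinearMap.sub_apply, Module.End.mul_apply, LinearMap.neg_apply] at h1
        have h2 : ((2 : Module.End K V) * Lam) x = (2 : K) • Lam x := by
          rw [two_mul, LinearMap.add_apply, two_smul]
        rw [Module.End.mul_apply] at h2
        rw [h2, hx, map_smul, sub_eq_iff_eq_add] at h1
        rw [h1, ← neg_smul, ← add_smul]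
        congr 1
        push_cast
        ring)
      (fun {d x} hx => hx) (n - i) (y := b) (by
        rw [wt_apply' h hb]
        congr 1
        push_cast [Nat.cast_sub hi, Nat.cast_sub (show i ≤ 2 * n by omega)]
        ring)
    refine ⟨z, (mem_gr_of_wt h hbd hz).1 i ?_, hz'⟩
    push_cast [Nat.cast_sub hi]
    ring

end HL

section Nv

variable {V : Type*} [AddCommGroup V] [Module ℂ V] [Module.Finite ℂ V]
  {gr : ℕ → Submodule ℂ V} {n : ℕ} {L Lam : Module.End ℂ V}

/-- The normalising factors. -/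
noncomputable def sq (m k : ℕ) : ℝ := Real.sqrt (((k + 1) * (m - k) : ℕ))

lemma sq_sq (m k : ℕ) : (sq m k : ℂ) * sq m k = (((k + 1) * (m - k) : ℕ) : ℂ) := by
  rw [← Complex.ofReal_mul, sq, Real.mul_self_sqrt (Nat.cast_nonneg _), Complex.ofReal_natCast]

lemma sq_ne {m k : ℕ} (h : k < m) : (sq m k : ℂ) ≠ 0 := by
  rw [Ne, Complex.ofReal_eq_zero, sq, Real.sqrt_eq_zero (Nat.cast_nonneg _), Nat.cast_eq_zero]
  exact (Nat.mul_pos (Nat.succ_pos _) (by omega)).ne'

lemma sq_zero {m k : ℕ} (h : m ≤ k) : sq m k = 0 := by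
  rw [sq, show (k + 1) * (m - k) = 0 by rw [Nat.sub_eq_zero_of_le h, mul_zero], Nat.cast_zero,
    Real.sqrt_zero]

/-- The normalised vectors. -/
noncomputable def nv (L : Module.End ℂ V) (m : ℕ) (p : V) : ℕ → V
  | 0 => p
  | k + 1 => ((sq m k : ℂ))⁻¹ • L (nv L m p k)

lemma nv_eq (m : ℕ) (p : V) : ∀ k, ∃ c : ℂ, nv L m p k = c • (L ^ k) p ∧ (k ≤ m → c ≠ 0)
  | 0 => ⟨1, by rw [pow_zero, Module.End.one_apply, one_smul]; rfl, fun _ => one_ne_zero⟩
  | k + 1 => by
    obtain ⟨c, hc, hc'⟩ := nv_eq m p k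
    refine ⟨((sq m k : ℂ))⁻¹ * c, ?_, fun hk => ?_⟩
    · rw [nv, hc, map_smul, smul_smul, pow_succ', Module.End.mul_apply]
    · exact mul_ne_zero (inv_ne_zero (sq_ne (by omega))) (hc' (by omega))

lemma nv_gt {m : ℕ} (p : V) {k : ℕ} (h : m < k) : nv L m p k = 0 := by
  obtain ⟨k, rfl⟩ : ∃ j, k = j + 1 := ⟨k - 1, by omega⟩
  induction k with
  | zero => rw [nv, sq_zero (by omega), Complex.ofReal_zero, inv_zero, zero_smul]
  | succ k ih =>
    by_cases hk : m < k + 1
    · rw [nv, ih hk, map_zero, smul_zero]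
    · rw [nv, sq_zero (by omega), Complex.ofReal_zero, inv_zero, zero_smul]

variable (h : DirectSum.IsInternal gr) (t : LefStr h n L Lam)

include t

/-- Primitive vectors: two descriptions. -/
lemma prim_iff {i : ℕ} (hi : i ≤ n) {a : V} (ha : a ∈ gr i) :
    (L ^ (n - i + 1)) a = 0 ↔ Lam a = 0 := by
  have hw : wt h n a = -((n - i : ℕ) : ℂ) • a := by
    rw [wt_apply' h ha, Nat.cast_sub hi]
    congr 1
    ring
  constructor
  · intro h0
    exact (t.low hi ha h0).1
  · intro h0
    by_contra hcon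
    have h1 := Sl2.h_e_pow t.sl2 hw (n - i + 1)
    have h2 := Sl2.f_e_pow t.sl2 h0 hw (n - i)
    have h3 : (((n - i : ℕ) : ℂ) + 1) * (((n - i : ℕ) : ℂ) - ((n - i : ℕ) : ℂ)) = 0 := by ring
    rw [h3, zero_smul] at h2
    -- the vector is killed by `Lam` and has positive weight
    set y := (L ^ (n - i + 1)) a with hy
    have hya : y ∈ gr (i + 2 * (n - i + 1)) := pow_L_mem t.hL ha _
    have hwy : wt h n y = -(-((n - i + 2 : ℕ) : ℂ)) • y := by
      rw [h1, neg_neg]
      congr 1
      push_cast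
      ring
    have hbd := t.hbd
    have key : ∀ k : ℕ, Lam ((L ^ (k + 1)) y) =
        (((k : ℂ) + 1) * (-((n - i + 2 : ℕ) : ℂ) - k)) • (L ^ k) y :=
      fun k => Sl2.f_e_pow t.sl2 h2 hwy k
    obtain ⟨N, hN⟩ := t.sl2.nil_e
    have h5 : ∀ k, (L ^ k) y = 0 → y = 0 := by
      intro k
      induction k with
      | zero => intro h6; simpa using h6
      | succ k ih =>
        intro h6
        apply ih
        have h7 := key k
        rw [h6, map_zero] at h7
        have h8 : ((k : ℂ) + 1) * (-((n - i + 2 : ℕ) : ℂ) - k) ≠ 0 := by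
          apply mul_ne_zero
          · exact_mod_cast Nat.succ_ne_zero k
          · intro h9
            have h10 : ((n - i + 2 + k : ℕ) : ℂ) = 0 := by
              push_cast at h9 ⊢
              linear_combination -h9
            have h11 : n - i + 2 + k = 0 := by exact_mod_cast h10
            omega
        exact (smul_eq_zero.1 h7.symm).resolve_left h8
    exact hcon (h5 N (by rw [hN, LinearMap.zero_apply]))

lemma nv_mem {i : ℕ} {p : V} (hp : p ∈ gr i) (k : ℕ) : nv L (n - i) p k ∈ gr (i + 2 * k) := by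
  obtain ⟨c, hc, -⟩ := nv_eq (L := L) (n - i) p k
  rw [hc]
  exact Submodule.smul_mem _ _ (pow_L_mem t.hL hp k)

lemma L_nv {i : ℕ} (hi : i ≤ n) {p : V} (hp : p ∈ gr i) (h0 : Lam p = 0) (k : ℕ) :
    L (nv L (n - i) p k) = (sq (n - i) k : ℂ) • nv L (n - i) p (k + 1) := by
  rcases lt_trichotomy k (n - i) with hk | hk | hk
  · rw [nv, smul_smul, mul_inv_cancel₀ (sq_ne hk), one_smul]
  · obtain ⟨c, hc, -⟩ := nv_eq (L := L) (n - i) p k
    rw [hc, map_smul, ← Module.End.mul_apply, ← pow_succ', hk,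
      (prim_iff h t hi hp).2 h0, smul_zero, sq_zero le_rfl, Complex.ofReal_zero, zero_smul]
  · rw [nv_gt p hk, map_zero, nv_gt p (by omega), smul_zero]

lemma Lam_nv {i : ℕ} (hi : i ≤ n) {p : V} (hp : p ∈ gr i) (h0 : Lam p = 0) (k : ℕ) :
    Lam (nv L (n - i) p (k + 1)) = (sq (n - i) k : ℂ) • nv L (n - i) p k := by
  by_cases hk : n - i ≤ k
  · rw [nv_gt p (by omega), map_zero, sq_zero hk, Complex.ofReal_zero, zero_smul]
  push Not at hk
  have hcomm : ∀ x, Lam (L x) = L (Lam x) - wt h n x := by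
    intro x
    have h1 := congrArg (fun F => F x) t.sl2.ef
    simp only [LinearMap.sub_apply, Module.End.mul_apply] at h1
    rw [← h1]
    abel
  have hw : ∀ k, wt h n (nv L (n - i) p k) = ((i + 2 * k : ℕ) - (n : ℂ)) •
      nv L (n - i) p k := fun k => wt_apply' h (nv_mem h t hp k)
  induction k with
  | zero =>
    change Lam ((sq (n - i) 0 : ℂ)⁻¹ • L (nv L (n - i) p 0)) = _
    rw [map_smul, hcomm, hw]
    have h1 : Lam (nv L (n - i) p 0) = 0 := h0
    rw [h1, map_zero, zero_sub, ← neg_smul, smul_smul]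
    congr 1
    have h2 := sq_sq (n - i) 0
    rw [zero_add, one_mul, Nat.sub_zero] at h2
    have h3 : -(((i + 2 * 0 : ℕ) : ℂ) - n) = (sq (n - i) 0 : ℂ) * sq (n - i) 0 := by
      rw [h2, Nat.cast_sub hi]
      push_cast
      ring
    rw [h3, ← mul_assoc, inv_mul_cancel₀ (sq_ne hk), one_mul]
  | succ k ih =>
    change Lam ((sq (n - i) (k + 1) : ℂ)⁻¹ • L (nv L (n - i) p (k + 1))) = _
    rw [map_smul, hcomm, hw, ih (by omega), map_smul, L_nv h t hi hp h0, smul_smul,
      ← sub_smul, smul_smul]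
    congr 1
    have h2 := sq_sq (n - i) (k + 1)
    have h3 := sq_sq (n - i) k
    have h4 : (sq (n - i) k : ℂ) * sq (n - i) k - (((i + 2 * (k + 1) : ℕ) : ℂ) - n) =
        (sq (n - i) (k + 1) : ℂ) * sq (n - i) (k + 1) := by
      rw [h2, h3]
      have e1 : ((n - i - k : ℕ) : ℂ) = (n : ℂ) - i - k := by
        rw [Nat.cast_sub (by omega), Nat.cast_sub hi]
      have e2 : ((n - i - (k + 1) : ℕ) : ℂ) = (n : ℂ) - i - (k + 1) := by
        rw [Nat.cast_sub (by omega), Nat.cast_sub hi]
        push_cast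
        ring
      push_cast
      rw [e1, e2]
      ring
    rw [h4, ← mul_assoc, inv_mul_cancel₀ (sq_ne hk), one_mul]

end Nv

end Pool.Agent.H844.Car
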