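import Pool.Agent.H844.Car.Mat

/-!
# The involution, for a field isomorphic to the complex numbers
-/

set_option linter.unusedSectionVars false

namespace Pool.Agent.H844.Car

open Module Matrix Pool.Agent.Q60.ED Pool.Agent.Q60.NP Pool.Agent.Q55.Ke
open Pool.Agent.W552 (RatSub LefStr)
open Pool.Agent.H914

section RealK

variable {K : Type*} [Field K] {V : Type*} [AddCommGroup V] [Module K V]

/-- The linear combinations with real coefficients. -/
def RSK (σ : ℂ ≃+* K) (S : Set V) : AddSubgroup V :=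
  AddSubgroup.closure {x | ∃ c : ℝ, ∃ r ∈ S, x = σ (c : ℂ) • r}

variable {σ : ℂ ≃+* K} {S : Set V}

lemma RSK.of {r : V} (hr : r ∈ S) : r ∈ RSK σ S :=
  AddSubgroup.subset_closure ⟨1, r, hr, by rw [Complex.ofReal_one, map_one, one_smul]⟩

lemma RSK.ind {p : V → Prop} (h0 : p 0) (hadd : ∀ x y, p x → p y → p (x + y))
    (hr : ∀ (c : ℝ), ∀ r ∈ S, p (σ (c : ℂ) • r)) {x : V} (hx : x ∈ RSK σ S) : p x := by
  induction hx using AddSubgroup.closure_induction'' with
  | mem x hx =>
    obtain ⟨c, r, hrS, rfl⟩ := hx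
    exact hr c r hrS
  | neg_mem x hx =>
    obtain ⟨c, r, hrS, rfl⟩ := hx
    have h1 := hr (-c) r hrS
    rwa [Complex.ofReal_neg, map_neg, neg_smul] at h1
  | zero => exact h0
  | add x y _ _ hx hy => exact hadd x y hx hy

lemma RSK.smul (c : ℝ) {x : V} (hx : x ∈ RSK σ S) : σ (c : ℂ) • x ∈ RSK σ S := by
  refine RSK.ind (p := fun x => σ (c : ℂ) • x ∈ RSK σ S) ?_ ?_ ?_ hx
  · rw [smul_zero]; exact AddSubgroup.zero_mem _
  · intro x y hx hy
    rw [smul_add]
    exact AddSubgroup.add_mem _ hx hy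
  · intro d r hr
    rw [smul_smul]
    exact AddSubgroup.subset_closure ⟨c * d, r, hr, by rw [Complex.ofReal_mul, map_mul]⟩

lemma RSK.span {x : V} (hx : x ∈ RSK σ S) : x ∈ Submodule.span K S := by
  refine RSK.ind (p := fun x => x ∈ Submodule.span K S) (Submodule.zero_mem _)
    (fun x y hx hy => Submodule.add_mem _ hx hy)
    (fun c r hr => Submodule.smul_mem _ _ (Submodule.subset_span hr)) hx

end RealK

variable {K : Type} [Field K] {ι : Type} [Fintype ι] [DecidableEq ι] {a : ι → ℕ} {n : ℕ}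
  {B C C' : Matrix ι ι K}

lemma LD.map {F : Type} [Field F] (σ : K →+* F) (D : LD a n B C C') :
    LD a n (B.map σ) (C.map σ) (C'.map σ) where
  bd := D.bd
  hC x y h := D.hC x y fun h0 => h (by rw [Matrix.map_apply, h0, map_zero])
  com x y := by
    have h1 : (C.map σ * C'.map σ - C'.map σ * C.map σ) = (C * C' - C' * C).map σ := by
      rw [← Matrix.map_mul, ← Matrix.map_mul]
      ext x y
      rw [Matrix.sub_apply, Matrix.map_apply, Matrix.map_apply, Matrix.map_apply,
        Matrix.sub_apply, map_sub]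
    rw [h1, Matrix.map_apply, D.com]
    split_ifs
    · rw [map_sub, map_natCast, map_natCast]
    · exact map_zero _
  he x y h := D.he x y fun h0 => h (by rw [Matrix.map_apply, h0, map_zero])
  adj1 := by rw [← Matrix.transpose_map, ← Matrix.map_mul, ← Matrix.map_mul, D.adj1]
  adj2 := by rw [← Matrix.transpose_map, ← Matrix.map_mul, ← Matrix.map_mul, D.adj2]
  deg x y h := by rw [Matrix.map_apply, D.deg x y h, map_zero]
  sym x y := by
    rw [Matrix.map_apply, Matrix.map_apply, D.sym x y, map_mul, map_pow, map_neg, map_one]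
  det := by
    intro h0
    have h1 := σ.map_det B
    rw [RingHom.mapMatrix_apply, h0, map_eq_zero] at h1
    exact D.det h1

lemma map_omc {F : Type} [Field F] (σ : K →+* F) (B C : Matrix ι ι K) :
    omc (B.map σ) (C.map σ) = fun w => σ (omc B C w) := by
  funext w
  rw [omc, map_inv', ← Matrix.map_mul, Matrix.map_apply]
  rfl

/-- **The involution, over a field isomorphic to the complex numbers.** -/
theorem LD.exists_kappaK (σ : ℂ ≃+* K) (D : LD a n B C C') (R : RS B)
    (hR1 : R.R 2 (omc B C)) (hR2 : R.R 2 (omc B C'))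
    (hnd : ∀ n, ∀ v ∈ R.span.S n, (∀ w ∈ R.span.S n, bf (TP B n) v w = 0) → v = 0) :
    ∃ κ ∈ Aut B, κ * C = C * κ ∧ κ * C' = C' * κ ∧
      (∀ n, ∀ v ∈ R.span.S n, tpow κ n (tpow κ n v) = v) ∧
      (∀ n, ∀ x ∈ RSK σ {r | R.R n r}, tpow κ n x ∈ RSK σ {r | R.R n r}) ∧
      ∀ n, ∀ x ∈ RSK σ {r | R.R n r}, x ≠ 0 → ∃ q : ℝ, 0 < q ∧
        bf (TP B n) (tpow κ n x) x = σ q := by
  set τ : K ≃+* ℂ := σ.symm with hτ
  have hτσ : ∀ z, τ (σ z) = z := fun z => σ.symm_apply_apply z
  have hστ : ∀ z, σ (τ z) = z := fun z => σ.apply_symm_apply z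
  have hτs : ∀ z, τ.symm z = σ z := fun z => rfl
  let R' : RS (B.map τ) := mapRS τ R
  have hR'R : ∀ {n : ℕ} {t : (Fin n → ι) → ℂ}, R'.R n t ↔ R.R n fun I => σ (t I) := Iff.rfl
  have hR'R2 : ∀ {n : ℕ} {t : (Fin n → ι) → K}, R.R n t → R'.R n fun I => τ (t I) := by
    intro n t ht
    rw [hR'R]
    simp only [hστ]
    exact ht
  have hs1 : ∀ {n : ℕ} {v : (Fin n → ι) → K}, v ∈ R.span.S n →
      (fun I => τ (v I)) ∈ R'.span.S n := by
    intro n v hv
    rw [RS.span_S] at hv
    induction hv using Submodule.span_induction with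
    | mem x hx => exact Submodule.subset_span (hR'R2 hx)
    | zero =>
      have h1 : (fun I : Fin n → ι => τ ((0 : (Fin n → ι) → K) I)) = 0 :=
        funext fun I => map_zero _
      rw [h1]
      exact Submodule.zero_mem _
    | add x y _ _ hx hy =>
      have h1 : (fun I : Fin n → ι => τ ((x + y) I)) = (fun I => τ (x I)) + fun I => τ (y I) :=
        funext fun I => map_add _ _ _
      rw [h1]
      exact Submodule.add_mem _ hx hy
    | smul c x _ hx =>
      have h1 : (fun I : Fin n → ι => τ ((c • x) I)) = τ c • fun I => τ (x I) :=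
        funext fun I => map_mul _ _ _
      rw [h1]
      exact Submodule.smul_mem _ _ hx
  have hs2 : ∀ {n : ℕ} {v : (Fin n → ι) → ℂ}, v ∈ R'.span.S n →
      (fun I => σ (v I)) ∈ R.span.S n := by
    intro n v hv
    rw [RS.span_S] at hv
    induction hv using Submodule.span_induction with
    | mem x hx => exact Submodule.subset_span hx
    | zero =>
      have h1 : (fun I : Fin n → ι => σ ((0 : (Fin n → ι) → ℂ) I)) = 0 :=
        funext fun I => map_zero _
      rw [h1]
      exact Submodule.zero_mem _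
    | add x y _ _ hx hy =>
      have h1 : (fun I : Fin n → ι => σ ((x + y) I)) = (fun I => σ (x I)) + fun I => σ (y I) :=
        funext fun I => map_add _ _ _
      rw [h1]
      exact Submodule.add_mem _ hx hy
    | smul c x _ hx =>
      have h1 : (fun I : Fin n → ι => σ ((c • x) I)) = σ c • fun I => σ (x I) :=
        funext fun I => map_mul _ _ _
      rw [h1]
      exact Submodule.smul_mem _ _ hx
  have hbf : ∀ (n : ℕ) (v w : (Fin n → ι) → K),
      bf (TP (B.map τ) n) (fun I => τ (v I)) (fun I => τ (w I)) = τ (bf (TP B n) v w) := by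
    intro n v w
    have h1 := map_bf (τ : K →+* ℂ) (TP B n) v w
    have h2 : TP (B.map τ) n = (TP B n).map τ := map_TP (τ : K →+* ℂ) B n
    rw [h2]
    exact h1
  have hnd' : ∀ n, ∀ v ∈ R'.span.S n,
      (∀ w ∈ R'.span.S n, bf (TP (B.map τ) n) v w = 0) → v = 0 := by
    intro n v hv h
    have h1 : (fun I => σ (v I)) = 0 := by
      refine hnd n _ (hs2 hv) fun w hw => ?_
      have h2 := h _ (hs1 hw)
      have h3 := hbf n (fun I => σ (v I)) w
      simp only [hτσ] at h3
      rw [h2] at h3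
      exact (map_eq_zero τ).1 h3.symm
    funext I
    have h2 := congrFun h1 I
    exact (map_eq_zero σ).1 h2
  have hom : ∀ M : Matrix ι ι K, R.R 2 (omc B M) → R'.R 2 (omc (B.map τ) (M.map τ)) := by
    intro M hM
    have h1 := map_omc (τ : K →+* ℂ) B M
    have h2 : omc (B.map τ) (M.map τ) = fun w => τ (omc B M w) := h1
    rw [h2]
    exact hR'R2 hM
  obtain ⟨κ, hκ, hk1, hk2, hk3⟩ := (D.map (τ : K →+* ℂ)).exists_kappa R' (hom C hR1)
    (hom C' hR2) hnd'
  set κ' : Matrix ι ι K := κ.map σ with hκ'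
  have hκκ : κ = κ'.map τ := by
    ext x y
    rw [Matrix.map_apply, hκ', Matrix.map_apply, hτσ]
  have hinj : ∀ M N : Matrix ι ι K, M.map τ = N.map τ → M = N := by
    intro M N h
    ext x y
    exact τ.injective (congrFun (congrFun h x) y)
  have hmul : ∀ M N : Matrix ι ι K, (M * N).map τ = M.map τ * N.map τ := fun M N =>
    Matrix.map_mul (f := (τ : K →+* ℂ))
  have htp : ∀ n (v : (Fin n → ι) → K), tpow κ n (fun I => τ (v I)) =
      fun I => τ (tpow κ' n v I) := by
    intro n v
    rw [hκκ]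
    exact map_tpow (τ : K →+* ℂ) κ' n v
  have hr1 : ∀ {n : ℕ} {x : (Fin n → ι) → K}, x ∈ RSK σ {r | R.R n r} →
      (fun I => τ (x I)) ∈ RSp {r | R'.R n r} := by
    intro n x hx
    refine RSK.ind (p := fun x => (fun I => τ (x I)) ∈ RSp {r | R'.R n r}) ?_ ?_ ?_ hx
    · have h1 : (fun I : Fin n → ι => τ ((0 : (Fin n → ι) → K) I)) = 0 :=
        funext fun I => map_zero _
      beta_reduce
      rw [h1]
      exact AddSubgroup.zero_mem _
    · intro x y hx hy
      have h1 : (fun I : Fin n → ι => τ ((x + y) I)) = (fun I => τ (x I)) + fun I => τ (y I) :=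
        funext fun I => map_add _ _ _
      beta_reduce
      rw [h1]
      exact AddSubgroup.add_mem _ hx hy
    · intro c r hr
      have h1 : (fun I : Fin n → ι => τ ((σ (c : ℂ) • r) I)) = (c : ℂ) • fun I => τ (r I) := by
        funext I
        change τ (σ (c : ℂ) * r I) = (c : ℂ) * τ (r I)
        rw [map_mul, hτσ]
      beta_reduce
      rw [h1]
      exact RSp.smul c (RSp.of (hR'R2 hr))
  have hr2 : ∀ {n : ℕ} {x : (Fin n → ι) → ℂ}, x ∈ RSp {r | R'.R n r} →
      (fun I => σ (x I)) ∈ RSK σ {r | R.R n r} := by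
    intro n x hx
    refine RSp.ind (p := fun x => (fun I => σ (x I)) ∈ RSK σ {r | R.R n r}) ?_ ?_ ?_ hx
    · have h1 : (fun I : Fin n → ι => σ ((0 : (Fin n → ι) → ℂ) I)) = 0 :=
        funext fun I => map_zero _
      beta_reduce
      rw [h1]
      exact AddSubgroup.zero_mem _
    · intro x y hx hy
      have h1 : (fun I : Fin n → ι => σ ((x + y) I)) = (fun I => σ (x I)) + fun I => σ (y I) :=
        funext fun I => map_add _ _ _
      beta_reduce
      rw [h1]
      exact AddSubgroup.add_mem _ hx hy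
    · intro c r hr
      have h1 : (fun I : Fin n → ι => σ (((c : ℂ) • r) I)) = σ (c : ℂ) • fun I => σ (r I) := by
        funext I
        change σ ((c : ℂ) * r I) = σ (c : ℂ) * σ (r I)
        rw [map_mul]
      beta_reduce
      rw [h1]
      exact RSK.smul c (RSK.of hr)
  refine ⟨κ', ?_, ?_, ?_, ?_, ?_, ?_⟩
  · rw [mem_Aut]
    apply hinj
    have h1 : κᵀ * B.map τ * κ = B.map τ := hκ.1
    rw [hmul, hmul, Matrix.transpose_map, ← hκκ]
    exact h1
  · apply hinj
    rw [hmul, hmul, ← hκκ]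
    exact hκ.2 _ (Or.inl rfl)
  · apply hinj
    rw [hmul, hmul, ← hκκ]
    exact hκ.2 _ (Or.inr rfl)
  · intro n v hv
    have h1 := hk1 n _ (hs1 hv)
    rw [htp, htp] at h1
    funext I
    exact τ.injective (congrFun h1 I)
  · intro n x hx
    have h1 := hr2 (hk2 n _ (hr1 hx))
    rw [htp] at h1
    simp only [hστ] at h1
    exact h1
  · intro n x hx hx0
    obtain ⟨q, hq, hq'⟩ := hk3 n _ (hr1 hx) fun h0 => hx0 (by
      funext I
      exact (map_eq_zero τ).1 (congrFun h0 I))
    refine ⟨q, hq, ?_⟩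
    rw [htp] at hq'
    have h1 : τ (bf (TP B n) (tpow κ' n x) x) = q := (hbf n _ _).symm.trans hq'
    rw [← h1, hστ]

end Pool.Agent.H844.Car
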