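import Pool.Graph.R_pool_sql_team_seeded_3997aac3.Q55.Ke.Main
import Pool.Agent.H844.Car.Tr

/-!
# The matrices of a polarised variety
-/

open CategoryTheory AlgebraicGeometry

set_option linter.unusedSectionVars false

universe u v

namespace Pool.Agent.H844.Car

open Module Matrix
open Pool.Agent.H914 Pool.Agent.H914.VarClass Pool.Agent.H914.VarClass.Obj
  Pool.Agent.H914.WeilCohomology
open Pool.Agent.Y133.Half Pool.Agent.Q60.ED Pool.Agent.Q60.TD Pool.Agent.H281R3.HT
  Pool.Agent.H447 Pool.Agent.Q55 Pool.Agent.Q55.Hs Pool.Agent.Q60.NP Pool.Agent.Q55.Ke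
open Pool.Agent.W552 (AS AOp RatSub Fr Sy st sg_add)
open Pool.Agent.Q60.HD (wd wd_zero wd_succ wd_map wd_prj wd_append wd_PH wb_PH sum_append' wb_xp)

variable {k : Type u} [Field k] {𝒱 : VarClass k} {ops : CycleOps 𝒱}
  {W : WeilCohomology.{u, 0} ops} {X : 𝒱.Obj} {D : X.Cycles} {ι : Type} [Fintype ι]
  [DecidableEq ι] {e : Basis ι W.K (W.H X)} {a : ι → ℕ} {f : Module.End W.K (W.H X)}

/-- The coordinates of a homogeneous vector. -/
lemma repr_gr (he : ∀ j, e j ∈ W.gr X (a j)) {i : ℕ} {v : W.H X} (hv : v ∈ W.gr X i) {x : ι}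
    (hx : a x ≠ i) : e.repr v x = 0 := by
  have h1 : proj (W.isInternal X) (a x) v = 0 := proj_ne _ hv (Ne.symm hx)
  have h2 : proj (W.isInternal X) (a x) v =
      ∑ y, (if a y = a x then e.repr v y else 0) • e y := by
    conv_lhs => rw [← e.sum_repr v]
    rw [map_sum]
    refine Finset.sum_congr rfl fun y _ => ?_
    rw [map_smul]
    by_cases hy : a y = a x
    · rw [if_pos hy, ← hy, proj_same _ (he y)]
    · rw [if_neg hy, proj_ne _ (he y) hy, smul_zero, zero_smul]
  rw [h1] at h2
  have h3 := Fintype.linearIndependent_iff.1 e.linearIndependent _ h2.symm x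
  rwa [if_pos rfl] at h3

/-- The star operator exchanges the two operators. -/
lemma st_lower (F : Fr W X D f) (b : W.H X) :
    st W X D f (f b) = W.cl X D * st W X D f b := by
  refine gr_induction (W.isInternal X) (p := fun b =>
    st W X D f (f b) = W.cl X D * st W X D f b) ?_ ?_ b
  swap
  · intro a b ha hb
    rw [map_add, map_add, map_add, mul_add, ha, hb]
  intro i b hb
  have h1 := congrArg (fun G => G b) (wey_f F.sl2)
  simp only [Module.End.mul_apply, LinearMap.neg_apply] at h1
  have h1' : wop W X D f (f b) = -(W.cl X D * wop W X D f b) := h1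
  have h2 := F.f_gr hb
  rcases Nat.lt_or_ge i 2 with hi | hi
  · have h3 := h2.2 hi
    rw [h3, map_zero] at h1'
    have h4 : W.cl X D * wop W X D f b = 0 := by
      rw [← neg_eq_zero, ← h1']
    rw [h3, map_zero, Pool.Agent.W552.st_apply hb, mul_smul_comm, h4, smul_zero]
  · obtain ⟨j, rfl⟩ : ∃ j, i = j + 2 := ⟨i - 2, by omega⟩
    rw [Pool.Agent.W552.st_apply hb, Pool.Agent.W552.st_apply (h2.1 j rfl), h1', mul_smul_comm,
      sg_add]
    have h5 : Pool.Agent.W552.sg 2 = -1 := by simp [Pool.Agent.W552.sg]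
    have h6 : (-1 : ℤ) ^ (j * 2) = 1 := by rw [mul_comm, pow_mul]; simp
    rw [h5, h6]
    push_cast
    rw [smul_neg, ← neg_smul]
    congr 1
    ring

lemma bf_adj (F : Fr W X D f) (x y : W.H X) :
    Pool.Agent.W552.bf W X D f (W.cl X D * x) y = Pool.Agent.W552.bf W X D f x (f y) := by
  have hD : W.cl X D ∈ W.gr X (2 * 1) := W.cl_mem F.hD
  rw [Pool.Agent.W552.bf_apply, Pool.Agent.W552.bf_apply, st_lower F, W.even_comm hD,
    mul_assoc]

/-- **The matrices of a polarised variety.** -/
theorem ld_geo (he : ∀ j, e j ∈ W.gr X (a j)) (G : Pz W X D f)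
    (hst : AOp W X X (st W X D f)) :
    LD a X.dim (gramB e D f) (LinearMap.toMatrix e e (LinearMap.mulLeft W.K (W.cl X D)))
      (LinearMap.toMatrix e e f) := by
  have he' : ∀ j, e j ∈ PH W X (a j) := fun j => PH.of (he j)
  set L := LinearMap.mulLeft W.K (W.cl X D) with hL
  have hLe : ∀ y, L (e y) ∈ W.gr X (a y + 2) := fun y => G.fr.e_gr (he y)
  have h1 : ∀ x y, LinearMap.toMatrix e e L x y ≠ 0 → a x = a y + 2 := by
    intro x y h
    by_contra hne
    apply h
    rw [LinearMap.toMatrix_apply]
    exact repr_gr he (hLe y) hne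
  have h2 : ∀ x y, LinearMap.toMatrix e e f x y ≠ 0 → a y = a x + 2 := by
    intro x y h
    by_contra hne
    apply h
    rw [LinearMap.toMatrix_apply]
    have h3 := G.fr.f_gr (he y)
    rcases Nat.lt_or_ge (a y) 2 with hy | hy
    · rw [h3.2 hy, map_zero]
      rfl
    · obtain ⟨j, hj⟩ : ∃ j, a y = j + 2 := ⟨a y - 2, by omega⟩
      exact repr_gr he (h3.1 j hj.symm) (by omega)
  have hsym : ∀ x y, gramB e D f y x = (-1) ^ a x * gramB e D f x y := fun x y =>
    gramB_symm he' G.sy y x
  have hdeg : ∀ x y, a x ≠ a y → gramB e D f x y = 0 := fun x y h =>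
    G.fr.bf_deg (he x) (he y) h
  have hexp : ∀ (F : Module.End W.K (W.H X)) (y : ι), F (e y) =
      ∑ x, LinearMap.toMatrix e e F x y • e x := by
    intro F y
    conv_lhs => rw [← e.sum_repr (F (e y))]
    exact Finset.sum_congr rfl fun x _ => by rw [LinearMap.toMatrix_apply]
  have hadj1 : (LinearMap.toMatrix e e L)ᵀ * gramB e D f =
      gramB e D f * LinearMap.toMatrix e e f := by
    ext x y
    have h3 := bf_adj G.fr (e x) (e y)
    have h4 : W.cl X D * e x = ∑ z, LinearMap.toMatrix e e L z x • e z := hexp L x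
    rw [h4, hexp f y, map_sum, LinearMap.sum_apply, map_sum] at h3
    rw [Matrix.mul_apply, Matrix.mul_apply]
    refine Eq.trans ?_ (h3.trans ?_)
    · refine Finset.sum_congr rfl fun z _ => ?_
      rw [map_smul, LinearMap.smul_apply, smul_eq_mul]
      rfl
    · refine Finset.sum_congr rfl fun z _ => ?_
      rw [map_smul, smul_eq_mul, mul_comm]
      rfl
  refine ⟨?_, h1, ?_, h2, hadj1, ?_, hdeg, hsym, ?_⟩
  · intro x
    by_contra hx
    have h3 := he x
    rw [W.gr_eq_bot X _ (by omega), Submodule.mem_bot] at h3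
    exact e.ne_zero x h3
  · intro x y
    have h3 : LinearMap.toMatrix e e L * LinearMap.toMatrix e e f -
        LinearMap.toMatrix e e f * LinearMap.toMatrix e e L =
        LinearMap.toMatrix e e (wt (W.isInternal X) X.dim) := by
      rw [← LinearMap.toMatrix_mul, ← LinearMap.toMatrix_mul, ← map_sub, G.fr.sl2.ef]
    rw [h3, LinearMap.toMatrix_apply, wt_apply' _ (he y), map_smul, Finsupp.smul_apply,
      e.repr_self, smul_eq_mul]
    by_cases hxy : x = y
    · rw [if_pos hxy, hxy, Finsupp.single_eq_same, mul_one]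
    · rw [if_neg hxy, Finsupp.single_eq_of_ne hxy, mul_zero]
  · ext x y
    have h3 := congrFun (congrFun hadj1 y) x
    rw [Matrix.mul_apply, Matrix.mul_apply] at h3
    rw [Matrix.mul_apply, Matrix.mul_apply]
    calc ∑ z, (LinearMap.toMatrix e e f)ᵀ x z * gramB e D f z y =
        (-1) ^ a y * ∑ z, gramB e D f y z * LinearMap.toMatrix e e f z x := by
          rw [Finset.mul_sum]
          refine Finset.sum_congr rfl fun z _ => ?_
          rw [hsym y z, Matrix.transpose_apply]
          ring
      _ = (-1) ^ a y * ∑ z, (LinearMap.toMatrix e e L)ᵀ y z * gramB e D f z x := by rw [h3]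
      _ = _ := by
          rw [Finset.mul_sum]
          refine Finset.sum_congr rfl fun z _ => ?_
          rw [hsym x z, Matrix.transpose_apply]
          by_cases hz : LinearMap.toMatrix e e L z y = 0
          · rw [hz]
            ring
          · by_cases hxz : a x = a z
            · have h4 : (-1 : W.K) ^ a y * (-1) ^ a x = 1 := by
                rw [hxz, h1 z y hz, ← pow_add, show a y + (a y + 2) = 2 * (a y + 1) by ring,
                  pow_mul]
                simp
              linear_combination (LinearMap.toMatrix e e L z y * gramB e D f x z) * h4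
            · rw [hdeg x z hxz]
              ring
  · exact isUnit_iff_ne_zero.1 ((Matrix.isUnit_iff_isUnit_det _).1 (RT.inv_mem he' G hst).2)

/-- Algebraic operators act on the rational tensors of degree two. -/
lemma RT_op {F : Module.End W.K (W.H X)} (hF : AOp W X X F) {t : (Fin 2 → ι) → W.K}
    (ht : RT e 2 t) :
    RT e 2 fun J => ∑ z, LinearMap.toMatrix e e F (J 0) z * t ![z, J 1] := by
  rw [RT_succ] at ht ⊢
  have h1 : AS W (pw X 1) (extOp W F (1 : Module.End W.K (W.H X)) (clsK e (prj X 1) t)) :=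
    (AOp.ext hF AOp.one).apply ht
  have h2 : extOp W F (1 : Module.End W.K (W.H X)) (clsK e (prj X 1) t) =
      clsK e (prj X 1) fun J => ∑ z, LinearMap.toMatrix e e F (J 0) z * t ![z, J 1] := by
    have hterm : ∀ x y : ι, extOp W F (1 : Module.End W.K (W.H X))
        (xp W (X := X) (Y := X) (e x) (e y)) =
        ∑ z, LinearMap.toMatrix e e F z x • xp W (X := X) (Y := X) (e z) (e y) := by
      intro x y
      have h3 := extOp_tmul (W := W) (Y := X) (Z := X) F (1 : Module.End W.K (W.H X)) (e x)
        (e y)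
      refine h3.trans ?_
      have h4 : F (e x) = ∑ z, LinearMap.toMatrix e e F z x • e z := by
        conv_lhs => rw [← e.sum_repr (F (e x))]
        exact Finset.sum_congr rfl fun z _ => by rw [LinearMap.toMatrix_apply]
      rw [h4, map_sum, Finset.sum_mul]
      refine Finset.sum_congr rfl fun z _ => ?_
      rw [map_smul, smul_mul_assoc]
      rfl
    have hcls : ∀ s : (Fin 2 → ι) → W.K, clsK e (prj X 1) s =
        ∑ x, ∑ y, s ![x, y] • xp W (X := X) (Y := X) (e x) (e y) := by
      intro s
      rw [clsK]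
      refine (sum_fin2 fun w => s w • wd e (prj X 1) w).trans ?_
      refine Finset.sum_congr rfl fun x _ => Finset.sum_congr rfl fun y _ => ?_
      rw [wd_prj, wb_xp, wb_zero]
      rfl
    refine (congrArg (extOp W F (1 : Module.End W.K (W.H X))) (hcls t)).trans ?_
    refine Eq.trans ?_ (hcls _).symm
    rw [map_sum]
    have h5 : ∀ x : ι, extOp W F (1 : Module.End W.K (W.H X))
        (∑ y, t ![x, y] • xp W (X := X) (Y := X) (e x) (e y)) =
        ∑ y, ∑ z, (t ![x, y] * LinearMap.toMatrix e e F z x) •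
          xp W (X := X) (Y := X) (e z) (e y) := by
      intro x
      rw [map_sum]
      refine Finset.sum_congr rfl fun y _ => ?_
      rw [map_smul, hterm, Finset.smul_sum]
      refine Finset.sum_congr rfl fun z _ => ?_
      rw [smul_smul]
    refine (Finset.sum_congr rfl fun x _ => h5 x).trans ?_
    -- both sides are sums over the triples
    have h6 : ∀ z y : ι, (∑ x, LinearMap.toMatrix e e F (![z, y] 0) x * t ![x, ![z, y] 1]) •
        xp W (X := X) (Y := X) (e z) (e y) =
        ∑ x, (t ![x, y] * LinearMap.toMatrix e e F z x) •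
          xp W (X := X) (Y := X) (e z) (e y) := by
      intro z y
      rw [Finset.sum_smul]
      refine Finset.sum_congr rfl fun x _ => ?_
      congr 1
      change LinearMap.toMatrix e e F z x * t ![x, y] = _
      ring
    refine Eq.trans ?_ (Finset.sum_congr rfl fun z _ => Finset.sum_congr rfl fun y _ =>
      (h6 z y).symm)
    rw [Finset.sum_comm]
    have h7 : ∀ y : ι, (∑ x : ι, ∑ z : ι, (t ![x, y] * LinearMap.toMatrix e e F z x) •
        xp W (X := X) (Y := X) (e z) (e y)) = ∑ z : ι, ∑ x : ι,
          (t ![x, y] * LinearMap.toMatrix e e F z x) • xp W (X := X) (Y := X) (e z) (e y) :=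
      fun y => Finset.sum_comm
    rw [Finset.sum_congr rfl fun y _ => h7 y, Finset.sum_comm]
  rw [← h2]
  exact h1

lemma RT_omc (he : ∀ j, e j ∈ PH W X (a j)) (G : Pz W X D f)
    (hst : AOp W X X (st W X D f)) {F : Module.End W.K (W.H X)} (hF : AOp W X X F) :
    RT e 2 (omc (gramB e D f) (LinearMap.toMatrix e e F)) := by
  have h1 := RT_op hF (RT.inv_mem he G hst).1
  have h2 : (fun J : Fin 2 → ι => ∑ z, LinearMap.toMatrix e e F (J 0) z *
      om (gramB e D f) ![z, J 1]) = omc (gramB e D f) (LinearMap.toMatrix e e F) := by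
    funext J
    rw [omc, Matrix.mul_apply]
    rfl
  rwa [h2] at h1

end Pool.Agent.H844.Car
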