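import Pool.Agent.H844.Car.Ada
import Pool.Agent.H844.Car.Cob

/-!
# The involution in an arbitrary basis
-/

set_option linter.unusedSectionVars false

open scoped ComplexOrder

namespace Pool.Agent.H844.Car

open Module Matrix Pool.Agent.Q60.ED Pool.Agent.Q60.NP Pool.Agent.Q55.Ke
open Pool.Agent.W552 (RatSub LefStr) 
open Pool.Agent.H914

variable {K : Type} [Field K] {ι : Type} [Fintype ι] [DecidableEq ι]

/-- The matrices of a Lefschetz structure with a form. -/
structure LD (a : ι → ℕ) (n : ℕ) (B C C' : Matrix ι ι K) : Prop where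
  bd : ∀ x, a x ≤ 2 * n
  hC : ∀ x y, C x y ≠ 0 → a x = a y + 2
  com : ∀ x y, (C * C' - C' * C) x y = if x = y then (a x : K) - n else 0
  he : ∀ x y, C' x y ≠ 0 → a y = a x + 2
  adj1 : Cᵀ * B = B * C'
  adj2 : C'ᵀ * B = B * C
  deg : ∀ x y, a x ≠ a y → B x y = 0
  sym : ∀ x y, B y x = (-1) ^ a x * B x y
  det : B.det ≠ 0

/-- The homogeneous vectors. -/
def grV (K : Type) [Field K] (a : ι → ℕ) (i : ℕ) : Submodule K (ι → K) where
  carrier := {v | ∀ x, a x ≠ i → v x = 0}
  add_mem' := fun {v w} hv hw x hx => by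
    rw [Pi.add_apply, hv x hx, hw x hx, add_zero]
  zero_mem' := fun x _ => rfl
  smul_mem' := fun c v hv x hx => by
    rw [Pi.smul_apply, hv x hx, smul_zero]

lemma mem_grV {a : ι → ℕ} {i : ℕ} {v : ι → K} : v ∈ grV K a i ↔ ∀ x, a x ≠ i → v x = 0 :=
  Iff.rfl

lemma single_mem (a : ι → ℕ) (x : ι) (c : K) : Pi.single x c ∈ grV K a (a x) := by
  intro y hy
  rw [Pi.single_apply, if_neg]
  rintro rfl
  exact hy rfl

lemma grV_internal (a : ι → ℕ) : DirectSum.IsInternal (grV K a) := by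
  rw [DirectSum.isInternal_submodule_iff_iSupIndep_and_iSup_eq_top]
  constructor
  · intro i
    rw [Submodule.disjoint_def]
    intro v hv hv'
    have h1 : (⨆ j, ⨆ (_ : j ≠ i), grV K a j) ≤
        { carrier := {v : ι → K | ∀ x, a x = i → v x = 0}
          add_mem' := fun {v w} hv hw x hx => by
            rw [Pi.add_apply, hv x hx, hw x hx, add_zero]
          zero_mem' := fun x _ => rfl
          smul_mem' := fun c v hv x hx => by
            rw [Pi.smul_apply, hv x hx, smul_zero] } := by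
      refine iSup_le fun j => iSup_le fun hj => ?_
      intro v hv x hx
      refine hv x fun h => hj ?_
      rw [← h, hx]
    have h2 := h1 hv'
    funext x
    by_cases hx : a x = i
    · exact h2 x hx
    · exact hv x hx
  · rw [eq_top_iff]
    intro v _
    have h1 : v = ∑ x, Pi.single x (v x) := (Finset.univ_sum_single v).symm
    rw [h1]
    refine Submodule.sum_mem _ fun x _ => ?_
    exact Submodule.mem_iSup_of_mem (a x) (single_mem a x (v x))

section Lef

variable [CharZero K] {a : ι → ℕ} {n : ℕ} {B C C' : Matrix ι ι K} (D : LD a n B C C')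

lemma grV_bot (hbd : ∀ x, a x ≤ 2 * n) : ∀ i, 2 * n + 1 ≤ i → grV K a i = ⊥ := by
  intro i hi
  rw [eq_bot_iff]
  intro v hv
  rw [Submodule.mem_bot]
  funext x
  refine hv x ?_
  have := hbd x
  omega

lemma wt_mat (a : ι → ℕ) (n : ℕ) : wt (grV_internal (K := K) a) n =
    (Matrix.diagonal fun x => (a x : K) - n).mulVecLin := by
  refine gr_ext (W := ι → K) (grV_internal (K := K) a) fun i v hv => ?_
  rw [wt_apply' (grV_internal (K := K) a) hv]
  funext x
  rw [Matrix.mulVecLin_apply, Matrix.mulVec_diagonal, Pi.smul_apply, smul_eq_mul]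
  by_cases hx : a x = i
  · rw [hx]
  · rw [hv x hx, mul_zero, mul_zero]

include D in
lemma LD.sl2 : Sl2 (wt (grV_internal (K := K) a) n) C.mulVecLin C'.mulVecLin := by
  have h2 : ∀ M : Matrix ι ι K, (2 : Module.End K (ι → K)) * M.mulVecLin =
      ((2 : K) • M).mulVecLin := by
    intro M
    refine LinearMap.ext fun v => ?_
    rw [two_mul, LinearMap.add_apply, Matrix.mulVecLin_apply, Matrix.mulVecLin_apply,
      Matrix.smul_mulVec, two_smul]
  have hmul : ∀ M N : Matrix ι ι K, M.mulVecLin * N.mulVecLin = (M * N).mulVecLin := by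
    intro M N
    rw [Matrix.mulVecLin_mul]
    rfl
  have hsub : ∀ M N : Matrix ι ι K, M.mulVecLin - N.mulVecLin = (M - N).mulVecLin := by
    intro M N
    refine LinearMap.ext fun v => ?_
    rw [LinearMap.sub_apply, Matrix.mulVecLin_apply, Matrix.mulVecLin_apply,
      Matrix.mulVecLin_apply, Matrix.sub_mulVec]
  have hneg : ∀ M : Matrix ι ι K, -M.mulVecLin = (-M).mulVecLin := by
    intro M
    refine LinearMap.ext fun v => ?_
    rw [LinearMap.neg_apply, Matrix.mulVecLin_apply, Matrix.mulVecLin_apply, Matrix.neg_mulVec]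
  refine ⟨?_, ?_, ?_⟩
  · rw [wt_mat, hmul, hmul, hsub]
    congr 1
    ext x y
    rw [D.com, Matrix.diagonal_apply]
  · rw [wt_mat, hmul, hmul, hsub, h2]
    congr 1
    ext x y
    rw [Matrix.sub_apply, Matrix.diagonal_mul, Matrix.mul_diagonal, Matrix.smul_apply,
      smul_eq_mul]
    by_cases hxy : C x y = 0
    · rw [hxy, mul_zero, zero_mul, mul_zero, sub_zero]
    · rw [D.hC x y hxy]
      push_cast
      ring
  · rw [wt_mat, hmul, hmul, hsub, h2, hneg]
    congr 1
    ext x y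
    rw [Matrix.sub_apply, Matrix.diagonal_mul, Matrix.mul_diagonal, Matrix.neg_apply,
      Matrix.smul_apply, smul_eq_mul]
    by_cases hxy : C' x y = 0
    · rw [hxy, mul_zero, zero_mul, mul_zero, sub_zero, neg_zero]
    · rw [D.he x y hxy]
      push_cast
      ring

include D in
lemma LD.isHom : IsHom (grV K a) 2 C.mulVecLin := by
  intro i v hv
  rcases lt_or_ge i 0 with hi | hi
  · rw [grZ_of_neg hi, Submodule.mem_bot] at hv
    rw [hv, map_zero]
    exact Submodule.zero_mem _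
  · obtain ⟨i, rfl⟩ := Int.eq_ofNat_of_zero_le hi
    rw [grZ_natCast] at hv
    rw [show (i : ℤ) + 2 = ((i + 2 : ℕ) : ℤ) by push_cast; rfl, grZ_natCast]
    intro x hx
    rw [Matrix.mulVecLin_apply, Matrix.mulVec, dotProduct]
    refine Finset.sum_eq_zero fun y _ => ?_
    by_cases hxy : C x y = 0
    · rw [hxy, zero_mul]
    · rw [hv y fun h => hx (by rw [D.hC x y hxy, h]), mul_zero]

include D in
lemma LD.lef : LefStr (grV_internal (K := K) a) n C.mulVecLin C'.mulVecLin :=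
  ⟨D.isHom, grV_bot D.bd, hardLef_of_sl2 _ (grV_bot D.bd) D.sl2, D.sl2⟩

end Lef

section Cx

variable {a : ι → ℕ} {n : ℕ} {B C C' : Matrix ι ι ℂ} (D : LD a n B C C')

include D in
lemma LD.isF : IsF (grV ℂ a) C.mulVecLin C'.mulVecLin (bfB B) := by
  refine ⟨?_, ?_, ?_, ?_, ?_⟩
  · intro v w
    rw [bfB_apply, bfB_apply, bf_eq, bf_eq, Matrix.mulVecLin_apply, Matrix.mulVecLin_apply,
      Matrix.mulVec_mulVec, ← D.adj1, ← Matrix.mulVec_mulVec, Matrix.dotProduct_mulVec v,
      Matrix.vecMul_transpose]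
  · intro v w
    rw [bfB_apply, bfB_apply, bf_eq, bf_eq, Matrix.mulVecLin_apply, Matrix.mulVecLin_apply,
      Matrix.mulVec_mulVec, ← D.adj2, ← Matrix.mulVec_mulVec, Matrix.dotProduct_mulVec v,
      Matrix.vecMul_transpose]
  · intro i j v hv w hw hij
    rw [bfB_apply, bf]
    refine Finset.sum_eq_zero fun x _ => Finset.sum_eq_zero fun y _ => ?_
    by_cases hx : a x = i
    · by_cases hy : a y = j
      · rw [D.deg x y (by rw [hx, hy]; exact hij), mul_zero, zero_mul]
      · rw [hw y hy, mul_zero]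
    · rw [hv x hx, zero_mul, zero_mul]
  · intro i v hv w hw
    rw [bfB_apply, bfB_apply, bf, bf, Finset.sum_comm, Finset.mul_sum]
    refine Finset.sum_congr rfl fun x _ => ?_
    rw [Finset.mul_sum]
    refine Finset.sum_congr rfl fun y _ => ?_
    by_cases hx : a x = i
    · rw [D.sym x y, hx]
      ring
    · rw [hv x hx, mul_zero, zero_mul, zero_mul, mul_zero]
  · intro v hv
    by_contra hne
    apply D.det
    refine Matrix.exists_vecMul_eq_zero_iff.1 ⟨v, hne, ?_⟩
    funext y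
    have h1 := hv (Pi.single y 1)
    rw [bfB_apply, bf_eq, Matrix.mulVec_single_one] at h1
    exact h1

include D in
/-- **Adapted coordinates.** -/
theorem LD.exists_coord : ∃ (P : Matrix ι ι ℂ) (c : Matrix ι ι ℝ), P.det ≠ 0 ∧
    C * P = P * c.map Complex.ofRealHom ∧ C' * P = P * (c.map Complex.ofRealHom)ᵀ ∧
    (Pᵀ * B * P)ᴴ * (Pᵀ * B * P) = 1 := by
  obtain ⟨ι', _, _, e, a', c, he, hun, hL, hLam⟩ :=
    exists_adapted D.isF (grV_internal a) D.lef
  set φ : ι' ≃ ι := e.indexEquiv (Pi.basisFun ℂ ι) with hφ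
  set P : Matrix ι ι ℂ := Matrix.of fun x y => e (φ.symm y) x with hP
  have hP1 : P = (Pi.basisFun ℂ ι).toMatrix (e.reindex φ) := by
    ext x y
    rw [Module.Basis.toMatrix_apply, Pi.basisFun_repr, Module.Basis.reindex_apply]
    rfl
  have hPd : P.det ≠ 0 := by
    have h1 : IsUnit P := by
      rw [hP1]
      let _ := Module.Basis.invertibleToMatrix (Pi.basisFun ℂ ι) (e.reindex φ)
      exact isUnit_of_invertible _
    exact isUnit_iff_ne_zero.1 ((Matrix.isUnit_iff_isUnit_det _).1 h1)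
  have hmat : ∀ (M : Matrix ι ι ℂ) (d : Matrix ι' ι' ℝ),
      (∀ y, M.mulVecLin (e y) = ∑ x, (d x y : ℂ) • e x) →
      M * P = P * (d.submatrix φ.symm φ.symm).map Complex.ofRealHom := by
    intro M d h
    ext x y
    have h1 := congrFun (h (φ.symm y)) x
    rw [Matrix.mulVecLin_apply, Matrix.mulVec, dotProduct] at h1
    rw [Matrix.mul_apply, Matrix.mul_apply]
    refine Eq.trans ?_ (h1.trans ?_)
    · rfl
    · rw [Finset.sum_apply, ← φ.symm.sum_comp]
      refine Finset.sum_congr rfl fun z _ => ?_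
      rw [Pi.smul_apply, smul_eq_mul, mul_comm]
      rfl
  refine ⟨P, c.submatrix φ.symm φ.symm, hPd, hmat C c hL, ?_, ?_⟩
  · have h1 := hmat C' cᵀ fun y => by
      rw [hLam]
      rfl
    rw [h1]
    congr 1
  · have h1 : Pᵀ * B * P = (Matrix.of fun x y => bfB B (e x) (e y)).submatrix φ.symm φ.symm := by
      ext x y
      rw [Matrix.submatrix_apply, Matrix.of_apply, bfB_apply, bf, Matrix.mul_apply]
      simp only [Matrix.mul_apply, Finset.sum_mul, Matrix.transpose_apply]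
      rw [Finset.sum_comm]
      rfl
    rw [h1, Matrix.conjTranspose_submatrix, Matrix.submatrix_mul_equiv, hun,
      Matrix.submatrix_one_equiv]

include D in
/-- **The involution, over the complex numbers.** -/
theorem LD.exists_kappa (R : RS B) (hR1 : R.R 2 (omc B C)) (hR2 : R.R 2 (omc B C'))
    (hnd : ∀ n, ∀ v ∈ R.span.S n, (∀ w ∈ R.span.S n, bf (TP B n) v w = 0) → v = 0) :
    ∃ κ ∈ Zt B {C, C'}, (∀ n, ∀ v ∈ R.span.S n, tpow κ n (tpow κ n v) = v) ∧
      (∀ n, ∀ x ∈ RSp {r | R.R n r}, tpow κ n x ∈ RSp {r | R.R n r}) ∧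
      ∀ n, ∀ x ∈ RSp {r | R.R n r}, x ≠ 0 → ∃ q : ℝ, 0 < q ∧
        bf (TP B n) (tpow κ n x) x = q := by
  obtain ⟨P, c, hP, hCP, hCP', hu⟩ := D.exists_coord
  set c₁ : Matrix ι ι ℂ := c.map Complex.ofRealHom with hc₁
  set B' := Pᵀ * B * P with hB'
  have hPu := isUnit_iff_ne_zero.2 hP
  have hPPi : P * P⁻¹ = 1 := mul_nonsing_inv _ hPu
  have hPiP : P⁻¹ * P = 1 := nonsing_inv_mul _ hPu
  have hB'd : B'.det ≠ 0 := det_of_unitary hu
  have hcT : c₁ᴴ = c₁ᵀ := by
    ext x y
    rw [conjTranspose_apply, transpose_apply, hc₁, Matrix.map_apply]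
    exact Complex.conj_ofReal _
  -- the adjunctions in the new basis
  have hC1 : C = P * c₁ * P⁻¹ := by
    rw [← hCP, Matrix.mul_assoc, hPPi, Matrix.mul_one]
  have hC2 : C' = P * c₁ᵀ * P⁻¹ := by
    rw [← hCP', Matrix.mul_assoc, hPPi, Matrix.mul_one]
  have hadj : ∀ (M N : Matrix ι ι ℂ) (m n' : Matrix ι ι ℂ), M * P = P * m → N * P = P * n' →
      Mᵀ * B = B * N → mᵀ * B' = B' * n' := by
    intro M N m n' hM hN h
    have h1 := congrArg Matrix.transpose hM
    rw [transpose_mul, transpose_mul] at h1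
    calc mᵀ * B' = (mᵀ * Pᵀ) * B * P := by rw [hB']; simp only [Matrix.mul_assoc]
      _ = Pᵀ * (Mᵀ * B) * P := by rw [← h1]; simp only [Matrix.mul_assoc]
      _ = Pᵀ * B * (N * P) := by rw [h]; simp only [Matrix.mul_assoc]
      _ = B' * n' := by rw [hN, hB']; simp only [Matrix.mul_assoc]
  have ha1 : c₁ᵀ * B' = B' * c₁ᵀ := hadj C C' c₁ c₁ᵀ hCP hCP' D.adj1
  have ha2 : c₁ * B' = B' * c₁ := by
    have h1 := hadj C' C c₁ᵀ c₁ hCP' hCP D.adj2
    rwa [transpose_transpose] at h1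
  have hJ : ∀ m : Matrix ι ι ℂ, (∀ x y, starRingEnd ℂ (m x y) = m x y) → m * B'ᴴ = B'ᴴ * m →
      J0 B' 2 (omc B' m) = omc B' m := by
    intro m hm hmB
    apply mat2_inj
    rw [J0, tpow_two, mat2_omc, inv_of_unitary hu]
    have h1 : mat2 (fun I => starRingEnd ℂ (omc B' m I)) = m * B'ᵀ := by
      ext x y
      rw [mat2, Matrix.of_apply, omc, inv_of_unitary hu, Matrix.mul_apply, Matrix.mul_apply,
        map_sum]
      refine Finset.sum_congr rfl fun z _ => ?_
      rw [map_mul, conjTranspose_apply, transpose_apply]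
      change starRingEnd ℂ (m x z) * _ = _
      rw [hm]
      congr 1
      exact Complex.conj_conj _
    have h2 : B'ᵀ * (B'ᴴ)ᵀ = 1 := by
      rw [← transpose_mul, hu, transpose_one]
    rw [h1, Matrix.mul_assoc, Matrix.mul_assoc, h2, Matrix.mul_one, hmB]
  have hc₁r : ∀ x y, starRingEnd ℂ (c₁ x y) = c₁ x y := fun x y => by
    rw [hc₁, Matrix.map_apply]
    exact Complex.conj_ofReal _
  have hcTT : (c₁ᵀ)ᴴ = c₁ := by
    rw [← hcT, conjTranspose_conjTranspose]
  have hb1 : c₁ * B'ᴴ = B'ᴴ * c₁ := by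
    have h1 := congrArg conjTranspose ha1
    rw [conjTranspose_mul c₁ᵀ B', conjTranspose_mul B' c₁ᵀ, hcTT] at h1
    exact h1.symm
  have hb2 : c₁ᵀ * B'ᴴ = B'ᴴ * c₁ᵀ := by
    have h1 := congrArg conjTranspose ha2
    rw [conjTranspose_mul c₁ B', conjTranspose_mul B' c₁, hcT] at h1
    exact h1.symm
  -- the system in the new basis
  set R' := conjRS R hP with hR'
  have hom : ∀ m : Matrix ι ι ℂ, tpow P 2 (omc B' m) = omc B (P * m * P⁻¹) := by
    intro m
    apply mat2_inj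
    rw [tpow_two, mat2_omc, mat2_omc, hB', Matrix.mul_inv_rev, Matrix.mul_inv_rev]
    have hPt : (Pᵀ)⁻¹ * Pᵀ = 1 := nonsing_inv_mul _ (by rwa [det_transpose])
    calc P * (m * (P⁻¹ * (B⁻¹ * (Pᵀ)⁻¹))) * Pᵀ = P * m * P⁻¹ * B⁻¹ * ((Pᵀ)⁻¹ * Pᵀ) := by
          simp only [Matrix.mul_assoc]
      _ = _ := by rw [hPt, Matrix.mul_one]
  have hnd' : ∀ n, ∀ v ∈ R'.span.S n, (∀ w ∈ R'.span.S n, bf (TP B' n) v w = 0) → v = 0 := by
    intro n v hv h
    have h1 : tpow P n v = 0 := by
      refine hnd n _ ((mem_conj_span R hP).1 hv) fun w hw => ?_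
      have h2 := h (tpow P⁻¹ n w) ((mem_conj_span R hP).2 (by rwa [tpow_cancel_inv hP]))
      rwa [hB', bf_conj, tpow_cancel_inv hP] at h2
    have h3 := congrArg (tpow P⁻¹ n) h1
    rwa [tpow_inv_cancel hP, map_zero] at h3
  obtain ⟨M, T, hT1, hT2⟩ := exists_fg R'.span hB'd hnd'
  obtain ⟨κ, hκ, hk1, hk2, hk3⟩ := Pool.Agent.H844.Car.exists_kappa (𝒞 := {c₁, c₁ᵀ}) hu R' hT1
    hT2 (fun n => by rw [hT2]; exact hnd' n)
    (by
      rintro m (rfl | rfl)
      · rw [hcT]; exact Or.inr rfl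
      · rw [hcTT]; exact Or.inl rfl)
    (by
      rintro m (rfl | rfl)
      · rw [hR', conjRS_R, hom, ← hC1]; exact hR1
      · rw [hR', conjRS_R, hom, ← hC2]; exact hR2)
    (by
      rintro m (rfl | rfl)
      · exact hJ _ hc₁r hb1
      · exact hJ _ (fun x y => hc₁r y x) hb2)
  have hκP : ∀ n (v : (Fin n → ι) → ℂ), tpow (P * κ * P⁻¹) n (tpow P n v) =
      tpow P n (tpow κ n v) := by
    intro n v
    rw [tpow_mul, tpow_mul, tpow_inv_cancel hP]
  have hback : ∀ n, ∀ x ∈ RSp {r | R.R n r}, tpow P⁻¹ n x ∈ RSp {r | R'.R n r} := by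
    intro n x hx
    refine RSp.ind (p := fun x => tpow P⁻¹ n x ∈ RSp {r | R'.R n r}) ?_ ?_ ?_ hx
    · rw [map_zero]; exact AddSubgroup.zero_mem _
    · intro x y hx hy
      rw [map_add]
      exact AddSubgroup.add_mem _ hx hy
    · intro d r hr
      rw [map_smul]
      refine RSp.smul d (RSp.of ?_)
      change R.R n (tpow P n (tpow P⁻¹ n r))
      rw [tpow_cancel_inv hP]
      exact hr
  have hforth : ∀ n, ∀ x ∈ RSp {r | R'.R n r}, tpow P n x ∈ RSp {r | R.R n r} := by
    intro n x hx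
    refine RSp.ind (p := fun x => tpow P n x ∈ RSp {r | R.R n r}) ?_ ?_ ?_ hx
    · rw [map_zero]; exact AddSubgroup.zero_mem _
    · intro x y hx hy
      rw [map_add]
      exact AddSubgroup.add_mem _ hx hy
    · intro d r hr
      rw [map_smul]
      exact RSp.smul d (RSp.of hr)
  refine ⟨P * κ * P⁻¹, ⟨?_, ?_⟩, ?_, ?_, ?_⟩
  · rw [mem_Aut]
    have h1 : κᵀ * B' * κ = B' := hκ.1
    calc (P * κ * P⁻¹)ᵀ * B * (P * κ * P⁻¹) = (P⁻¹)ᵀ * (κᵀ * B' * κ) * P⁻¹ := by
          rw [transpose_mul, transpose_mul, hB']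
          simp only [Matrix.mul_assoc]
      _ = B := by rw [h1, hB', conj_inv hP]
  · have hcm : ∀ m : Matrix ι ι ℂ, κ * m = m * κ →
        P * κ * P⁻¹ * (P * m * P⁻¹) = P * m * P⁻¹ * (P * κ * P⁻¹) := by
      intro m hm
      calc P * κ * P⁻¹ * (P * m * P⁻¹) = P * κ * (P⁻¹ * P) * m * P⁻¹ := by
            simp only [Matrix.mul_assoc]
        _ = P * (κ * m) * P⁻¹ := by rw [hPiP, Matrix.mul_one]; simp only [Matrix.mul_assoc]
        _ = P * m * (P⁻¹ * P) * κ * P⁻¹ := by
            rw [hm, hPiP, Matrix.mul_one]; simp only [Matrix.mul_assoc]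
        _ = _ := by simp only [Matrix.mul_assoc]
    rintro m (rfl | rfl)
    · rw [hC1]
      exact hcm _ (hκ.2 _ (Or.inl rfl))
    · rw [hC2]
      exact hcm _ (hκ.2 _ (Or.inr rfl))
  · intro n v hv
    have h1 : tpow P⁻¹ n v ∈ R'.span.S n :=
      (mem_conj_span R hP).2 (by rwa [tpow_cancel_inv hP])
    have h2 := congrArg (tpow P n) (hk1 n _ h1)
    rw [← hκP, ← hκP, tpow_cancel_inv hP] at h2
    exact h2
  · intro n x hx
    have h1 := hforth n _ (hk2 n _ (hback n x hx))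
    rwa [← hκP, tpow_cancel_inv hP] at h1
  · intro n x hx hx0
    obtain ⟨q, hq, hq'⟩ := hk3 n _ (hback n x hx) fun h0 => hx0 (by
      have h1 := congrArg (tpow P n) h0
      rwa [tpow_cancel_inv hP, map_zero] at h1)
    refine ⟨q, hq, ?_⟩
    rw [hB', bf_conj, ← hκP, tpow_cancel_inv hP] at hq'
    exact hq'

end Cx

end Pool.Agent.H844.Car
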