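import Pool.Graph.R_pool_sql_team_seeded_3997aac3.Q55.ZeroOneDefs

/-!
# Cartan involutions on the powers of a variety: definitions
-/

open CategoryTheory AlgebraicGeometry

universe u v

namespace Pool.Agent.H844.Cartan

open Pool.Agent.H914 Pool.Agent.H914.VarClass Pool.Agent.H914.VarClass.Obj
  Pool.Agent.H914.WeilCohomology Pool.Agent.Y133.Half Pool.Agent.Q55

variable {k : Type u} [Field k] {𝒱 : VarClass k} {ops : CycleOps 𝒱}

/-- The exterior product of two classes. -/
noncomputable def cross (W : WeilCohomology.{u, v} ops) {Y Z : 𝒱.Obj} (x : W.H Y) (y : W.H Z) :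
    W.H (Y.prod Z) :=
  W.map (fst Y Z) x * W.map (snd Y Z) y

/-- The number `tr (x · y)`. -/
noncomputable def inter (W : WeilCohomology.{u, v} ops) {Y : 𝒱.Obj} (x y : W.H Y) : W.K := W.tr Y (x * y)

/-- The product of the class `x` with the `i`-th power of the class of the divisor `E`. -/
noncomputable def timesDiv (W : WeilCohomology.{u, v} ops) {Y : 𝒱.Obj} (E : Y.Cycles) (i : ℕ) (x : W.H Y) :
    W.H Y :=
  W.cl Y E ^ i * x

/-- The *real algebraic classes* of codimension `j` on `Y`: the linear combinations of the classes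
of the algebraic cycles of codimension `j` with real coefficients, where the complex numbers are
identified with the coefficient field of the cohomology by means of `σ`. -/
inductive IsRealAlg (W : WeilCohomology.{u, v} ops) (σ : ℂ ≃+* W.K) (Y : 𝒱.Obj) (j : ℕ) :
    W.H Y → Prop
  | cycle (c : ℝ) (z : Y.Cycles) : Y.IsCyc j z → IsRealAlg W σ Y j (σ (c : ℂ) • W.cl Y z)
  | add {x y : W.H Y} : IsRealAlg W σ Y j x → IsRealAlg W σ Y j y → IsRealAlg W σ Y j (x + y)

/-- The endomorphism `t` of `H (Y)` is linear, it preserves the degrees of the classes, the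
multiplication by the class of the divisor `E` and the Poincare duality. -/
structure Preserves (W : WeilCohomology.{u, v} ops) (Y : 𝒱.Obj) (E : Y.Cycles)
    (t : W.H Y → W.H Y) : Prop where
  add : ∀ x y, t (x + y) = t x + t y
  smul : ∀ (c : W.K) x, t (c • x) = c • t x
  degree : ∀ i x, x ∈ W.gr Y i → t x ∈ W.gr Y i
  divisor : ∀ x, t (timesDiv W E 1 x) = timesDiv W E 1 (t x)
  duality : ∀ x y, inter W (t x) (t y) = inter W x y

/-- The endomorphism `t` of `H (Y)` is an involution on the real algebraic classes, and it
satisfies the twisted relations of Hodge and Riemann: for a real algebraic class `x ≠ 0` of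
codimension `j`, `2 j ≤ d = dim Y`, which is primitive for the divisor `E`, the number
`(-1) ^ j tr (t(x) · E ^ (d - 2 j) · x)` is real and positive. -/
structure Polarizes (W : WeilCohomology.{u, v} ops) (σ : ℂ ≃+* W.K) (Y : 𝒱.Obj) (E : Y.Cycles)
    (t : W.H Y → W.H Y) : Prop where
  real : ∀ j x, IsRealAlg W σ Y j x → IsRealAlg W σ Y j (t x)
  involution : ∀ j x, IsRealAlg W σ Y j x → t (t x) = x
  positive : ∀ j x, 2 * j ≤ Y.dim → IsRealAlg W σ Y j x →
    timesDiv W E (Y.dim - 2 * j + 1) x = 0 → x ≠ 0 →
      ∃ r : ℝ, 0 < r ∧ inter W (t x) (timesDiv W E (Y.dim - 2 * j) x) = σ ((-1) ^ j * r)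

/-- A *Cartan involution* for the powers `X ^ (n + 1)` of `X` (`pw X n`), which carry the sums of
the pull-backs of the divisor `D` (`pwDiv ops D n`): a linear automorphism `t 0` of `H (X)` and its
tensor powers `t n` on `H (X ^ (n + 1))` which preserve the degrees, the classes of the divisors and
the Poincare duality (`Preserves`), are involutions on the real algebraic classes and turn the form
of the standard conjecture of Hodge type into a positive definite form (`Polarizes`). -/
structure IsCartan (W : WeilCohomology.{u, v} ops) (σ : ℂ ≃+* W.K) (X : 𝒱.Obj) (D : X.Cycles)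
    (t : ∀ n, W.H (pw X n) → W.H (pw X n)) : Prop where
  tensor : ∀ n (x : W.H (pw X n)) (y : W.H X), t (n + 1) (cross W x y) = cross W (t n x) (t 0 y)
  preserves : ∀ n, Preserves W (pw X n) (pwDiv ops D n) (t n)
  polarizes : ∀ n, Polarizes W σ (pw X n) (pwDiv ops D n) (t n)

end Pool.Agent.H844.Cartan
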